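import Pool.Agent.K3h40.Cyc.QB

/-! The triangulation of a cyclic polytope with `d+3` vertices and its volume. -/

namespace Pool.Agent.K3h40.Cyc

open Finset MeasureTheory Filter Topology Matrix

variable {d : ℕ}

/-! ### convex hull of a finite family -/

lemma mem_hull_iff {α : Type*} [Fintype α] (p : α → EE d) (x : EE d) :
    x ∈ convexHull ℝ (Set.range p) ↔ ∃ w ∈ stdSimplex ℝ α, ∑ i, w i • p i = x := by
  classical
  let L : (α → ℝ) →ₗ[ℝ] EE d := Fintype.linearCombination ℝ p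
  have h1 : convexHull ℝ (Set.range p) = L '' stdSimplex ℝ α := by
    rw [← convexHull_rangle_single_eq_stdSimplex, LinearMap.image_convexHull, ← Set.range_comp]
    congr 2
    funext i
    simp [L, Fintype.linearCombination_apply_single]
  rw [h1]
  constructor
  · rintro ⟨w, hw, rfl⟩
    exact ⟨w, hw, by simp [L, Fintype.linearCombination_apply]⟩
  · rintro ⟨w, hw, rfl⟩
    exact ⟨w, hw, by simp [L, Fintype.linearCombination_apply]⟩

/-! ### signs -/

/-- the alternately signed dual -/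
noncomputable def ee (g : Fin (d + 3) → ℂ) (i : Fin (d + 3)) : ℂ := (((-1 : ℝ) ^ i.val : ℝ) : ℂ) * g i

lemma neg_one_pow_sq (i : ℕ) : ((-1 : ℝ) ^ i) * ((-1 : ℝ) ^ i) = 1 := by
  rw [← mul_pow]; norm_num

lemma g_eq_ee (g : Fin (d + 3) → ℂ) (i : Fin (d + 3)) :
    g i = (((-1 : ℝ) ^ i.val : ℝ) : ℂ) * ee g i := by
  unfold ee
  rw [← mul_assoc, ← Complex.ofReal_mul, neg_one_pow_sq, Complex.ofReal_one, one_mul]

lemma g_even {g : Fin (d + 3) → ℂ} {i : Fin (d + 3)} (h : i.val % 2 = 0) : g i = ee g i := by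
  rw [g_eq_ee g i]
  have : ((-1 : ℝ) ^ i.val) = 1 := Even.neg_one_pow (Nat.even_iff.2 h)
  rw [this, Complex.ofReal_one, one_mul]

lemma g_odd {g : Fin (d + 3) → ℂ} {i : Fin (d + 3)} (h : i.val % 2 = 1) : g i = -ee g i := by
  rw [g_eq_ee g i]
  have : ((-1 : ℝ) ^ i.val) = -1 := Odd.neg_one_pow (Nat.odd_iff.2 h)
  rw [this]
  push_cast
  ring

/-- the sign pattern of a cyclic polytope -/
def Pos (g : Fin (d + 3) → ℂ) : Prop := ∀ i j : Fin (d + 3), i < j → 0 < wdg (ee g i) (ee g j)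

lemma Pos.nonneg {g : Fin (d + 3) → ℂ} (h : Pos g) {i j : Fin (d + 3)} (hij : i ≤ j) :
    0 ≤ wdg (ee g i) (ee g j) := by
  rcases eq_or_lt_of_le hij with rfl | h'
  · rw [wdg_self]
  · exact (h i j h').le

/-- the direction -/
noncomputable def rr (g : Fin (d + 3) → ℂ) : ℂ := g (Fin.last (d + 2)) - g 0

lemma rr_eq (hd : Even d) (g : Fin (d + 3) → ℂ) : rr g = ee g (Fin.last (d + 2)) - ee g 0 := by
  obtain ⟨m, hm⟩ := hd
  unfold rr
  rw [g_even (g := g) (i := Fin.last (d + 2)) (by simp [Fin.val_last]; omega),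
    g_even (g := g) (i := 0) (by simp)]

lemma wdg_rr_neg (hd : Even d) {g : Fin (d + 3) → ℂ} (h : Pos g) (k : Fin (d + 3)) :
    wdg (rr g) (ee g k) < 0 := by
  rw [rr_eq hd, wdg_sub_left, wdg_comm]
  have h1 : 0 ≤ wdg (ee g k) (ee g (Fin.last (d + 2))) := h.nonneg (Fin.le_last k)
  have h2 : 0 ≤ wdg (ee g 0) (ee g k) := h.nonneg (Fin.zero_le k)
  rcases Fin.eq_zero_or_eq_succ k with h0 | ⟨j, hj⟩
  · have : (0 : Fin (d + 3)) < Fin.last (d + 2) := Fin.last_pos
    have h3 := h 0 (Fin.last (d + 2)) this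
    rw [h0] at h1 h2 ⊢
    linarith
  · have : (0 : Fin (d + 3)) < k := by rw [hj]; exact Fin.succ_pos j
    have h3 := h 0 k this
    linarith

/-! ### feasible sets -/

/-- index pairs of the triangulation -/
def prs (d : ℕ) : Finset (Fin (d + 3) × Fin (d + 3)) :=
  Finset.univ.filter fun ab => ab.1 < ab.2 ∧ ab.1.val % 2 = 1 ∧ ab.2.val % 2 = 0

/-- the cells -/
def cell (p : Fin (d + 3) → EE d) (ab : Fin (d + 3) × Fin (d + 3)) : Set (EE d) :=
  {x | ∃ w ∈ stdSimplex ℝ (Fin (d + 3)), w ab.1 = 0 ∧ w ab.2 = 0 ∧ ∑ i, w i • p i = x}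

lemma sum_wdg_p {p : Fin (d + 3) → EE d} {g : Fin (d + 3) → ℂ} (h : Gale p g) (z : ℂ) :
    ∑ i, wdg (g i) z • p i = 0 := by
  ext j
  have h1 := h.sum_g j.succ
  have h2 : wdg (∑ i, (aug p i j.succ : ℂ) * g i) z = 0 := by rw [h1, wdg_zero_left]
  rw [wdg_sum_left] at h2
  simp only [aug_succ, wdg_real_mul_left] at h2
  rw [PiLp.zero_apply, ← h2]
  simp only [WithLp.ofLp_sum, WithLp.ofLp_smul, Finset.sum_apply, Pi.smul_apply, smul_eq_mul]
  exact Finset.sum_congr rfl fun i _ => mul_comm _ _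

lemma sum_wdg {p : Fin (d + 3) → EE d} {g : Fin (d + 3) → ℂ} (h : Gale p g) (z : ℂ) :
    ∑ i, wdg (g i) z = 0 := by
  rw [← wdg_sum_left, h.sum, wdg_zero_left]

/-- pairing with `r` -/
lemma pairing {p : Fin (d + 3) → EE d} {g : Fin (d + 3) → ℂ} (h : Gale p g) (r z : ℂ) :
    ∑ i, wdg (g i) z * (r.re * (g i).re + r.im * (g i).im) = wdg r z := by
  have : ∀ i, wdg (g i) z * (r.re * (g i).re + r.im * (g i).im)
      = (z.im * r.re) * ((g i).re * (g i).re) - (z.re * r.im) * ((g i).im * (g i).im)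
        + (z.im * r.im - z.re * r.re) * ((g i).re * (g i).im) := by
    intro i; unfold wdg; ring
  simp_rw [this]
  rw [Finset.sum_add_distrib, Finset.sum_sub_distrib, ← Finset.mul_sum, ← Finset.mul_sum,
    ← Finset.mul_sum, h.re_re, h.im_im, h.re_im]
  unfold wdg
  ring

lemma exists_dir (hd : Even d) {g : Fin (d + 3) → ℂ} (hpos : Pos g) (Z : Finset (Fin (d + 3)))
    (hZ : ∀ a ∈ Z, ∀ b ∈ Z, a.val % 2 = 1 → b.val % 2 = 0 → ¬ a < b) :
    ∃ k : Fin (d + 3), ∀ i ∈ Z, 0 ≤ wdg (g i) (ee g k) := by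
  classical
  set Ev := Z.filter fun i => i.val % 2 = 0 with hEv
  by_cases hne : Ev.Nonempty
  · refine ⟨Ev.max' hne, fun i hi => ?_⟩
    have hk : Ev.max' hne ∈ Z ∧ (Ev.max' hne).val % 2 = 0 := by
      have := Ev.max'_mem hne
      exact Finset.mem_filter.1 this
    rcases Nat.mod_two_eq_zero_or_one i.val with h0 | h1
    · rw [g_even (g := g) h0]
      exact hpos.nonneg (Ev.le_max' i (by rw [hEv, Finset.mem_filter]; exact ⟨hi, h0⟩))
    · rw [g_odd (g := g) h1, wdg_neg_left, wdg_comm, neg_neg]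
      apply hpos.nonneg
      exact not_lt.1 (hZ i hi _ hk.1 h1 hk.2)
  · refine ⟨0, fun i hi => ?_⟩
    rcases Nat.mod_two_eq_zero_or_one i.val with h0 | h1
    · exact absurd ⟨i, by rw [hEv, Finset.mem_filter]; exact ⟨hi, h0⟩⟩ hne
    · rw [g_odd (g := g) h1, wdg_neg_left, wdg_comm, neg_neg]
      exact hpos.nonneg (Fin.zero_le i)

/-- covering -/
theorem cover (hd : Even d) {p : Fin (d + 3) → EE d} {g : Fin (d + 3) → ℂ} (h : Gale p g)
    (hpos : Pos g) : convexHull ℝ (Set.range p) ⊆ ⋃ ab ∈ prs d, cell p ab := by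
  classical
  intro x hx
  rw [mem_hull_iff] at hx
  obtain ⟨w0, hw0, hx0⟩ := hx
  set Λ : Set (Fin (d + 3) → ℝ) := stdSimplex ℝ (Fin (d + 3)) ∩ {w | ∑ i, w i • p i = x} with hΛ
  have hcomp : IsCompact Λ := by
    refine (isCompact_stdSimplex ℝ (Fin (d + 3))).inter_right ?_
    exact isClosed_eq (by fun_prop) continuous_const
  have hneΛ : Λ.Nonempty := ⟨w0, hw0, hx0⟩
  set r := rr g with hr
  obtain ⟨w, hwΛ, hmin⟩ := hcomp.exists_isMinOn hneΛ
    (f := fun w : Fin (d + 3) → ℝ => ∑ i, w i * (r.re * (g i).re + r.im * (g i).im))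
    (by fun_prop : Continuous _).continuousOn
  by_contra hcon
  have hZ : ∀ a ∈ Finset.univ.filter (fun i => w i = 0), ∀ b ∈ Finset.univ.filter (fun i => w i = 0),
      a.val % 2 = 1 → b.val % 2 = 0 → ¬ a < b := by
    intro a ha b hb ha1 hb0 hab
    rw [Finset.mem_filter] at ha hb
    apply hcon
    simp only [Set.mem_iUnion]
    refine ⟨(a, b), ?_, w, hwΛ.1, ha.2, hb.2, hwΛ.2⟩
    simp [prs, hab, ha1, hb0]
  obtain ⟨k, hk⟩ := exists_dir hd hpos _ hZ
  set y : Fin (d + 3) → ℝ := fun i => wdg (g i) (ee g k) with hy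
  have hev : ∀ᶠ ε in 𝓝[>] (0 : ℝ), ∀ i, 0 ≤ w i + ε * y i := by
    rw [Filter.eventually_all]
    intro i
    by_cases hi : w i = 0
    · filter_upwards [self_mem_nhdsWithin] with ε hε
      rw [hi, zero_add]
      exact mul_nonneg (le_of_lt hε) (hk i (by rw [Finset.mem_filter]; exact ⟨Finset.mem_univ _, hi⟩))
    · have hwi : 0 < w i := lt_of_le_of_ne (hwΛ.1.1 i) (Ne.symm hi)
      have hc : Tendsto (fun ε : ℝ => w i + ε * y i) (𝓝[>] 0) (𝓝 (w i + 0 * y i)) := by
        refine Tendsto.mono_left ?_ nhdsWithin_le_nhds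
        exact (by fun_prop : Continuous fun ε : ℝ => w i + ε * y i).tendsto 0
      rw [zero_mul, add_zero] at hc
      filter_upwards [hc.eventually (lt_mem_nhds hwi)] with ε hε
      exact hε.le
  obtain ⟨ε, hε, hε0⟩ := (hev.and self_mem_nhdsWithin).exists
  have hε0' : 0 < ε := hε0
  have hw' : (fun i => w i + ε * y i) ∈ Λ := by
    refine ⟨⟨hε, ?_⟩, ?_⟩
    · rw [Finset.sum_add_distrib, ← Finset.mul_sum, hwΛ.1.2, hy, sum_wdg h, mul_zero, add_zero]
    · show ∑ i, (w i + ε * y i) • p i = x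
      simp_rw [add_smul, mul_smul]
      rw [Finset.sum_add_distrib, ← Finset.smul_sum, sum_wdg_p h, smul_zero, add_zero]
      exact hwΛ.2
  have hle := hmin hw'
  simp only [Set.mem_setOf_eq] at hle
  have hval : ∑ i, (w i + ε * y i) * (r.re * (g i).re + r.im * (g i).im)
      = ∑ i, w i * (r.re * (g i).re + r.im * (g i).im) + ε * wdg r (ee g k) := by
    rw [← pairing h r (ee g k), Finset.mul_sum, ← Finset.sum_add_distrib]
    refine Finset.sum_congr rfl fun i _ => ?_
    ring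
  rw [hval] at hle
  have hneg := wdg_rr_neg hd hpos k
  have : ε * wdg r (ee g k) < 0 := mul_neg_of_pos_of_neg hε0' hneg
  linarith

/-! ### kernel and range of the augmented matrix -/

lemma ker_eq {p : Fin (d + 3) → EE d} {g : Fin (d + 3) → ℂ} (h : Gale p g)
    (hD : (gram p).det ≠ 0) (μ : Fin (d + 3) → ℝ) (hμ : ∀ j, ∑ i, aug p i j * μ i = 0) :
    ∃ z : ℂ, ∀ i, μ i = wdg (g i) z := by
  obtain ⟨ε, -, -⟩ := exists_enum (d := d) 0 1 (by simp [Fin.ext_iff])
  set α := ∑ i, (g i).re * μ i with hα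
  set β := ∑ i, (g i).im * μ i with hβ
  have hs : ∀ F : Fin (d + 3) → ℝ, ∑ r, F (ε r) = ∑ i, F i := fun F => Equiv.sum_comp ε F
  set v : Fin (d + 1) ⊕ Fin 2 → ℝ := fun r => μ (ε r) - α * (g (ε r)).re - β * (g (ε r)).im with hv
  have hB : ((BM p g ε)ᵀ).det ≠ 0 := by
    rw [Matrix.det_transpose]
    intro h0
    have := BM_det_sq h ε
    rw [h0] at this
    apply hD
    rw [← this]; ring
  have hzero : Matrix.mulVec (BM p g ε)ᵀ v = 0 := by
    funext c
    simp only [Matrix.mulVec, dotProduct, Matrix.transpose_apply, Pi.zero_apply]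
    rcases c with j | t
    · simp only [BM, Matrix.of_apply, Sum.elim_inl, hv]
      rw [hs (fun i => aug p i j * (μ i - α * (g i).re - β * (g i).im))]
      have : ∀ i, aug p i j * (μ i - α * (g i).re - β * (g i).im)
          = aug p i j * μ i - α * (aug p i j * (g i).re) - β * (aug p i j * (g i).im) := by
        intro i; ring
      simp_rw [this]
      rw [Finset.sum_sub_distrib, Finset.sum_sub_distrib, ← Finset.mul_sum, ← Finset.mul_sum,
        hμ j, h.re j, h.im j]
      ring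
    · simp only [BM, Matrix.of_apply, Sum.elim_inr, hv]
      fin_cases t
      · simp only [Fin.zero_eta, if_true]
        rw [hs (fun i => (g i).re * (μ i - α * (g i).re - β * (g i).im))]
        have : ∀ i, (g i).re * (μ i - α * (g i).re - β * (g i).im)
            = (g i).re * μ i - α * ((g i).re * (g i).re) - β * ((g i).re * (g i).im) := by
          intro i; ring
        simp_rw [this]
        rw [Finset.sum_sub_distrib, Finset.sum_sub_distrib, ← Finset.mul_sum, ← Finset.mul_sum,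
          h.re_re, h.re_im, ← hα]
        ring
      · simp only [Fin.mk_one, Fin.isValue, one_ne_zero, if_false]
        rw [hs (fun i => (g i).im * (μ i - α * (g i).re - β * (g i).im))]
        have : ∀ i, (g i).im * (μ i - α * (g i).re - β * (g i).im)
            = (g i).im * μ i - α * ((g i).re * (g i).im) - β * ((g i).im * (g i).im) := by
          intro i; ring
        simp_rw [this]
        rw [Finset.sum_sub_distrib, Finset.sum_sub_distrib, ← Finset.mul_sum, ← Finset.mul_sum,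
          h.re_im, h.im_im, ← hβ]
        ring
  have hv0 := Matrix.eq_zero_of_mulVec_eq_zero hB hzero
  refine ⟨⟨-β, α⟩, fun i => ?_⟩
  have h1 := congrFun hv0 (ε.symm i)
  simp only [hv, Equiv.apply_symm_apply, Pi.zero_apply] at h1
  unfold wdg
  simp only
  linarith

lemma range_eq {p : Fin (d + 3) → EE d} {g : Fin (d + 3) → ℂ} (h : Gale p g)
    (hD : (gram p).det ≠ 0) (y : Fin (d + 3) → ℝ) (hy : ∑ i, (y i : ℂ) * g i = 0) :
    ∃ w : Fin (d + 1) → ℝ, ∀ i, y i = ∑ j, aug p i j * w j := by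
  obtain ⟨ε, -, -⟩ := exists_enum (d := d) 0 1 (by simp [Fin.ext_iff])
  have hs : ∀ F : Fin (d + 3) → ℝ, ∑ r, F (ε r) = ∑ i, F i := fun F => Equiv.sum_comp ε F
  have hB : IsUnit (BM p g ε).det := by
    rw [isUnit_iff_ne_zero]
    intro h0
    have := BM_det_sq h ε
    rw [h0] at this
    apply hD
    rw [← this]; ring
  set y' : Fin (d + 1) ⊕ Fin 2 → ℝ := fun r => y (ε r) with hy'
  set u := Matrix.mulVec (BM p g ε)⁻¹ y' with hu
  have h1 : Matrix.mulVec (BM p g ε) u = y' := by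
    rw [hu, Matrix.mulVec_mulVec, Matrix.mul_nonsing_inv _ hB, Matrix.one_mulVec]
  have h2 : Matrix.mulVec (Matrix.fromBlocks (gram p) 0 0 (1 : Matrix (Fin 2) (Fin 2) ℝ)) u
      = Matrix.mulVec (BM p g ε)ᵀ y' := by
    rw [← BM_gram h ε, ← Matrix.mulVec_mulVec, h1]
  have hyre : ∑ i, (g i).re * y i = 0 := by
    have := congrArg Complex.re hy
    rw [Complex.re_sum] at this
    simp only [Complex.re_ofReal_mul, Complex.zero_re] at this
    rw [← this]
    exact Finset.sum_congr rfl fun i _ => mul_comm _ _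
  have hyim : ∑ i, (g i).im * y i = 0 := by
    have := congrArg Complex.im hy
    rw [Complex.im_sum] at this
    simp only [Complex.im_ofReal_mul, Complex.zero_im] at this
    rw [← this]
    exact Finset.sum_congr rfl fun i _ => mul_comm _ _
  have h3 : ∀ t : Fin 2, u (Sum.inr t) = 0 := by
    intro t
    have h4 := congrFun h2 (Sum.inr t)
    simp only [Matrix.mulVec, dotProduct, Fintype.sum_sum_type, Matrix.fromBlocks_apply₂₁,
      Matrix.fromBlocks_apply₂₂, Matrix.zero_apply, zero_mul, Finset.sum_const_zero, zero_add,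
      Matrix.one_apply, ite_mul, one_mul, Finset.sum_ite_eq, Finset.mem_univ, if_true] at h4
    rw [h4, ← Fintype.sum_sum_type (fun r => (BM p g ε)ᵀ (Sum.inr t) r * y' r)]
    simp only [Matrix.transpose_apply, BM, Matrix.of_apply, Sum.elim_inr, hy']
    fin_cases t
    · simp only [Fin.zero_eta, if_true]
      rw [hs (fun i => (g i).re * y i)]
      exact hyre
    · simp only [Fin.mk_one, Fin.isValue, one_ne_zero, if_false]
      rw [hs (fun i => (g i).im * y i)]
      exact hyim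
  refine ⟨fun j => u (Sum.inl j), fun i => ?_⟩
  have h5 := congrFun h1 (ε.symm i)
  simp only [Matrix.mulVec, dotProduct, Fintype.sum_sum_type, h3, mul_zero, Finset.sum_const_zero,
    add_zero, hy', Equiv.apply_symm_apply] at h5
  rw [← h5]
  simp only [BM, Matrix.of_apply, Sum.elim_inl, Equiv.apply_symm_apply]

end Pool.Agent.K3h40.Cyc
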