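import Pool.Agent.K3h40.Cyc.Gale

/-! Determinant of the Gram matrix of points on the unit sphere. -/

namespace Pool.Agent.K3h40.Cyc

open Matrix Finset

/-- a positive semidefinite matrix with trace `n` has determinant at most one -/
lemma psd_det_le {n : Type*} [Fintype n] [DecidableEq n] {K : Matrix n n ℝ} (hK : K.PosSemidef)
    (htr : K.trace = Fintype.card n) : K.det ≤ 1 ∧ (K.det = 1 → K = 1) := by
  set x := hK.1.eigenvalues with hx
  have hx0 : ∀ i, 0 ≤ x i := hK.eigenvalues_nonneg
  have hdet : K.det = ∏ i, x i := by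
    have := hK.1.det_eq_prod_eigenvalues
    simpa using this
  have hsum : ∑ i, x i = Fintype.card n := by
    have := hK.1.trace_eq_sum_eigenvalues
    rw [htr] at this
    simpa using this.symm
  have hsum' : ∑ i, (x i - 1) = 0 := by
    rw [Finset.sum_sub_distrib, hsum]; simp
  constructor
  · rw [hdet]
    calc ∏ i, x i ≤ ∏ i, Real.exp (x i - 1) := by
          refine Finset.prod_le_prod (fun i _ => hx0 i) fun i _ => ?_
          have := Real.add_one_le_exp (x i - 1)
          linarith
      _ = 1 := by rw [← Real.exp_sum, hsum', Real.exp_zero]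
  · intro h1
    have hprod : ∏ i, x i = 1 := by rw [← hdet, h1]
    have hpos : ∀ i, 0 < x i := by
      intro i
      refine lt_of_le_of_ne (hx0 i) ?_
      intro h0
      have : ∏ i, x i = 0 := Finset.prod_eq_zero (Finset.mem_univ i) h0.symm
      rw [hprod] at this
      exact one_ne_zero this
    have hlog : ∑ i, Real.log (x i) = 0 := by
      rw [← Real.log_prod (fun i _ => (hpos i).ne'), hprod, Real.log_one]
    have hz : ∑ i, (x i - 1 - Real.log (x i)) = 0 := by
      rw [Finset.sum_sub_distrib, hsum', hlog, sub_zero]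
    have hall := (Finset.sum_eq_zero_iff_of_nonneg (fun i _ => by
      have := Real.log_le_sub_one_of_pos (hpos i); linarith)).1 hz
    have hone : ∀ i, x i = 1 := by
      intro i
      by_contra hne
      have h2 := Real.log_lt_sub_one_of_pos (hpos i) hne
      have h3 := hall i (Finset.mem_univ i)
      linarith
    have hsp := hK.1.spectral_theorem
    have hd : (diagonal (RCLike.ofReal ∘ hK.1.eigenvalues) : Matrix n n ℝ) = 1 := by
      rw [← Matrix.diagonal_one]
      congr 1
      funext i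
      simpa using hone i
    rw [hd, map_one] at hsp
    exact hsp

variable {d : ℕ}

/-- the target diagonal -/
noncomputable def tgt (d : ℕ) : Fin (d + 1) → ℝ :=
  Fin.cons ((d : ℝ) + 3) (fun _ => ((d : ℝ) + 3) / d)

lemma tgt_pos (hd : 0 < d) (j : Fin (d + 1)) : 0 < tgt d j := by
  have : (0 : ℝ) < d := by exact_mod_cast hd
  refine Fin.cases ?_ (fun j => ?_) j
  · simp only [tgt, Fin.cons_zero]; positivity
  · simp only [tgt, Fin.cons_succ]; positivity

/-- its determinant -/
noncomputable def dstar (d : ℕ) : ℝ := ∏ j, tgt d j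

lemma dstar_pos (hd : 0 < d) : 0 < dstar d := Finset.prod_pos fun j _ => tgt_pos hd j

/-- rescaled augmented matrix -/
noncomputable def augs (p : Fin (d + 3) → EE d) : Matrix (Fin (d + 3)) (Fin (d + 1)) ℝ :=
  aug p * diagonal fun j => (Real.sqrt (tgt d j))⁻¹

lemma augs_gram (p : Fin (d + 3) → EE d) :
    (augs p)ᵀ * augs p = diagonal (fun j => (Real.sqrt (tgt d j))⁻¹) * gram p *
      diagonal (fun j => (Real.sqrt (tgt d j))⁻¹) := by
  unfold augs gram
  rw [Matrix.transpose_mul, Matrix.diagonal_transpose]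
  simp only [Matrix.mul_assoc]

lemma gram_zero_zero (p : Fin (d + 3) → EE d) : gram p 0 0 = (d : ℝ) + 3 := by
  unfold gram
  rw [Matrix.mul_apply]
  simp

lemma gram_trace (p : Fin (d + 3) → EE d) (hp : ∀ i, ‖p i‖ = 1) :
    ∑ j : Fin d, gram p j.succ j.succ = (d : ℝ) + 3 := by
  unfold gram
  simp_rw [Matrix.mul_apply]
  rw [Finset.sum_comm]
  have : ∀ i : Fin (d + 3), ∑ j : Fin d, (aug p)ᵀ j.succ i * aug p i j.succ = 1 := by
    intro i
    have h1 := EuclideanSpace.norm_sq_eq (p i)
    rw [hp i] at h1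
    simp only [Matrix.transpose_apply, aug_succ]
    have h2 : ∑ j : Fin d, p i j * p i j = ∑ j : Fin d, ‖p i j‖ ^ 2 := by
      refine Finset.sum_congr rfl fun j _ => ?_
      rw [Real.norm_eq_abs, sq_abs]; ring
    rw [h2, ← h1]; norm_num
  rw [Finset.sum_congr rfl fun i _ => this i]
  simp

lemma augs_psd (p : Fin (d + 3) → EE d) : ((augs p)ᵀ * augs p).PosSemidef := by
  have := Matrix.posSemidef_conjTranspose_mul_self (augs p)
  rwa [Matrix.conjTranspose_eq_transpose_of_trivial] at this

lemma augs_trace (hd : 0 < d) (p : Fin (d + 3) → EE d) (hp : ∀ i, ‖p i‖ = 1) :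
    ((augs p)ᵀ * augs p).trace = (d : ℝ) + 1 := by
  have hd' : (0 : ℝ) < d := by exact_mod_cast hd
  rw [augs_gram]
  simp only [Matrix.trace, Matrix.diag, Matrix.mul_diagonal, Matrix.diagonal_mul]
  have h1 : ∀ j, (Real.sqrt (tgt d j))⁻¹ * gram p j j * (Real.sqrt (tgt d j))⁻¹
      = gram p j j / tgt d j := by
    intro j
    have h0 := (tgt_pos hd j)
    have h2 : (Real.sqrt (tgt d j))⁻¹ * (Real.sqrt (tgt d j))⁻¹ = (tgt d j)⁻¹ := by
      rw [← mul_inv, Real.mul_self_sqrt h0.le]
    calc _ = gram p j j * ((Real.sqrt (tgt d j))⁻¹ * (Real.sqrt (tgt d j))⁻¹) := by ring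
      _ = _ := by rw [h2]; rfl
  simp_rw [h1]
  rw [Fin.sum_univ_succ]
  simp only [tgt, Fin.cons_zero, Fin.cons_succ]
  rw [← Finset.sum_div, gram_trace p hp, gram_zero_zero]
  field_simp
  ring

lemma augs_det (hd : 0 < d) (p : Fin (d + 3) → EE d) :
    ((augs p)ᵀ * augs p).det = (gram p).det / dstar d := by
  rw [augs_gram, Matrix.det_mul, Matrix.det_mul, Matrix.det_diagonal, Finset.prod_inv_distrib]
  have h : (∏ j, Real.sqrt (tgt d j)) * (∏ j, Real.sqrt (tgt d j)) = dstar d := by
    rw [← Finset.prod_mul_distrib, dstar]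
    exact Finset.prod_congr rfl fun j _ => Real.mul_self_sqrt (tgt_pos hd j).le
  have hne : (∏ j, Real.sqrt (tgt d j)) ≠ 0 :=
    Finset.prod_ne_zero_iff.2 fun j _ => (Real.sqrt_pos.2 (tgt_pos hd j)).ne'
  rw [← h]
  field_simp

/-- the determinant bound with the equality case -/
theorem gram_det_le (hd : 0 < d) (p : Fin (d + 3) → EE d) (hp : ∀ i, ‖p i‖ = 1) :
    (gram p).det ≤ dstar d ∧ ((gram p).det = dstar d → gram p = diagonal (tgt d)) := by
  have htr := augs_trace hd p hp
  have hcard : ((Fintype.card (Fin (d + 1)) : ℕ) : ℝ) = (d : ℝ) + 1 := by simp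
  obtain ⟨h1, h2⟩ := psd_det_le (augs_psd p) (by rw [htr, hcard])
  rw [augs_det hd p] at h1 h2
  have hpos := dstar_pos hd
  refine ⟨(div_le_one hpos).1 h1, fun h => ?_⟩
  have h3 := h2 (by rw [h, div_self hpos.ne'])
  rw [augs_gram] at h3
  ext i j
  have h4 := congrFun (congrFun h3 i) j
  rw [Matrix.mul_diagonal, Matrix.diagonal_mul] at h4
  have hsi := (Real.sqrt_pos.2 (tgt_pos hd i)).ne'
  have hsj := (Real.sqrt_pos.2 (tgt_pos hd j)).ne'
  by_cases hij : i = j
  · subst hij
    rw [Matrix.one_apply_eq] at h4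
    rw [Matrix.diagonal_apply_eq]
    have h5 := Real.mul_self_sqrt (tgt_pos hd i).le
    field_simp at h4
    rw [h4, pow_two, h5]
  · rw [Matrix.one_apply_ne hij] at h4
    rw [Matrix.diagonal_apply_ne _ hij]
    rcases mul_eq_zero.1 h4 with h | h
    · rcases mul_eq_zero.1 h with h' | h'
      · exact absurd h' (inv_ne_zero hsi)
      · exact h'
    · exact absurd h (inv_ne_zero hsj)

end Pool.Agent.K3h40.Cyc
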