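import Pool.Agent.K3h40.Cyc.Reg

/-! Final assembly. -/

namespace Pool.Agent.K3h40.Cyc

open Finset Matrix MeasureTheory

variable {d : ℕ}

/-! ### relabelling -/

lemma isFace_comp {n : ℕ} (p : Fin n → EE d) (σ : Equiv.Perm (Fin n)) (S : Set (Fin n)) :
    IsFace (fun i => p (σ i)) S ↔ IsFace p (σ '' S) := by
  unfold IsFace
  constructor
  · rintro ⟨f, c, h1, h2⟩
    refine ⟨f, c, ?_, ?_⟩
    · rintro _ ⟨i, hi, rfl⟩
      exact h1 i hi
    · intro i hi
      have h3 := h2 (σ.symm i) (fun h => hi ⟨σ.symm i, h, by simp⟩)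
      simpa using h3
  · rintro ⟨f, c, h1, h2⟩
    refine ⟨f, c, fun i hi => h1 _ ⟨i, hi, rfl⟩, fun i hi => h2 _ ?_⟩
    rintro ⟨j, hj, hji⟩
    rw [σ.injective hji] at hj
    exact hi hj

lemma exists_sorted (hd : Even d) {p : Fin (d + 3) → EE d} (hp : IsCyc p) :
    ∃ σ : Equiv.Perm (Fin (d + 3)), AltFaces (fun i => p (σ i)) := by
  obtain ⟨t, ht, hf⟩ := hp
  set σ : Equiv.Perm (Fin (d + 3)) := Tuple.sort t with hσ
  have hmono : StrictMono (t ∘ σ) :=
    (Tuple.monotone_sort t).strictMono_of_injective (ht.comp σ.injective)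
  refine ⟨σ, fun a b c hab hbc h1 h2 => ?_⟩
  rw [isFace_comp, hf, ← isFace_comp (fun i => mom d (t i)) σ]
  exact mom_face hd (fun i => t (σ i)) hmono hab hbc h1 h2

/-! ### uniqueness -/

lemma inner_eq_sum (x y : EE d) : inner ℝ x y = ∑ j, x j * y j := by
  rw [PiLp.inner_apply]
  refine Finset.sum_congr rfl fun i _ => ?_
  simp [mul_comm]

/-- the frame identity -/
lemma frame (hd0 : 0 < d) {p : Fin (d + 3) → EE d} (hG : gram p = diagonal (tgt d)) (x : EE d) :
    ∑ i, inner ℝ (p i) x • p i = (((d : ℝ) + 3) / d) • x := by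
  have hd' : (0 : ℝ) < d := by exact_mod_cast hd0
  ext k
  simp only [WithLp.ofLp_sum, WithLp.ofLp_smul, Finset.sum_apply, Pi.smul_apply, smul_eq_mul]
  simp_rw [inner_eq_sum, Finset.sum_mul]
  rw [Finset.sum_comm]
  have h1 : ∀ j : Fin d, ∑ i, p i j * x j * p i k = x j * gram p j.succ k.succ := by
    intro j
    unfold gram
    rw [Matrix.mul_apply, Finset.mul_sum]
    refine Finset.sum_congr rfl fun i _ => ?_
    rw [Matrix.transpose_apply, aug_succ, aug_succ]
    ring
  simp_rw [h1, hG]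
  rw [Finset.sum_eq_single k]
  · rw [Matrix.diagonal_apply_eq]
    simp only [tgt, Fin.cons_succ]
    ring
  · intro j _ hjk
    rw [Matrix.diagonal_apply_ne _ (fun h => hjk (Fin.succ_injective _ h)), mul_zero]
  · intro h; exact absurd (Finset.mem_univ _) h

/-- inner products from the Gale dual -/
lemma inner_formula (hd0 : 0 < d) {p : Fin (d + 3) → EE d} {g : Fin (d + 3) → ℂ} (h : Gale p g)
    (hG : gram p = diagonal (tgt d)) (i k : Fin (d + 3)) :
    (d : ℝ) / ((d : ℝ) + 3) * inner ℝ (p i) (p k) =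
      (if i = k then 1 else 0) - 1 / ((d : ℝ) + 3) - ((g i).re * (g k).re + (g i).im * (g k).im) := by
  have hd' : (0 : ℝ) < d := by exact_mod_cast hd0
  obtain ⟨ε, -, -⟩ := exists_enum (d := d) 0 1 (by simp [Fin.ext_iff])
  -- scaled square matrix
  set Δ : Matrix (Fin (d + 1) ⊕ Fin 2) (Fin (d + 1) ⊕ Fin 2) ℝ :=
    diagonal (Sum.elim (fun j => (tgt d j)⁻¹) (fun _ => 1)) with hΔ
  have h1 : (Δ * (BM p g ε)ᵀ) * BM p g ε = 1 := by
    rw [Matrix.mul_assoc, BM_gram h ε, hG, hΔ]
    ext r c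
    rw [Matrix.diagonal_mul]
    rcases r with j | s <;> rcases c with j' | s'
    · rw [Matrix.fromBlocks_apply₁₁]
      simp only [Sum.elim_inl]
      by_cases hjj : j = j'
      · subst hjj
        rw [Matrix.diagonal_apply_eq, Matrix.one_apply_eq, inv_mul_cancel₀ (tgt_pos hd0 j).ne']
      · rw [Matrix.diagonal_apply_ne _ hjj, mul_zero, Matrix.one_apply_ne (by simpa using hjj)]
    · rw [Matrix.fromBlocks_apply₁₂, Matrix.zero_apply, mul_zero, Matrix.one_apply_ne (by simp)]
    · rw [Matrix.fromBlocks_apply₂₁, Matrix.zero_apply, mul_zero, Matrix.one_apply_ne (by simp)]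
    · rw [Matrix.fromBlocks_apply₂₂]
      simp only [Sum.elim_inr, one_mul]
      by_cases hss : s = s'
      · subst hss; rw [Matrix.one_apply_eq, Matrix.one_apply_eq]
      · rw [Matrix.one_apply_ne hss, Matrix.one_apply_ne (by simpa using hss)]
  have h2 : BM p g ε * (Δ * (BM p g ε)ᵀ) = 1 := mul_eq_one_comm.1 h1
  have h3 := congrFun (congrFun h2 (ε.symm i)) (ε.symm k)
  rw [Matrix.mul_apply] at h3
  simp_rw [hΔ, Matrix.diagonal_mul] at h3
  rw [Fintype.sum_sum_type, Fin.sum_univ_two, Fin.sum_univ_succ] at h3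
  simp only [Sum.elim_inl, Sum.elim_inr, BM, Matrix.transpose_apply, Matrix.of_apply,
    Equiv.apply_symm_apply, if_true, one_ne_zero, if_false, aug_zero, aug_succ, one_mul, tgt,
    Fin.cons_zero, Fin.cons_succ, mul_one] at h3
  have h4 : (1 : Matrix (Fin (d + 1) ⊕ Fin 2) (Fin (d + 1) ⊕ Fin 2) ℝ) (ε.symm i) (ε.symm k)
      = if i = k then 1 else 0 := by
    rw [Matrix.one_apply]
    simp
  rw [h4] at h3
  have h5 : ∑ j : Fin d, p i j * (((((d : ℝ) + 3) / d))⁻¹ * p k j)
      = (d : ℝ) / ((d : ℝ) + 3) * inner ℝ (p i) (p k) := by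
    rw [inner_eq_sum, Finset.mul_sum, inv_div]
    refine Finset.sum_congr rfl fun j _ => ?_
    ring
  rw [h5] at h3
  rw [← h3]
  ring

/-- Gram-equal tight frames are congruent -/
lemma exists_isometry (hd0 : 0 < d) {p q : Fin (d + 3) → EE d} (hp : gram p = diagonal (tgt d))
    (hq : gram q = diagonal (tgt d)) (hpq : ∀ i k, inner ℝ (p i) (p k) = (inner ℝ (q i) (q k) : ℝ)) :
    ∃ φ : EE d ≃ₗᵢ[ℝ] EE d, ∀ i, φ (p i) = q i := by
  have hd' : (0 : ℝ) < d := by exact_mod_cast hd0
  set κ : ℝ := (d : ℝ) / ((d : ℝ) + 3) with hκ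
  have hκ1 : κ * (((d : ℝ) + 3) / d) = 1 := by rw [hκ]; field_simp
  let L : EE d →ₗ[ℝ] EE d :=
    { toFun := fun x => κ • ∑ i, inner ℝ (p i) x • q i
      map_add' := by
        intro x y
        rw [← smul_add, ← Finset.sum_add_distrib]
        congr 1
        refine Finset.sum_congr rfl fun i _ => ?_
        rw [inner_add_right, add_smul]
      map_smul' := by
        intro c x
        show κ • ∑ i, (inner ℝ (p i) (c • x) : ℝ) • q i = c • (κ • ∑ i, (inner ℝ (p i) x : ℝ) • q i)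
        have e : ∑ i, (inner ℝ (p i) (c • x) : ℝ) • q i = c • ∑ i, (inner ℝ (p i) x : ℝ) • q i := by
          rw [Finset.smul_sum]
          refine Finset.sum_congr rfl fun i _ => ?_
          rw [inner_smul_right, mul_smul]
        rw [e, smul_comm] }
  have hL : ∀ x, L x = κ • ∑ i, inner ℝ (p i) x • q i := fun _ => rfl
  have hLp : ∀ k, L (p k) = q k := by
    intro k
    rw [hL]
    have : ∑ i, (inner ℝ (p i) (p k) : ℝ) • q i = (((d : ℝ) + 3) / d) • q k := by
      rw [← frame hd0 hq (q k)]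
      exact Finset.sum_congr rfl fun i _ => by rw [hpq]
    rw [this, smul_smul, hκ1, one_smul]
  have hinn : ∀ x y : EE d, inner ℝ (L x) (L y) = (inner ℝ x y : ℝ) := by
    intro x y
    have hx : x = κ • ∑ i, inner ℝ (p i) x • p i := by
      rw [frame hd0 hp x, smul_smul, hκ1, one_smul]
    have hy : y = κ • ∑ i, inner ℝ (p i) y • p i := by
      rw [frame hd0 hp y, smul_smul, hκ1, one_smul]
    rw [hL, hL]
    conv_rhs => rw [hx, hy]
    rw [inner_smul_left, inner_smul_right, inner_smul_left, inner_smul_right, sum_inner, sum_inner]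
    congr 2
    refine Finset.sum_congr rfl fun i _ => ?_
    rw [inner_sum, inner_sum]
    refine Finset.sum_congr rfl fun k _ => ?_
    rw [inner_smul_left, inner_smul_left, inner_smul_right, inner_smul_right, hpq]
  let Li : EE d →ₗᵢ[ℝ] EE d := L.isometryOfInner hinn
  refine ⟨Li.toLinearIsometryEquiv rfl, fun i => ?_⟩
  rw [LinearIsometry.toLinearIsometryEquiv_apply]
  exact hLp i

/-! ### the theorem -/

/-- upper bound and equality case -/
theorem main_bound (hd : Even d) (hd0 : 0 < d) (p : Fin (d + 3) → EE d) (hn : ∀ i, ‖p i‖ = 1)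
    (hsp : affineSpan ℝ (Set.range p) = ⊤) (hc : IsCyc p) :
    volume.real (convexHull ℝ (Set.range p)) ≤ volume.real (convexHull ℝ (Set.range (cyc d))) ∧
      (volume.real (convexHull ℝ (Set.range p)) = volume.real (convexHull ℝ (Set.range (cyc d))) →
        ∃ φ : EE d ≃ₗᵢ[ℝ] EE d, φ '' Set.range p = Set.range (cyc d)) := by
  obtain ⟨σ, hA⟩ := exists_sorted hd hc
  set q : Fin (d + 3) → EE d := fun i => p (σ i) with hq
  have hrange : Set.range q = Set.range p := by
    rw [hq]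
    exact σ.surjective.range_comp p
  have hqn : ∀ i, ‖q i‖ = 1 := fun i => hn (σ i)
  have hqsp : affineSpan ℝ (Set.range q) = ⊤ := by rw [hrange, hsp]
  obtain ⟨g, hg, hpos⟩ := exists_pos hd hA
  have hD := gram_ne_of_span hqsp
  have hvol := vol_eq hd hd0 hg hD hpos
  rw [hrange] at hvol
  have hs := sn_pos (d := d)
  have hcv : 0 < cv d := vol_ev_pos d
  have hg2 := sum_norm_gale hg
  obtain ⟨hS1, hS2⟩ := SS_le hd (fun i : ZMod (d + 3) => g i) hg.sum
  have hg2' : ∑ j : ZMod (d + 3), ‖g j‖ ^ 2 = 2 := hg2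
  rw [hg2'] at hS1 hS2
  have hSS : SS (d := d) g ≤ 1 / (2 * sn d) := by
    rw [le_div_iff₀ (by positivity)]
    have : SS (d := d) g = SS (fun i : ZMod (d + 3) => g i) := rfl
    rw [this]
    linarith
  obtain ⟨hd1, hd2⟩ := gram_det_le hd0 q hqn
  have hsqrt : Real.sqrt (gram q).det ≤ Real.sqrt (dstar d) := Real.sqrt_le_sqrt hd1
  have hsq0 : 0 < Real.sqrt (dstar d) := Real.sqrt_pos.2 (dstar_pos hd0)
  have hDpos : 0 < (gram q).det := by
    obtain ⟨ε, -, -⟩ := exists_enum (d := d) 0 1 (by simp [Fin.ext_iff])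
    exact lt_of_le_of_ne (gram_det_nonneg hg ε) (Ne.symm hD)
  have hsqD : 0 < Real.sqrt (gram q).det := Real.sqrt_pos.2 hDpos
  have h1s : (0 : ℝ) < 1 / (2 * sn d) := by positivity
  rw [hvol, vol_cyc hd hd0]
  have hstep1 : cv d * Real.sqrt (gram q).det * SS (d := d) g
      ≤ cv d * Real.sqrt (gram q).det * (1 / (2 * sn d)) :=
    mul_le_mul_of_nonneg_left hSS (by positivity)
  have hstep2 : cv d * Real.sqrt (gram q).det * (1 / (2 * sn d))
      ≤ cv d * Real.sqrt (dstar d) * (1 / (2 * sn d)) := by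
    apply mul_le_mul_of_nonneg_right _ h1s.le
    exact mul_le_mul_of_nonneg_left hsqrt hcv.le
  refine ⟨hstep1.trans hstep2, fun heq => ?_⟩
  have e1 : cv d * Real.sqrt (gram q).det * SS (d := d) g
      = cv d * Real.sqrt (gram q).det * (1 / (2 * sn d)) := le_antisymm hstep1 (by linarith)
  have e2 : cv d * Real.sqrt (gram q).det * (1 / (2 * sn d))
      = cv d * Real.sqrt (dstar d) * (1 / (2 * sn d)) := by linarith
  have f1 : SS (d := d) g = 1 / (2 * sn d) :=
    mul_left_cancel₀ (by positivity) e1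
  have f2 : Real.sqrt (gram q).det = Real.sqrt (dstar d) := by
    have := mul_right_cancel₀ h1s.ne' e2
    exact mul_left_cancel₀ hcv.ne' this
  have f3 : (gram q).det = dstar d := by
    have h1 := Real.mul_self_sqrt hDpos.le
    have h2 := Real.mul_self_sqrt (dstar_pos hd0).le
    rw [f2] at h1
    rw [← h1, h2]
  have hG := hd2 f3
  have f4 : 4 * sn d * SS (fun i : ZMod (d + 3) => g i) = 2 := by
    have : SS (fun i : ZMod (d + 3) => g i) = SS (d := d) g := rfl
    rw [this, f1]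
    field_simp
    norm_num
  obtain ⟨c, hcg⟩ := hS2 f4
  -- the modulus of c
  have hgi : ∀ i : Fin (d + 3), g i = c * ph (hh d) i := by
    intro i
    rw [← reg_eq_ph]
    exact hcg i
  have hphn : ∀ i : Fin (d + 3), ‖ph (hh d) i‖ = 1 := fun i => norm_ch _
  have hcn : ‖c‖ ^ 2 = 2 / ((d : ℝ) + 3) := by
    have h1 : ∑ i : Fin (d + 3), ‖g i‖ ^ 2 = ((d : ℝ) + 3) * ‖c‖ ^ 2 := by
      have : ∀ i : Fin (d + 3), ‖g i‖ ^ 2 = ‖c‖ ^ 2 := by
        intro i; rw [hgi, norm_mul, hphn, mul_one]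
      simp_rw [this]
      simp
    rw [hg2] at h1
    have h3 : (0 : ℝ) < (d : ℝ) + 3 := by positivity
    field_simp
    linarith
  have hscn : ‖sc d‖ ^ 2 = 2 / ((d : ℝ) + 3) := by
    unfold sc
    rw [Complex.norm_real, Real.norm_eq_abs, sq_abs, Real.sq_sqrt (by positivity)]
  have hdot : ∀ i k : Fin (d + 3), (g i).re * (g k).re + (g i).im * (g k).im
      = ((reg (sc d) : ZMod (d + 3) → ℂ) i).re * ((reg (sc d) : ZMod (d + 3) → ℂ) k).re
        + ((reg (sc d) : ZMod (d + 3) → ℂ) i).im * ((reg (sc d) : ZMod (d + 3) → ℂ) k).im := by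
    have hgen : ∀ (c : ℂ) (A B : ℂ), (c * A).re * (c * B).re + (c * A).im * (c * B).im
        = ‖c‖ ^ 2 * (A.re * B.re + A.im * B.im) := by
      intro c A B
      rw [Complex.sq_norm, Complex.normSq_apply]
      simp only [Complex.mul_re, Complex.mul_im]
      ring
    intro i k
    rw [hgi, hgi, reg_eq_ph, reg_eq_ph, hgen, hgen, hcn, hscn]
  have hGc := gram_cyc hd hd0
  have hinner : ∀ i k, inner ℝ (q i) (q k) = (inner ℝ (cyc d i) (cyc d k) : ℝ) := by
    intro i k
    have h1 := inner_formula hd0 hg hG i k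
    have h2 := inner_formula hd0 (gale_cyc hd hd0) hGc i k
    have h3 := hdot i k
    have hd' : (0 : ℝ) < d := by exact_mod_cast hd0
    have hκ : (0 : ℝ) < (d : ℝ) / ((d : ℝ) + 3) := by positivity
    have h4 : (d : ℝ) / ((d : ℝ) + 3) * inner ℝ (q i) (q k)
        = (d : ℝ) / ((d : ℝ) + 3) * inner ℝ (cyc d i) (cyc d k) := by
      rw [h1, h2, h3]
    exact mul_left_cancel₀ hκ.ne' h4
  obtain ⟨φ, hφ⟩ := exists_isometry hd0 hG hGc hinner
  refine ⟨φ, ?_⟩
  rw [← hrange, ← Set.range_comp]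
  congr 1
  funext i
  exact hφ i

/-- volume is invariant under isometries -/
lemma vol_isometry (φ : EE d ≃ᵢ EE d) (P : Set (EE d)) : volume (φ '' P) = volume P := by
  set A := φ.toRealAffineIsometryEquiv with hA
  have h1 : ∀ x, φ x = A.linearIsometryEquiv x + φ 0 := by
    intro x
    have h2 : A x = φ x := rfl
    have h3 : A 0 = φ 0 := rfl
    have h4 := A.map_vadd 0 x
    simp only [vadd_eq_add, add_zero] at h4
    rw [← h2, h4, h3]
  have h5 : φ '' P = (fun y => y + φ 0) '' (A.linearIsometryEquiv '' P) := by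
    rw [Set.image_image]
    exact Set.image_congr fun x _ => h1 x
  rw [h5, Set.image_add_right, measure_preimage_add_right]
  rw [LinearIsometryEquiv.image_eq_preimage_symm]
  exact A.linearIsometryEquiv.symm.measurePreserving.measure_preimage_emb
    A.linearIsometryEquiv.symm.toHomeomorph.measurableEmbedding P

end Pool.Agent.K3h40.Cyc
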