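import Pool.Agent.K3h40.Cyc.Simplex

/-! Gale duals of `d+3` points in dimension `d`. -/

namespace Pool.Agent.K3h40.Cyc

open Matrix Finset

/-- signed area -/
def wdg (u v : ℂ) : ℝ := u.re * v.im - u.im * v.re

lemma wdg_self (u : ℂ) : wdg u u = 0 := by unfold wdg; ring

lemma wdg_comm (u v : ℂ) : wdg u v = -wdg v u := by unfold wdg; ring

lemma wdg_add_left (u v w : ℂ) : wdg (u + v) w = wdg u w + wdg v w := by
  unfold wdg; simp only [Complex.add_re, Complex.add_im]; ring

lemma wdg_add_right (u v w : ℂ) : wdg u (v + w) = wdg u v + wdg u w := by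
  unfold wdg; simp only [Complex.add_re, Complex.add_im]; ring

lemma wdg_neg_left (u v : ℂ) : wdg (-u) v = -wdg u v := by
  unfold wdg; simp only [Complex.neg_re, Complex.neg_im]; ring

lemma wdg_neg_right (u v : ℂ) : wdg u (-v) = -wdg u v := by
  unfold wdg; simp only [Complex.neg_re, Complex.neg_im]; ring

lemma wdg_sub_left (u v w : ℂ) : wdg (u - v) w = wdg u w - wdg v w := by
  unfold wdg; simp only [Complex.sub_re, Complex.sub_im]; ring

lemma wdg_sub_right (u v w : ℂ) : wdg u (v - w) = wdg u v - wdg u w := by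
  unfold wdg; simp only [Complex.sub_re, Complex.sub_im]; ring

lemma wdg_zero_left (v : ℂ) : wdg 0 v = 0 := by unfold wdg; simp

lemma wdg_zero_right (v : ℂ) : wdg v 0 = 0 := by unfold wdg; simp

lemma wdg_real_mul_left (r : ℝ) (u v : ℂ) : wdg ((r : ℂ) * u) v = r * wdg u v := by
  unfold wdg
  simp only [Complex.mul_re, Complex.mul_im, Complex.ofReal_re, Complex.ofReal_im]; ring

lemma wdg_real_mul_right (r : ℝ) (u v : ℂ) : wdg u ((r : ℂ) * v) = r * wdg u v := by
  unfold wdg
  simp only [Complex.mul_re, Complex.mul_im, Complex.ofReal_re, Complex.ofReal_im]; ring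

lemma wdg_sum_left {α : Type*} (s : Finset α) (f : α → ℂ) (v : ℂ) :
    wdg (∑ i ∈ s, f i) v = ∑ i ∈ s, wdg (f i) v := by
  classical
  induction s using Finset.induction_on with
  | empty => simp [wdg_zero_left]
  | insert i s hi ih => rw [Finset.sum_insert hi, Finset.sum_insert hi, wdg_add_left, ih]

lemma wdg_sum_right {α : Type*} (s : Finset α) (f : α → ℂ) (v : ℂ) :
    wdg v (∑ i ∈ s, f i) = ∑ i ∈ s, wdg v (f i) := by
  classical
  induction s using Finset.induction_on with
  | empty => simp [wdg_zero_right]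
  | insert i s hi ih => rw [Finset.sum_insert hi, Finset.sum_insert hi, wdg_add_right, ih]

variable {d : ℕ}

/-- `g` is an orthonormal Gale dual of `p` -/
structure Gale (p : Fin (d + 3) → EE d) (g : Fin (d + 3) → ℂ) : Prop where
  sum_g : ∀ j : Fin (d + 1), ∑ i, (aug p i j : ℂ) * g i = 0
  re_re : ∑ i, (g i).re * (g i).re = 1
  im_im : ∑ i, (g i).im * (g i).im = 1
  re_im : ∑ i, (g i).re * (g i).im = 0

/-- existence of a Gale dual -/
lemma exists_gale (p : Fin (d + 3) → EE d) : ∃ g, Gale p g := by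
  let L : EuclideanSpace ℝ (Fin (d + 3)) →ₗ[ℝ] (Fin (d + 1) → ℝ) :=
    (Matrix.toLin' (aug p)ᵀ) ∘ₗ (WithLp.linearEquiv 2 ℝ (Fin (d + 3) → ℝ)).toLinearMap
  have hrank := LinearMap.finrank_range_add_finrank_ker L
  have h1 : Module.finrank ℝ (LinearMap.range L) ≤ d + 1 := by
    refine (Submodule.finrank_le _).trans ?_
    simp
  rw [finrank_euclideanSpace_fin] at hrank
  have h2 : 2 ≤ Module.finrank ℝ (LinearMap.ker L) := by omega
  let b := stdOrthonormalBasis ℝ (LinearMap.ker L)
  let u : EuclideanSpace ℝ (Fin (d + 3)) := (b ⟨0, by omega⟩ : LinearMap.ker L)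
  let v : EuclideanSpace ℝ (Fin (d + 3)) := (b ⟨1, by omega⟩ : LinearMap.ker L)
  have hu : L u = 0 := (b ⟨0, by omega⟩).2
  have hv : L v = 0 := (b ⟨1, by omega⟩).2
  have huu : inner ℝ u u = (1 : ℝ) := by
    have := b.orthonormal.1 ⟨0, by omega⟩
    rw [real_inner_self_eq_norm_sq]
    have h : ‖u‖ = 1 := this
    rw [h]; norm_num
  have hvv : inner ℝ v v = (1 : ℝ) := by
    have := b.orthonormal.1 ⟨1, by omega⟩
    rw [real_inner_self_eq_norm_sq]
    have h : ‖v‖ = 1 := this
    rw [h]; norm_num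
  have huv : inner ℝ u v = (0 : ℝ) := by
    have h : (⟨0, by omega⟩ : Fin (Module.finrank ℝ (LinearMap.ker L))) ≠ ⟨1, by omega⟩ := by
      intro h; simp at h
    exact b.orthonormal.2 h
  have hin : ∀ x y : EuclideanSpace ℝ (Fin (d + 3)), inner ℝ x y = ∑ i, x i * y i := by
    intro x y
    rw [PiLp.inner_apply]
    refine Finset.sum_congr rfl fun i _ => ?_
    simp [mul_comm]
  have hL : ∀ x : EuclideanSpace ℝ (Fin (d + 3)), L x = 0 → ∀ j, ∑ i, aug p i j * x i = 0 := by
    intro x hx j
    have h := congrFun hx j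
    simp only [L, LinearMap.comp_apply, Matrix.toLin'_apply, Matrix.mulVec, dotProduct,
      Matrix.transpose_apply] at h
    exact h
  refine ⟨fun i => ⟨u i, v i⟩, ⟨fun j => ?_, ?_, ?_, ?_⟩⟩
  · apply Complex.ext
    · rw [Complex.re_sum]
      simp only [Complex.mul_re, Complex.ofReal_re, Complex.ofReal_im, zero_mul, sub_zero,
        Complex.zero_re]
      exact hL u hu j
    · rw [Complex.im_sum]
      simp only [Complex.mul_im, Complex.ofReal_re, Complex.ofReal_im, zero_mul, add_zero,
        Complex.zero_im]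
      exact hL v hv j
  · simp only; rw [← hin, huu]
  · simp only; rw [← hin, hvv]
  · simp only; rw [← hin, huv]

variable {p : Fin (d + 3) → EE d} {g : Fin (d + 3) → ℂ}

lemma Gale.re (h : Gale p g) (j : Fin (d + 1)) : ∑ i, aug p i j * (g i).re = 0 := by
  have := congrArg Complex.re (h.sum_g j)
  rw [Complex.re_sum] at this
  simpa using this

lemma Gale.im (h : Gale p g) (j : Fin (d + 1)) : ∑ i, aug p i j * (g i).im = 0 := by
  have := congrArg Complex.im (h.sum_g j)
  rw [Complex.im_sum] at this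
  simpa using this

lemma Gale.sum (h : Gale p g) : ∑ i, g i = 0 := by
  have := h.sum_g 0
  simpa using this

/-- Gram matrix of the augmented matrix -/
noncomputable def gram (p : Fin (d + 3) → EE d) : Matrix (Fin (d + 1)) (Fin (d + 1)) ℝ :=
  (aug p)ᵀ * aug p

/-- the square matrix `[M | G]`, rows reindexed by `ε` -/
noncomputable def BM (p : Fin (d + 3) → EE d) (g : Fin (d + 3) → ℂ)
    (ε : Fin (d + 1) ⊕ Fin 2 ≃ Fin (d + 3)) :
    Matrix (Fin (d + 1) ⊕ Fin 2) (Fin (d + 1) ⊕ Fin 2) ℝ :=
  Matrix.of fun r c => Sum.elim (fun j => aug p (ε r) j)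
    (fun t => if t = 0 then (g (ε r)).re else (g (ε r)).im) c

lemma BM_gram (h : Gale p g) (ε : Fin (d + 1) ⊕ Fin 2 ≃ Fin (d + 3)) :
    (BM p g ε)ᵀ * BM p g ε = Matrix.fromBlocks (gram p) 0 0 1 := by
  have hs : ∀ F : Fin (d + 3) → ℝ, ∑ r, F (ε r) = ∑ i, F i := fun F => Equiv.sum_comp ε F
  ext c c'
  rw [Matrix.mul_apply]
  rcases c with j | t
  · rcases c' with j' | t'
    · rw [Matrix.fromBlocks_apply₁₁]
      simp only [BM, Matrix.transpose_apply, Matrix.of_apply, Sum.elim_inl]
      rw [hs (fun i => aug p i j * aug p i j'), gram, Matrix.mul_apply]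
      rfl
    · rw [Matrix.fromBlocks_apply₁₂, Matrix.zero_apply]
      simp only [BM, Matrix.transpose_apply, Matrix.of_apply, Sum.elim_inl, Sum.elim_inr]
      fin_cases t'
      · simp only [Fin.zero_eta, if_true]
        rw [hs (fun i => aug p i j * (g i).re)]
        exact h.re j
      · simp only [Fin.mk_one, Fin.isValue, one_ne_zero, if_false]
        rw [hs (fun i => aug p i j * (g i).im)]
        exact h.im j
  · rcases c' with j' | t'
    · rw [Matrix.fromBlocks_apply₂₁, Matrix.zero_apply]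
      simp only [BM, Matrix.transpose_apply, Matrix.of_apply, Sum.elim_inl, Sum.elim_inr]
      fin_cases t
      · simp only [Fin.zero_eta, if_true]
        rw [hs (fun i => (g i).re * aug p i j')]
        exact (Finset.sum_congr rfl fun i _ => mul_comm _ _).trans (h.re j')
      · simp only [Fin.mk_one, Fin.isValue, one_ne_zero, if_false]
        rw [hs (fun i => (g i).im * aug p i j')]
        exact (Finset.sum_congr rfl fun i _ => mul_comm _ _).trans (h.im j')
    · rw [Matrix.fromBlocks_apply₂₂]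
      simp only [BM, Matrix.transpose_apply, Matrix.of_apply, Sum.elim_inr]
      fin_cases t <;> fin_cases t'
      · simp only [Fin.zero_eta, if_true]
        rw [hs (fun i => (g i).re * (g i).re), h.re_re]; simp
      · simp only [Fin.zero_eta, if_true, Fin.mk_one, Fin.isValue, one_ne_zero, if_false]
        rw [hs (fun i => (g i).re * (g i).im), h.re_im]; simp
      · simp only [Fin.zero_eta, if_true, Fin.mk_one, Fin.isValue, one_ne_zero, if_false]
        rw [hs (fun i => (g i).im * (g i).re)]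
        rw [(Finset.sum_congr rfl fun i _ => mul_comm _ _ : ∑ i, (g i).im * (g i).re = ∑ i, (g i).re * (g i).im), h.re_im]; simp
      · simp only [Fin.mk_one, Fin.isValue, one_ne_zero, if_false]
        rw [hs (fun i => (g i).im * (g i).im), h.im_im]; simp

lemma BM_det_sq (h : Gale p g) (ε : Fin (d + 1) ⊕ Fin 2 ≃ Fin (d + 3)) :
    (BM p g ε).det ^ 2 = (gram p).det := by
  have := congrArg Matrix.det (BM_gram h ε)
  rw [Matrix.det_mul, Matrix.det_transpose, Matrix.det_fromBlocks_zero₂₁, Matrix.det_one,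
    mul_one] at this
  rw [← this]; ring

/-- auxiliary matrix `[M | E_a, E_b]` -/
noncomputable def BN (p : Fin (d + 3) → EE d)
    (ε : Fin (d + 1) ⊕ Fin 2 ≃ Fin (d + 3)) :
    Matrix (Fin (d + 1) ⊕ Fin 2) (Fin (d + 1) ⊕ Fin 2) ℝ :=
  Matrix.fromBlocks (aug (fun i => p (ε (Sum.inl i)))) 0 (aug (fun t => p (ε (Sum.inr t)))) 1

lemma BN_det (p : Fin (d + 3) → EE d) (ε : Fin (d + 1) ⊕ Fin 2 ≃ Fin (d + 3)) :
    (BN p ε).det = (aug (fun i => p (ε (Sum.inl i)))).det := by
  unfold BN
  rw [Matrix.det_fromBlocks_zero₁₂, Matrix.det_one, mul_one]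

lemma BM_BN (h : Gale p g) (ε : Fin (d + 1) ⊕ Fin 2 ≃ Fin (d + 3)) :
    (BM p g ε).det * (aug (fun i => p (ε (Sum.inl i)))).det =
      (gram p).det * wdg (g (ε (Sum.inr 0))) (g (ε (Sum.inr 1))) := by
  have hs : ∀ F : Fin (d + 3) → ℝ, ∑ r, F (ε r) = ∑ i, F i := fun F => Equiv.sum_comp ε F
  have key : (BM p g ε)ᵀ * BN p ε = Matrix.fromBlocks (gram p)
      (Matrix.of fun j t => aug p (ε (Sum.inr t)) j) 0
      (Matrix.of fun s t : Fin 2 => if s = 0 then (g (ε (Sum.inr t))).re else (g (ε (Sum.inr t))).im) := by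
    ext c c'
    rw [Matrix.mul_apply, Fintype.sum_sum_type]
    rcases c with j | s
    · rcases c' with j' | t'
      · rw [Matrix.fromBlocks_apply₁₁]
        have h1 : ∑ r, aug p (ε r) j * aug p (ε r) j' = gram p j j' := by
          rw [hs (fun i => aug p i j * aug p i j'), gram, Matrix.mul_apply]
          rfl
        rw [← h1, Fintype.sum_sum_type]
        rfl
      · rw [Matrix.fromBlocks_apply₁₂]
        simp only [BM, BN, Matrix.transpose_apply, Matrix.of_apply, Sum.elim_inl,
          Matrix.fromBlocks_apply₁₂, Matrix.fromBlocks_apply₂₂, Matrix.zero_apply, mul_zero,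
          Finset.sum_const_zero, zero_add, Matrix.one_apply, mul_ite, mul_one]
        simp
    · rcases c' with j' | t'
      · rw [Matrix.fromBlocks_apply₂₁, Matrix.zero_apply]
        have h1 : ∑ r, (if s = 0 then (g (ε r)).re else (g (ε r)).im) * aug p (ε r) j' = 0 := by
          rw [hs (fun i => (if s = 0 then (g i).re else (g i).im) * aug p i j')]
          fin_cases s
          · simp only [Fin.zero_eta, if_true]
            exact (Finset.sum_congr rfl fun i _ => mul_comm _ _).trans (h.re j')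
          · simp only [Fin.mk_one, Fin.isValue, one_ne_zero, if_false]
            exact (Finset.sum_congr rfl fun i _ => mul_comm _ _).trans (h.im j')
        rw [← h1, Fintype.sum_sum_type]
        rfl
      · rw [Matrix.fromBlocks_apply₂₂]
        simp only [BM, BN, Matrix.transpose_apply, Matrix.of_apply, Sum.elim_inr,
          Matrix.fromBlocks_apply₁₂, Matrix.fromBlocks_apply₂₂, Matrix.zero_apply, mul_zero,
          Finset.sum_const_zero, zero_add, Matrix.one_apply, mul_ite, mul_one]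
        simp
  have := congrArg Matrix.det key
  rw [Matrix.det_mul, Matrix.det_transpose, Matrix.det_fromBlocks_zero₂₁, BN_det] at this
  rw [this]
  congr 1
  rw [Matrix.det_fin_two]
  simp only [Matrix.of_apply, if_true, Fin.isValue, one_ne_zero, if_false]
  unfold wdg
  ring

lemma gram_det_nonneg (h : Gale p g) (ε : Fin (d + 1) ⊕ Fin 2 ≃ Fin (d + 3)) :
    0 ≤ (gram p).det := by
  rw [← BM_det_sq h ε]; positivity

/-- the key formula -/
theorem abs_det_eq (h : Gale p g) (hD : (gram p).det ≠ 0)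
    (ε : Fin (d + 1) ⊕ Fin 2 ≃ Fin (d + 3)) :
    |(aug (fun i => p (ε (Sum.inl i)))).det| =
      Real.sqrt (gram p).det * |wdg (g (ε (Sum.inr 0))) (g (ε (Sum.inr 1)))| := by
  have h0 := gram_det_nonneg h ε
  have hpos : 0 < (gram p).det := lt_of_le_of_ne h0 (Ne.symm hD)
  have h1 := BM_BN h ε
  have h2 : |(BM p g ε).det| = Real.sqrt (gram p).det := by
    rw [← BM_det_sq h ε, Real.sqrt_sq_eq_abs]
  have h3 := congrArg abs h1
  rw [abs_mul, abs_mul, h2, abs_of_nonneg h0] at h3
  have hs : 0 < Real.sqrt (gram p).det := Real.sqrt_pos.2 hpos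
  have h4 : (gram p).det = Real.sqrt (gram p).det * Real.sqrt (gram p).det :=
    (Real.mul_self_sqrt h0).symm
  rw [h4, mul_assoc] at h3
  nth_rewrite 1 [← h4] at h3
  have h5 := mul_left_cancel₀ hs.ne' h3
  rw [h5]

/-- an enumeration putting `a, b` last -/
lemma exists_enum (a b : Fin (d + 3)) (hab : a ≠ b) :
    ∃ ε : Fin (d + 1) ⊕ Fin 2 ≃ Fin (d + 3), ε (Sum.inr 0) = a ∧ ε (Sum.inr 1) = b := by
  let ε0 : Fin (d + 1) ⊕ Fin 2 ≃ Fin (d + 3) := finSumFinEquiv
  let ε1 := ε0.trans (Equiv.swap (ε0 (Sum.inr 0)) a)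
  have h1 : ε1 (Sum.inr 0) = a := by simp [ε1]
  let ε2 := ε1.trans (Equiv.swap (ε1 (Sum.inr 1)) b)
  have hne : ε1 (Sum.inr 1) ≠ a := by
    intro h
    rw [← h1] at h
    have := ε1.injective h
    simp at this
  refine ⟨ε2, ?_, ?_⟩
  · simp only [ε2, Equiv.trans_apply, h1]
    exact Equiv.swap_apply_of_ne_of_ne hne.symm hab
  · simp [ε2]

end Pool.Agent.K3h40.Cyc
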