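import Pool.Agent.K3h40.Cyc.Gale

/-! The sharp bound for the quadratic form of signed areas. -/

namespace Pool.Agent.K3h40.Cyc

open Finset ZMod

variable {d : ℕ}

/-- sign kernel -/
def kk (i j : ℕ) : ℤ := if (i + j) % 2 = 1 then (if j < i then 1 else -1) else 0

/-- potential -/
noncomputable def Gf (g : ZMod (d + 3) → ℂ) (j : ZMod (d + 3)) : ℂ :=
  (1 / 2) * ∑ i : ZMod (d + 3), ((kk i.val j.val : ℤ) : ℂ) * g i

lemma kk_rel (hd : Even d) (i a j b : ℕ) (hi : i < d + 3)
    (h : (a + 2 < d + 3 ∧ j = a + 1 ∧ b = a + 2) ∨ (a + 2 = d + 3 ∧ j = a + 1 ∧ b = 0) ∨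
      (a + 1 = d + 3 ∧ j = 0 ∧ b = 1)) :
    kk i a - kk i b = 2 * (if i = j then 1 else 0) - (if (j = 0 ∨ j = d + 2) then 1 else 0) := by
  obtain ⟨m, hm⟩ := hd
  unfold kk
  split_ifs <;> omega

lemma val_succ_cases (k : ZMod (d + 3)) :
    (k.val + 1 < d + 3 ∧ (k + 1).val = k.val + 1) ∨ (k.val + 1 = d + 3 ∧ (k + 1).val = 0) := by
  have hk := ZMod.val_lt k
  have h1 : (1 : ZMod (d + 3)).val = 1 := ZMod.val_one'' (by omega)
  rw [ZMod.val_add, h1]
  rcases Nat.lt_or_ge (k.val + 1) (d + 3) with h | h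
  · left
    exact ⟨h, Nat.mod_eq_of_lt h⟩
  · right
    have : k.val + 1 = d + 3 := by omega
    refine ⟨this, ?_⟩
    rw [this, Nat.mod_self]

lemma Gf_rel (hd : Even d) (g : ZMod (d + 3) → ℂ) (hg : ∑ i, g i = 0) (k : ZMod (d + 3)) :
    g (k + 1) = Gf g k - Gf g (k + 2) := by
  have hk := ZMod.val_lt k
  have e2 : k + 2 = (k + 1) + 1 := by ring
  have hcase : (k.val + 2 < d + 3 ∧ (k + 1).val = k.val + 1 ∧ (k + 2).val = k.val + 2) ∨
      (k.val + 2 = d + 3 ∧ (k + 1).val = k.val + 1 ∧ (k + 2).val = 0) ∨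
      (k.val + 1 = d + 3 ∧ (k + 1).val = 0 ∧ (k + 2).val = 1) := by
    rw [e2]
    rcases val_succ_cases k with h | h <;> rcases val_succ_cases (k + 1) with h' | h' <;> omega
  have hrel : ∀ i : ZMod (d + 3), kk i.val k.val - kk i.val (k + 2).val
      = 2 * (if i = k + 1 then 1 else 0) -
        (if ((k + 1).val = 0 ∨ (k + 1).val = d + 2) then 1 else 0) := by
    intro i
    have := kk_rel hd i.val k.val (k + 1).val (k + 2).val (ZMod.val_lt i) hcase
    rw [this]
    congr 2
    have hiff : i.val = (k + 1).val ↔ i = k + 1 := (ZMod.val_injective (d + 3)).eq_iff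
    by_cases h : i = k + 1
    · rw [if_pos (hiff.2 h), if_pos h]
    · rw [if_neg (fun h' => h (hiff.1 h')), if_neg h]
  unfold Gf
  rw [← mul_sub, ← Finset.sum_sub_distrib]
  have h1 : ∀ i : ZMod (d + 3), ((kk i.val k.val : ℤ) : ℂ) * g i - ((kk i.val (k + 2).val : ℤ) : ℂ) * g i
      = (if i = k + 1 then 2 * g i else 0) -
        (if ((k + 1).val = 0 ∨ (k + 1).val = d + 2) then (1 : ℂ) else 0) * g i := by
    intro i
    rw [← sub_mul, ← Int.cast_sub, hrel i]
    push_cast
    rw [sub_mul]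
    congr 1
    by_cases h : i = k + 1
    · rw [if_pos h, if_pos h]; ring
    · rw [if_neg h, if_neg h]; ring
  rw [Finset.sum_congr rfl fun i _ => h1 i, Finset.sum_sub_distrib, ← Finset.mul_sum, hg, mul_zero,
    sub_zero, Finset.sum_ite_eq' Finset.univ (k + 1) (fun i => 2 * g i),
    if_pos (Finset.mem_univ _)]
  ring

/-- the full signed area sum -/
noncomputable def QQ (g : ZMod (d + 3) → ℂ) : ℝ :=
  -∑ i : ZMod (d + 3), ∑ j : ZMod (d + 3),
    if (i.val < j.val ∧ (i.val + j.val) % 2 = 1) then wdg (g i) (g j) else 0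

/-- half of it -/
noncomputable def SS (g : ZMod (d + 3) → ℂ) : ℝ :=
  -∑ i : ZMod (d + 3), ∑ j : ZMod (d + 3),
    if (i.val < j.val ∧ i.val % 2 = 1 ∧ j.val % 2 = 0) then wdg (g i) (g j) else 0

lemma QQ_eq_two_SS (g : ZMod (d + 3) → ℂ) (hg : ∑ i, g i = 0) : QQ g = 2 * SS g := by
  set P2 : ℝ := ∑ i : ZMod (d + 3), ∑ j : ZMod (d + 3),
    if (i.val < j.val ∧ i.val % 2 = 0 ∧ j.val % 2 = 1) then wdg (g i) (g j) else 0 with hP2
  set P1 : ℝ := ∑ i : ZMod (d + 3), ∑ j : ZMod (d + 3),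
    if (i.val < j.val ∧ i.val % 2 = 1 ∧ j.val % 2 = 0) then wdg (g i) (g j) else 0 with hP1
  have hQ : QQ g = -(P1 + P2) := by
    unfold QQ
    rw [hP1, hP2, ← Finset.sum_add_distrib]
    congr 1
    refine Finset.sum_congr rfl fun i _ => ?_
    rw [← Finset.sum_add_distrib]
    refine Finset.sum_congr rfl fun j _ => ?_
    split_ifs <;> first | omega | simp
  have hS : SS g = -P1 := rfl
  have hdiff : P1 - P2 = 0 := by
    set O : ℂ := ∑ i : ZMod (d + 3), if i.val % 2 = 1 then g i else 0 with hO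
    set E : ℂ := ∑ i : ZMod (d + 3), if i.val % 2 = 0 then g i else 0 with hE
    have hOE : O + E = 0 := by
      rw [hO, hE, ← Finset.sum_add_distrib]
      refine Eq.trans (Finset.sum_congr rfl fun i _ => ?_) hg
      split_ifs <;> first | omega | simp
    have h1 : wdg O E = P1 - P2 := by
      rw [hO, hE, wdg_sum_left]
      have e1 : P2 = -∑ i : ZMod (d + 3), ∑ j : ZMod (d + 3),
          if (j.val < i.val ∧ j.val % 2 = 0 ∧ i.val % 2 = 1) then wdg (g i) (g j) else 0 := by
        rw [hP2, Finset.sum_comm, ← Finset.sum_neg_distrib]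
        refine Finset.sum_congr rfl fun i _ => ?_
        rw [← Finset.sum_neg_distrib]
        refine Finset.sum_congr rfl fun j _ => ?_
        split_ifs
        · exact wdg_comm _ _
        · simp
      rw [e1, hP1, sub_neg_eq_add, ← Finset.sum_add_distrib]
      refine Finset.sum_congr rfl fun i _ => ?_
      rw [wdg_sum_right, ← Finset.sum_add_distrib]
      refine Finset.sum_congr rfl fun j _ => ?_
      by_cases hi : i.val % 2 = 1
      · by_cases hj : j.val % 2 = 0
        · rw [if_pos hi, if_pos hj]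
          rcases lt_trichotomy i.val j.val with h | h | h
          · rw [if_pos ⟨h, hi, hj⟩, if_neg (by omega), add_zero]
          · omega
          · rw [if_neg (by omega), if_pos ⟨h, hj, hi⟩, zero_add]
        · rw [if_neg hj, wdg_zero_right, if_neg (by omega), if_neg (by omega), add_zero]
      · rw [if_neg hi, wdg_zero_left, if_neg (by omega), if_neg (by omega), add_zero]
    have h2 : wdg O E = 0 := by
      have : E = -O := by linear_combination hOE
      rw [this, wdg_neg_right, wdg_self, neg_zero]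
    rw [← h1, h2]
  rw [hQ, hS]
  linarith

lemma QQ_eq (g : ZMod (d + 3) → ℂ) : QQ g = ∑ j, wdg (Gf g j) (g j) := by
  have h1 : ∀ j, wdg (Gf g j) (g j)
      = (1 / 2) * ∑ i : ZMod (d + 3), (kk i.val j.val : ℝ) * wdg (g i) (g j) := by
    intro j
    unfold Gf
    have : (1 / 2 : ℂ) = ((1 / 2 : ℝ) : ℂ) := by push_cast; rfl
    rw [this, wdg_real_mul_left, wdg_sum_left]
    congr 1
    refine Finset.sum_congr rfl fun i _ => ?_
    rw [← Complex.ofReal_intCast, wdg_real_mul_left]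
  simp_rw [h1]
  rw [← Finset.mul_sum]
  set P : ℝ := ∑ i : ZMod (d + 3), ∑ j : ZMod (d + 3),
    if (i.val < j.val ∧ (i.val + j.val) % 2 = 1) then wdg (g i) (g j) else 0 with hP
  have h2 : ∑ j : ZMod (d + 3), ∑ i : ZMod (d + 3), (kk i.val j.val : ℝ) * wdg (g i) (g j)
      = -P - P := by
    have e1 : P = -∑ i : ZMod (d + 3), ∑ j : ZMod (d + 3),
        if (j.val < i.val ∧ (i.val + j.val) % 2 = 1) then wdg (g i) (g j) else 0 := by
      rw [hP, Finset.sum_comm, ← Finset.sum_neg_distrib]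
      refine Finset.sum_congr rfl fun i _ => ?_
      rw [← Finset.sum_neg_distrib]
      refine Finset.sum_congr rfl fun j _ => ?_
      rw [add_comm j.val i.val]
      split_ifs
      · exact wdg_comm _ _
      · simp
    nth_rewrite 2 [e1]
    rw [hP, sub_neg_eq_add, ← Finset.sum_neg_distrib, ← Finset.sum_add_distrib, Finset.sum_comm]
    refine Finset.sum_congr rfl fun i _ => ?_
    rw [← Finset.sum_neg_distrib, ← Finset.sum_add_distrib]
    refine Finset.sum_congr rfl fun j _ => ?_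
    unfold kk
    split_ifs <;> first | omega | skip
    all_goals push_cast
    all_goals first | ring | skip
  rw [h2]
  unfold QQ
  rw [← hP]
  ring

/-! ### Fourier analysis -/

/-- standard character -/
noncomputable def ch (x : ZMod (d + 3)) : ℂ := stdAddChar x

lemma ch_zero : ch (0 : ZMod (d + 3)) = 1 := AddChar.map_zero_eq_one _

lemma ch_add (x y : ZMod (d + 3)) : ch (x + y) = ch x * ch y := AddChar.map_add_eq_mul _ _ _

lemma ch_neg (x : ZMod (d + 3)) : ch (-x) = star (ch x) := by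
  unfold ch
  rw [stdAddChar_apply, stdAddChar_apply, AddChar.map_neg_eq_inv, Circle.coe_inv_eq_conj]
  rfl

lemma norm_ch (x : ZMod (d + 3)) : ‖ch x‖ = 1 := by
  unfold ch
  rw [stdAddChar_apply]
  exact Circle.norm_coe _

lemma star_ch_mul (x : ZMod (d + 3)) : star (ch x) * ch x = 1 := by
  rw [← ch_neg, ← ch_add, neg_add_cancel, ch_zero]

lemma ch_eq_exp (x : ZMod (d + 3)) :
    ch x = Complex.exp ((((2 * Real.pi * x.val / ((d : ℝ) + 3)) : ℝ) : ℂ) * Complex.I) := by
  unfold ch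
  have h : x = ((x.val : ℤ) : ZMod (d + 3)) := by simp
  conv_lhs => rw [h]
  rw [stdAddChar_coe]
  congr 1
  push_cast
  ring

lemma ch_im (x : ZMod (d + 3)) : (ch x).im = Real.sin (2 * Real.pi * x.val / ((d : ℝ) + 3)) := by
  rw [ch_eq_exp, Complex.exp_ofReal_mul_I_im]

lemma ch_re (x : ZMod (d + 3)) : (ch x).re = Real.cos (2 * Real.pi * x.val / ((d : ℝ) + 3)) := by
  rw [ch_eq_exp, Complex.exp_ofReal_mul_I_re]

lemma sum_ch (b : ZMod (d + 3)) :
    ∑ x : ZMod (d + 3), ch (x * b) = if b = 0 then ((d + 3 : ℕ) : ℂ) else 0 := by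
  have := AddChar.sum_mulShift b (isPrimitive_stdAddChar (d + 3))
  unfold ch
  rw [this, ZMod.card]
  simp

/-- Fourier transform -/
noncomputable def ft (G : ZMod (d + 3) → ℂ) (m : ZMod (d + 3)) : ℂ := ∑ j, G j * ch (-(m * j))

lemma parseval (G : ZMod (d + 3) → ℂ) (s : ZMod (d + 3)) :
    ∑ m, (((‖ft G m‖ ^ 2 : ℝ)) : ℂ) * ch (m * s) = ((d + 3 : ℕ) : ℂ) * ∑ j, star (G j) * G (j + s) := by
  have h1 : ∀ m, (((‖ft G m‖ ^ 2 : ℝ)) : ℂ) * ch (m * s)
      = ∑ j, ∑ l, star (G j) * G l * ch (m * (j - l + s)) := by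
    intro m
    have e : (((‖ft G m‖ ^ 2 : ℝ)) : ℂ) = star (ft G m) * ft G m := by
      rw [mul_comm, Complex.star_def, Complex.mul_conj, Complex.normSq_eq_norm_sq]
    rw [e]
    unfold ft
    rw [star_sum, Finset.sum_mul, Finset.sum_mul]
    refine Finset.sum_congr rfl fun j _ => ?_
    rw [Finset.mul_sum, Finset.sum_mul]
    refine Finset.sum_congr rfl fun l _ => ?_
    rw [star_mul', ← ch_neg, neg_neg]
    have : ch (m * (j - l + s)) = ch (m * j) * ch (-(m * l)) * ch (m * s) := by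
      rw [← ch_add, ← ch_add]; congr 1; ring
    rw [this]; ring
  simp_rw [h1]
  rw [Finset.sum_comm, Finset.mul_sum]
  refine Finset.sum_congr rfl fun j _ => ?_
  rw [Finset.sum_comm]
  have h2 : ∀ l, ∑ m, star (G j) * G l * ch (m * (j - l + s))
      = if l = j + s then star (G j) * G l * ((d + 3 : ℕ) : ℂ) else 0 := by
    intro l
    rw [← Finset.mul_sum, sum_ch]
    by_cases h : l = j + s
    · rw [if_pos h, if_pos (by rw [h]; ring)]
    · rw [if_neg h, if_neg, mul_zero]
      intro h'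
      apply h
      linear_combination -h'
  simp_rw [h2]
  rw [Finset.sum_ite_eq' Finset.univ (j + s), if_pos (Finset.mem_univ _)]
  ring

lemma inversion (G : ZMod (d + 3) → ℂ) (j : ZMod (d + 3)) :
    ∑ m, ft G m * ch (m * j) = ((d + 3 : ℕ) : ℂ) * G j := by
  unfold ft
  simp_rw [Finset.sum_mul]
  rw [Finset.sum_comm]
  have h2 : ∀ l, ∑ m, G l * ch (-(m * l)) * ch (m * j)
      = if l = j then G l * ((d + 3 : ℕ) : ℂ) else 0 := by
    intro l
    have : ∀ m, G l * ch (-(m * l)) * ch (m * j) = G l * ch (m * (j - l)) := by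
      intro m
      rw [mul_assoc, ← ch_add]
      congr 2
      ring
    simp_rw [this]
    rw [← Finset.mul_sum, sum_ch]
    by_cases h : l = j
    · rw [if_pos h, if_pos (by rw [h]; ring)]
    · rw [if_neg h, if_neg, mul_zero]
      intro h'
      apply h
      linear_combination -h'
  simp_rw [h2]
  rw [Finset.sum_ite_eq' Finset.univ j, if_pos (Finset.mem_univ _)]
  ring

/-- the half element -/
def hh (d : ℕ) : ℕ := (d + 4) / 2

/-- `sin(π/N)` -/
noncomputable def sn (d : ℕ) : ℝ := Real.sin (Real.pi / ((d : ℝ) + 3))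

lemma sn_pos : 0 < sn d := by
  unfold sn
  have h3 : (0 : ℝ) < (d : ℝ) + 3 := by positivity
  apply Real.sin_pos_of_pos_of_lt_pi
  · positivity
  · rw [div_lt_iff₀ h3]
    nlinarith [Real.pi_pos, (Nat.cast_nonneg d : (0 : ℝ) ≤ d)]

/-- sine comparison -/
lemma sin_ge (t : ℕ) (h1 : 1 ≤ t) (h2 : t + 2 ≤ d + 3) :
    sn d ≤ Real.sin (Real.pi * t / ((d : ℝ) + 3)) ∧
      (Real.sin (Real.pi * t / ((d : ℝ) + 3)) = sn d → t = 1) := by
  have h3 : (0 : ℝ) < (d : ℝ) + 3 := by positivity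
  have ht1 : (1 : ℝ) ≤ t := by exact_mod_cast h1
  have ht2 : (t : ℝ) + 2 ≤ (d : ℝ) + 3 := by exact_mod_cast h2
  have hpi := Real.pi_pos
  have hform : Real.sin (Real.pi * t / ((d : ℝ) + 3)) - sn d
      = 2 * Real.sin ((Real.pi * t / ((d : ℝ) + 3) - Real.pi / ((d : ℝ) + 3)) / 2) *
        Real.cos ((Real.pi * t / ((d : ℝ) + 3) + Real.pi / ((d : ℝ) + 3)) / 2) := by
    unfold sn
    exact Real.sin_sub_sin _ _
  have hcos : 0 < Real.cos ((Real.pi * t / ((d : ℝ) + 3) + Real.pi / ((d : ℝ) + 3)) / 2) := by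
    apply Real.cos_pos_of_mem_Ioo
    constructor
    · have : 0 ≤ (Real.pi * t / ((d : ℝ) + 3) + Real.pi / ((d : ℝ) + 3)) / 2 := by positivity
      linarith
    · rw [← add_div, div_div, div_lt_div_iff₀ (by positivity) (by norm_num)]
      nlinarith
  have hsin0 : 0 ≤ Real.sin ((Real.pi * t / ((d : ℝ) + 3) - Real.pi / ((d : ℝ) + 3)) / 2) := by
    apply Real.sin_nonneg_of_nonneg_of_le_pi
    · rw [← sub_div]
      apply div_nonneg _ (by norm_num)
      apply div_nonneg _ h3.le
      nlinarith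
    · rw [← sub_div, div_div, div_le_iff₀ (by positivity)]
      nlinarith
  constructor
  · have : 0 ≤ Real.sin (Real.pi * t / ((d : ℝ) + 3)) - sn d := by
      rw [hform]; positivity
    linarith
  · intro heq
    by_contra hne
    have ht : 1 < t := by omega
    have ht' : (1 : ℝ) < t := by exact_mod_cast ht
    have hsin : 0 < Real.sin ((Real.pi * t / ((d : ℝ) + 3) - Real.pi / ((d : ℝ) + 3)) / 2) := by
      apply Real.sin_pos_of_pos_of_lt_pi
      · rw [← sub_div]
        apply div_pos _ (by norm_num)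
        apply div_pos _ h3
        nlinarith
      · rw [← sub_div, div_div, div_lt_iff₀ (by positivity)]
        nlinarith
    have : 0 < Real.sin (Real.pi * t / ((d : ℝ) + 3)) - sn d := by
      rw [hform]; positivity
    linarith

/-- the sign of the bracket -/
lemma bracket (hd : Even d) (m : ZMod (d + 3)) :
    0 ≤ 4 * (ch m).im ^ 2 + 4 * sn d * (ch m).im ∧
      (4 * (ch m).im ^ 2 + 4 * sn d * (ch m).im = 0 → m.val = 0 ∨ m.val = hh d) := by
  obtain ⟨r, hr⟩ := hd
  have hm := ZMod.val_lt m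
  have h3 : (0 : ℝ) < (d : ℝ) + 3 := by positivity
  have hs := sn_pos (d := d)
  have hpi := Real.pi_pos
  rcases Nat.lt_or_ge (2 * m.val) (d + 3) with h | h
  · -- nonnegative imaginary part
    have hlt : (2 : ℝ) * m.val < (d : ℝ) + 3 := by exact_mod_cast h
    have hnn : 0 ≤ (ch m).im := by
      rw [ch_im]
      apply Real.sin_nonneg_of_nonneg_of_le_pi (by positivity)
      rw [div_le_iff₀ h3]
      nlinarith
    refine ⟨by positivity, fun h0 => ?_⟩
    left
    by_contra hne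
    have hpos : 0 < (ch m).im := by
      rw [ch_im]
      have h1 : (1 : ℝ) ≤ m.val := by exact_mod_cast (by omega : 1 ≤ m.val)
      apply Real.sin_pos_of_pos_of_lt_pi (by positivity)
      rw [div_lt_iff₀ h3]
      nlinarith
    have : 0 < 4 * (ch m).im ^ 2 + 4 * sn d * (ch m).im := by positivity
    linarith
  · set t : ℕ := 2 * m.val - (d + 3) with ht
    have ht1 : 1 ≤ t := by omega
    have ht2 : t + 2 ≤ d + 3 := by omega
    have htc : (t : ℝ) = 2 * m.val - ((d : ℝ) + 3) := by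
      have : (t : ℝ) + ((d : ℝ) + 3) = 2 * m.val := by
        have h5 : t + (d + 3) = 2 * m.val := by omega
        exact_mod_cast h5
      linarith
    have him : (ch m).im = -Real.sin (Real.pi * t / ((d : ℝ) + 3)) := by
      rw [ch_im, htc]
      have : 2 * Real.pi * m.val / ((d : ℝ) + 3)
          = Real.pi * (2 * m.val - ((d : ℝ) + 3)) / ((d : ℝ) + 3) + Real.pi := by
        field_simp
        ring
      rw [this, Real.sin_add_pi]
    obtain ⟨hge, heq⟩ := sin_ge (d := d) t ht1 ht2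
    rw [him]
    set y := Real.sin (Real.pi * t / ((d : ℝ) + 3)) with hy
    have hfac : 4 * (-y) ^ 2 + 4 * sn d * (-y) = 4 * y * (y - sn d) := by ring
    rw [hfac]
    have hy0 : 0 < y := lt_of_lt_of_le hs hge
    refine ⟨mul_nonneg (by positivity) (by linarith), fun h0 => ?_⟩
    right
    have h4 : y - sn d = 0 := by
      rcases mul_eq_zero.1 h0 with h' | h'
      · linarith
      · exact h'
    have ht' := heq (by linarith)
    unfold hh
    omega

/-- identities for a potential -/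
lemma pot_Q (g G : ZMod (d + 3) → ℂ) (hG : ∀ k, g (k + 1) = G k - G (k + 2)) :
    ∑ j, wdg (G j) (g j) = -2 * ∑ j, wdg (G j) (G (j + 1)) := by
  rw [← Equiv.sum_comp (Equiv.addRight (1 : ZMod (d + 3))) (fun j => wdg (G j) (g j))]
  simp only [Equiv.coe_addRight]
  have h1 : ∀ k, wdg (G (k + 1)) (g (k + 1)) = -wdg (G k) (G (k + 1)) - wdg (G (k + 1)) (G (k + 2)) := by
    intro k
    rw [hG k, wdg_sub_right, wdg_comm (G (k + 1)) (G k)]
  simp_rw [h1]
  rw [Finset.sum_sub_distrib, Finset.sum_neg_distrib]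
  have h2 : ∑ k, wdg (G (k + 1)) (G (k + 2)) = ∑ k, wdg (G k) (G (k + 1)) := by
    rw [← Equiv.sum_comp (Equiv.addRight (1 : ZMod (d + 3))) (fun k => wdg (G k) (G (k + 1)))]
    refine Finset.sum_congr rfl fun k _ => ?_
    simp only [Equiv.coe_addRight]
    rw [show k + 1 + 1 = k + 2 by ring]
  rw [h2]; ring

lemma sum_shift (F : ZMod (d + 3) → ℝ) (c : ZMod (d + 3)) : ∑ k, F (k + c) = ∑ k, F k :=
  Equiv.sum_comp (Equiv.addRight c) F

/-- Fourier form of the deficit -/
lemma deficit (g G : ZMod (d + 3) → ℂ) (hG : ∀ k, g (k + 1) = G k - G (k + 2)) :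
    ((d + 3 : ℕ) : ℝ) * (∑ j, ‖g j‖ ^ 2 - 2 * sn d * ∑ j, wdg (G j) (g j)) =
      ∑ m, ‖ft G m‖ ^ 2 * (4 * (ch m).im ^ 2 + 4 * sn d * (ch m).im) := by
  have p0 := congrArg Complex.re (parseval G 0)
  have p1 := congrArg Complex.im (parseval G 1)
  have p2 := congrArg Complex.re (parseval G 2)
  rw [Complex.re_sum] at p0 p2
  rw [Complex.im_sum] at p1
  have q0 : ∑ m, ‖ft G m‖ ^ 2 = ((d + 3 : ℕ) : ℝ) * ∑ j, ‖G j‖ ^ 2 := by
    have e1 : ∀ m, ((((‖ft G m‖ ^ 2 : ℝ)) : ℂ) * ch (m * 0)).re = ‖ft G m‖ ^ 2 := by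
      intro m
      rw [mul_zero, ch_zero, mul_one, Complex.ofReal_re]
    simp_rw [e1] at p0
    rw [p0, ← Complex.ofReal_natCast, Complex.re_ofReal_mul, Complex.re_sum]
    congr 1
    refine Finset.sum_congr rfl fun j _ => ?_
    rw [add_zero, mul_comm, Complex.star_def, Complex.mul_conj, Complex.normSq_eq_norm_sq,
      Complex.ofReal_re]
  have q1 : ∑ m, ‖ft G m‖ ^ 2 * (ch m).im = ((d + 3 : ℕ) : ℝ) * ∑ j, wdg (G j) (G (j + 1)) := by
    have e1 : ∀ m, ((((‖ft G m‖ ^ 2 : ℝ)) : ℂ) * ch (m * 1)).im = ‖ft G m‖ ^ 2 * (ch m).im := by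
      intro m
      rw [mul_one, Complex.im_ofReal_mul]
    simp_rw [e1] at p1
    rw [p1, ← Complex.ofReal_natCast, Complex.im_ofReal_mul, Complex.im_sum]
    congr 1
    refine Finset.sum_congr rfl fun j _ => ?_
    rw [Complex.star_def]
    unfold wdg
    simp only [Complex.mul_im, Complex.conj_re, Complex.conj_im]
    ring
  have q2 : ∑ m, ‖ft G m‖ ^ 2 * (1 - 2 * (ch m).im ^ 2)
      = ((d + 3 : ℕ) : ℝ) * ∑ j, (star (G j) * G (j + 2)).re := by
    have e1 : ∀ m, ((((‖ft G m‖ ^ 2 : ℝ)) : ℂ) * ch (m * 2)).re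
        = ‖ft G m‖ ^ 2 * (1 - 2 * (ch m).im ^ 2) := by
      intro m
      rw [Complex.re_ofReal_mul]
      congr 1
      have h2 : ch (m * 2) = ch m * ch m := by rw [← ch_add]; congr 1; ring
      have h3 : (ch m).re ^ 2 + (ch m).im ^ 2 = 1 := by
        have := norm_ch m
        have h4 := Complex.sq_norm (ch m)
        rw [this, Complex.normSq_apply] at h4
        nlinarith
      rw [h2, Complex.mul_re]
      nlinarith
    simp_rw [e1] at p2
    rw [p2, ← Complex.ofReal_natCast, Complex.re_ofReal_mul, Complex.re_sum]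
  have hnorm : ∑ j, ‖g j‖ ^ 2 = 2 * ∑ j, ‖G j‖ ^ 2 - 2 * ∑ j, (star (G j) * G (j + 2)).re := by
    rw [← sum_shift (fun j => ‖g j‖ ^ 2) 1]
    have h1 : ∀ k, ‖g (k + 1)‖ ^ 2 = ‖G k‖ ^ 2 + ‖G (k + 2)‖ ^ 2 - 2 * (star (G k) * G (k + 2)).re := by
      intro k
      rw [hG k, Complex.sq_norm, Complex.sq_norm, Complex.sq_norm, Complex.normSq_sub,
        Complex.star_def]
      have : (G k * (starRingEnd ℂ) (G (k + 2))).re = ((starRingEnd ℂ) (G k) * G (k + 2)).re := by
        simp only [Complex.mul_re, Complex.conj_re, Complex.conj_im]; ring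
      rw [this]
    simp_rw [h1]
    rw [Finset.sum_sub_distrib, Finset.sum_add_distrib, sum_shift (fun j => ‖G j‖ ^ 2) 2,
      ← Finset.mul_sum]
    ring
  rw [hnorm, pot_Q g G hG]
  have hr : ∑ m, ‖ft G m‖ ^ 2 * (4 * (ch m).im ^ 2 + 4 * sn d * (ch m).im)
      = 2 * ∑ m, ‖ft G m‖ ^ 2 - 2 * ∑ m, ‖ft G m‖ ^ 2 * (1 - 2 * (ch m).im ^ 2)
        + 4 * sn d * ∑ m, ‖ft G m‖ ^ 2 * (ch m).im := by
    rw [Finset.mul_sum, Finset.mul_sum, Finset.mul_sum, ← Finset.sum_sub_distrib,
      ← Finset.sum_add_distrib]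
    refine Finset.sum_congr rfl fun m _ => ?_
    ring
  rw [hr, q0, q1, q2]
  ring

/-- the regular dual -/
noncomputable def reg (c : ℂ) (j : ZMod (d + 3)) : ℂ := c * ch ((hh d : ZMod (d + 3)) * j)

/-- main inequality with the equality case -/
theorem SS_le (hd : Even d) (g : ZMod (d + 3) → ℂ) (hg : ∑ i, g i = 0) :
    4 * sn d * SS g ≤ ∑ j, ‖g j‖ ^ 2 ∧
      (4 * sn d * SS g = ∑ j, ‖g j‖ ^ 2 → ∃ c : ℂ, ∀ j, g j = reg c j) := by
  have hrel := Gf_rel hd g hg
  have hdef := deficit g (Gf g) hrel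
  have hQ := QQ_eq g
  rw [← hQ, QQ_eq_two_SS g hg] at hdef
  have hN : (0 : ℝ) < ((d + 3 : ℕ) : ℝ) := by positivity
  have hterm : ∀ m ∈ (Finset.univ : Finset (ZMod (d + 3))),
      0 ≤ ‖ft (Gf g) m‖ ^ 2 * (4 * (ch m).im ^ 2 + 4 * sn d * (ch m).im) := fun m _ =>
    mul_nonneg (by positivity) (bracket hd m).1
  have hnn := Finset.sum_nonneg hterm
  rw [← hdef] at hnn
  constructor
  · have := (mul_nonneg_iff_of_pos_left hN).1 hnn
    linarith
  · intro heq
    have h0 : ∑ j, ‖g j‖ ^ 2 - 2 * sn d * (2 * SS g) = 0 := by linarith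
    rw [h0, mul_zero] at hdef
    have hz := (Finset.sum_eq_zero_iff_of_nonneg hterm).1 hdef.symm
    have hft : ∀ m : ZMod (d + 3), m ≠ 0 → m ≠ (hh d : ZMod (d + 3)) → ft (Gf g) m = 0 := by
      intro m h1 h2
      have h3 := hz m (Finset.mem_univ m)
      rcases mul_eq_zero.1 h3 with h4 | h4
      · have : ‖ft (Gf g) m‖ = 0 := by
          exact pow_eq_zero_iff (two_ne_zero) |>.1 h4
        exact norm_eq_zero.1 this
      · exfalso
        rcases (bracket hd m).2 h4 with h5 | h5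
        · exact h1 ((ZMod.val_eq_zero m).1 h5)
        · apply h2
          rw [← h5]
          simp
    have hne : (hh d : ZMod (d + 3)) ≠ 0 := by
      intro h
      have : (d + 3) ∣ hh d := (ZMod.natCast_eq_zero_iff _ _).1 h
      have h6 : 0 < hh d := by unfold hh; omega
      have := Nat.le_of_dvd h6 this
      unfold hh at this
      omega
    have hinv : ∀ j, ((d + 3 : ℕ) : ℂ) * Gf g j
        = ft (Gf g) 0 + ft (Gf g) (hh d : ZMod (d + 3)) * ch ((hh d : ZMod (d + 3)) * j) := by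
      intro j
      rw [← inversion (Gf g) j]
      rw [← Finset.sum_subset (Finset.subset_univ {(0 : ZMod (d + 3)), (hh d : ZMod (d + 3))})]
      · rw [Finset.sum_pair hne.symm, zero_mul, ch_zero, mul_one]
      · intro m _ hm
        simp only [Finset.mem_insert, Finset.mem_singleton, not_or] at hm
        rw [hft m hm.1 hm.2, zero_mul]
    set A := ft (Gf g) (hh d : ZMod (d + 3)) with hA
    refine ⟨A * (ch (-(hh d : ZMod (d + 3))) - ch (hh d : ZMod (d + 3))) / ((d + 3 : ℕ) : ℂ), ?_⟩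
    intro j
    have h1 := hrel (j - 1)
    rw [show j - 1 + 1 = j by ring, show j - 1 + 2 = j + 1 by ring] at h1
    have hNc : ((d + 3 : ℕ) : ℂ) ≠ 0 := by exact_mod_cast (by omega : d + 3 ≠ 0)
    have h2 := hinv (j - 1)
    have h3 := hinv (j + 1)
    have e1 : ch ((hh d : ZMod (d + 3)) * (j - 1)) = ch ((hh d : ZMod (d + 3)) * j) * ch (-(hh d : ZMod (d + 3))) := by
      rw [← ch_add]; congr 1; ring
    have e2 : ch ((hh d : ZMod (d + 3)) * (j + 1)) = ch ((hh d : ZMod (d + 3)) * j) * ch (hh d : ZMod (d + 3)) := by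
      rw [← ch_add]; congr 1; ring
    rw [e1] at h2
    rw [e2] at h3
    unfold reg
    field_simp
    rw [h1]
    linear_combination h2 - h3

lemma hh_two (hd : Even d) : (2 : ZMod (d + 3)) * (hh d : ZMod (d + 3)) = 1 := by
  obtain ⟨r, hr⟩ := hd
  have : 2 * hh d = (d + 3) + 1 := by unfold hh; omega
  have h := congrArg (Nat.cast : ℕ → ZMod (d + 3)) this
  push_cast at h
  rw [h]
  have h2 : ((d : ZMod (d + 3)) + 3) = 0 := by
    have := ZMod.natCast_self (d + 3)
    push_cast at this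
    exact this
  rw [h2, zero_add]

lemma ch_hh_im (hd : Even d) : (ch (hh d : ZMod (d + 3))).im = -sn d := by
  rw [ch_im]
  have hlt : hh d < d + 3 := by unfold hh; omega
  rw [ZMod.val_natCast_of_lt hlt]
  obtain ⟨r, hr⟩ := hd
  have h2 : (2 : ℝ) * (hh d : ℝ) = (d : ℝ) + 3 + 1 := by
    have : 2 * hh d = d + 3 + 1 := by unfold hh; omega
    exact_mod_cast this
  have h3 : (0 : ℝ) < (d : ℝ) + 3 := by positivity
  have : 2 * Real.pi * (hh d : ℝ) / ((d : ℝ) + 3) = Real.pi / ((d : ℝ) + 3) + Real.pi := by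
    field_simp
    linarith
  rw [this, Real.sin_add_pi, sn]

lemma sum_reg (c : ℂ) : ∑ j : ZMod (d + 3), reg c j = 0 := by
  unfold reg
  rw [← Finset.mul_sum]
  have : ∑ j : ZMod (d + 3), ch ((hh d : ZMod (d + 3)) * j) = 0 := by
    have h := sum_ch (hh d : ZMod (d + 3))
    have hne : (hh d : ZMod (d + 3)) ≠ 0 := by
      intro h
      have : (d + 3) ∣ hh d := (ZMod.natCast_eq_zero_iff _ _).1 h
      have h6 : 0 < hh d := by unfold hh; omega
      have := Nat.le_of_dvd h6 this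
      unfold hh at this
      omega
    rw [if_neg hne] at h
    rw [← h]
    exact Finset.sum_congr rfl fun j _ => by rw [mul_comm]
  rw [this, mul_zero]

/-- the regular dual attains the bound -/
theorem SS_reg (hd : Even d) (c : ℂ) :
    4 * sn d * SS (reg c : ZMod (d + 3) → ℂ) = ∑ j : ZMod (d + 3), ‖(reg c j : ℂ)‖ ^ 2 := by
  set g : ZMod (d + 3) → ℂ := reg c with hgdef
  have hg : ∑ i, g i = 0 := sum_reg c
  have hs := sn_pos (d := d)
  have hrel := Gf_rel hd g hg
  set K : ℂ := 1 / (2 * Complex.I * (sn d : ℂ)) with hK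
  have hsc : (sn d : ℂ) ≠ 0 := by exact_mod_cast hs.ne'
  -- the explicit potential
  have hrel' : ∀ k, g (k + 1) = K * g k - K * g (k + 2) := by
    intro k
    have e0 : ch (-(hh d : ZMod (d + 3))) - ch (hh d : ZMod (d + 3)) = 2 * Complex.I * (sn d : ℂ) := by
      rw [ch_neg]
      apply Complex.ext
      · simp [Complex.star_def]
      · rw [Complex.sub_im, Complex.star_def, Complex.conj_im, ch_hh_im hd]
        simp
        ring
    have e1 : g k = g (k + 1) * ch (-(hh d : ZMod (d + 3))) := by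
      rw [hgdef]
      unfold reg
      rw [mul_assoc, ← ch_add]
      congr 2
      ring
    have e2 : g (k + 2) = g (k + 1) * ch (hh d : ZMod (d + 3)) := by
      rw [hgdef]
      unfold reg
      rw [mul_assoc, ← ch_add]
      congr 2
      ring
    rw [e1, e2, ← mul_sub, ← mul_sub, e0, hK]
    have hI : Complex.I ≠ 0 := Complex.I_ne_zero
    field_simp
  -- difference of potentials is constant
  set D : ZMod (d + 3) → ℂ := fun k => Gf g k - K * g k with hD
  have hD2 : ∀ k, D (k + 2) = D k := by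
    intro k
    have h1 := hrel k
    have h2 := hrel' k
    simp only [hD]
    rw [h1] at h2
    linear_combination -h2
  have hDn : ∀ n : ℕ, D ((2 * n : ℕ) : ZMod (d + 3)) = D 0 := by
    intro n
    induction n with
    | zero => simp
    | succ n ih =>
      rw [show ((2 * (n + 1) : ℕ) : ZMod (d + 3)) = ((2 * n : ℕ) : ZMod (d + 3)) + 2 by
        push_cast; ring, hD2, ih]
  have hDc : ∀ k, D k = D 0 := by
    intro k
    have h1 := hDn (hh d * k.val)
    rw [← h1]
    congr 1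
    push_cast
    rw [← mul_assoc, hh_two hd, one_mul]
    simp
  have hQ := QQ_eq g
  rw [QQ_eq_two_SS g hg] at hQ
  have h2 : ∑ j, wdg (Gf g j) (g j) = ∑ j, wdg (K * g j) (g j) := by
    have : ∀ j, wdg (Gf g j) (g j) = wdg (D 0) (g j) + wdg (K * g j) (g j) := by
      intro j
      rw [← wdg_add_left]
      congr 1
      rw [← hDc j]
      simp only [hD]
      ring
    simp_rw [this]
    rw [Finset.sum_add_distrib, ← wdg_sum_right, hg, wdg_zero_right, zero_add]
  have h3 : ∀ j, wdg (K * g j) (g j) = ‖g j‖ ^ 2 / (2 * sn d) := by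
    intro j
    have hKv : K = ((-(1 / (2 * sn d)) : ℝ) : ℂ) * Complex.I := by
      rw [hK]
      have hI : Complex.I ≠ 0 := Complex.I_ne_zero
      push_cast
      field_simp
      rw [Complex.I_sq]
      norm_num
    rw [hKv, mul_assoc, wdg_real_mul_left, Complex.sq_norm, Complex.normSq_apply]
    unfold wdg
    simp only [Complex.mul_re, Complex.mul_im, Complex.I_re, Complex.I_im]
    field_simp
    ring
  rw [h2, Finset.sum_congr rfl fun j _ => h3 j, ← Finset.sum_div] at hQ
  rw [eq_div_iff (by positivity)] at hQ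
  linarith

end Pool.Agent.K3h40.Cyc
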