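import Pool.Agent.K3h40.Cyc.Sign
import Pool.Agent.K3h40.Cyc.DetBound

/-! The regular cyclic polytope. -/

namespace Pool.Agent.K3h40.Cyc

open Finset Matrix MeasureTheory

variable {d : ℕ}

/-- the vertices of the regular cyclic polytope -/
noncomputable def cyc (d : ℕ) (i : Fin (d + 3)) : EE d :=
  WithLp.toLp 2 fun j : Fin d => Real.sqrt (2 / (d : ℝ)) *
    (if j.val % 2 = 0 then Real.cos (((j.val / 2 + 1 : ℕ) : ℝ) * (2 * Real.pi * i.val / ((d : ℝ) + 3)))
      else Real.sin (((j.val / 2 + 1 : ℕ) : ℝ) * (2 * Real.pi * i.val / ((d : ℝ) + 3))))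

/-- character at a natural number -/
lemma ch_nat (m : ℕ) : ch ((m : ℕ) : ZMod (d + 3)) =
    Complex.exp ((((2 * Real.pi * m / ((d : ℝ) + 3)) : ℝ) : ℂ) * Complex.I) := by
  unfold ch
  have h : ((m : ℕ) : ZMod (d + 3)) = ((m : ℤ) : ZMod (d + 3)) := by simp
  rw [h, ZMod.stdAddChar_coe]
  congr 1
  push_cast
  ring

/-- phase `ch (a i)` -/
noncomputable def ph (a : ℕ) (i : Fin (d + 3)) : ℂ := ch (((a * i.val : ℕ)) : ZMod (d + 3))

lemma ph_re (a : ℕ) (i : Fin (d + 3)) :
    (ph a i).re = Real.cos ((a : ℝ) * (2 * Real.pi * i.val / ((d : ℝ) + 3))) := by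
  unfold ph
  rw [ch_nat, Complex.exp_ofReal_mul_I_re]
  congr 1
  push_cast
  ring

lemma ph_im (a : ℕ) (i : Fin (d + 3)) :
    (ph a i).im = Real.sin ((a : ℝ) * (2 * Real.pi * i.val / ((d : ℝ) + 3))) := by
  unfold ph
  rw [ch_nat, Complex.exp_ofReal_mul_I_im]
  congr 1
  push_cast
  ring

lemma ph_mul (a b : ℕ) (i : Fin (d + 3)) : ph a i * ph b i = ph (a + b) i := by
  unfold ph
  rw [← ch_add]
  congr 1
  push_cast
  ring

lemma sum_ch_nat (m : ZMod (d + 3)) :
    ∑ i : Fin (d + 3), ch (m * ((i.val : ℕ) : ZMod (d + 3))) =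
      if m = 0 then ((d + 3 : ℕ) : ℂ) else 0 := by
  have h := sum_ch m
  rw [← h]
  have : ∀ x : ZMod (d + 3), ch (x * m) = ch (m * ((x.val : ℕ) : ZMod (d + 3))) := by
    intro x
    rw [ZMod.natCast_zmod_val, mul_comm]
  simp_rw [this]
  rfl

lemma sum_ph (a : ℕ) (h0 : 0 < a) (h1 : a < d + 3) : ∑ i : Fin (d + 3), ph a i = 0 := by
  have h := sum_ch_nat (d := d) ((a : ℕ) : ZMod (d + 3))
  rw [if_neg] at h
  · rw [← h]
    refine Finset.sum_congr rfl fun i _ => ?_
    unfold ph
    push_cast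
    rfl
  · intro h'
    have := (ZMod.natCast_eq_zero_iff _ _).1 h'
    have := Nat.le_of_dvd h0 this
    omega

lemma ph_mul_star (a b : ℕ) (hab : b ≤ a) (i : Fin (d + 3)) :
    ph a i * star (ph b i) = ph (a - b) i := by
  unfold ph
  rw [← ch_neg, ← ch_add]
  congr 1
  rw [Nat.sub_mul]
  rw [Nat.cast_sub (Nat.mul_le_mul_right _ hab)]
  ring

lemma sum_ph_star (a b : ℕ) (ha : a < d + 3) (hb : b < d + 3) (hab : a ≠ b) :
    ∑ i : Fin (d + 3), ph a i * star (ph b i) = 0 := by
  rcases lt_or_gt_of_ne hab with h | h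
  · have h1 : ∑ i : Fin (d + 3), ph b i * star (ph a i) = 0 := by
      simp_rw [ph_mul_star b a h.le]
      exact sum_ph _ (by omega) (by omega)
    have h2 := congrArg star h1
    rw [star_sum, star_zero] at h2
    rw [← h2]
    refine Finset.sum_congr rfl fun i _ => ?_
    rw [star_mul', star_star, mul_comm]
  · simp_rw [ph_mul_star a b h.le]
    exact sum_ph _ (by omega) (by omega)

lemma ph_star_self (a : ℕ) (i : Fin (d + 3)) : ph a i * star (ph a i) = 1 := by
  unfold ph
  rw [← ch_neg, ← ch_add, add_neg_cancel, ch_zero]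

lemma sum_ph_star_self (a : ℕ) :
    ∑ i : Fin (d + 3), ph a i * star (ph a i) = ((d + 3 : ℕ) : ℂ) := by
  simp_rw [ph_star_self]
  simp

/-! real orthogonality -/

lemma sum_re (a : ℕ) (h0 : 0 < a) (h1 : a < d + 3) : ∑ i : Fin (d + 3), (ph a i).re = 0 := by
  rw [← Complex.re_sum, sum_ph a h0 h1, Complex.zero_re]

lemma sum_im (a : ℕ) (h0 : 0 < a) (h1 : a < d + 3) : ∑ i : Fin (d + 3), (ph a i).im = 0 := by
  rw [← Complex.im_sum, sum_ph a h0 h1, Complex.zero_im]

lemma re_re_id (A B : ℂ) : A.re * B.re = ((A * star B).re + (A * B).re) / 2 := by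
  simp only [Complex.mul_re, Complex.star_def, Complex.conj_re, Complex.conj_im]; ring

lemma im_im_id (A B : ℂ) : A.im * B.im = ((A * star B).re - (A * B).re) / 2 := by
  simp only [Complex.mul_re, Complex.star_def, Complex.conj_re, Complex.conj_im]; ring

lemma re_im_id (A B : ℂ) : A.re * B.im = ((A * B).im - (A * star B).im) / 2 := by
  simp only [Complex.mul_im, Complex.star_def, Complex.conj_re, Complex.conj_im]; ring

/-- the value of a column type -/
noncomputable def col (j : ℕ) (A : ℂ) : ℝ := if j % 2 = 0 then A.re else A.im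

lemma cyc_apply (i : Fin (d + 3)) (j : Fin d) :
    cyc d i j = Real.sqrt (2 / (d : ℝ)) * col j.val (ph (j.val / 2 + 1) i) := by
  unfold col
  show Real.sqrt (2 / (d : ℝ)) * _ = _
  congr 1
  split_ifs
  · rw [ph_re]
  · rw [ph_im]

lemma sum_col_col (j k : ℕ) (hj : j < d) (hk : k < d) (hd : Even d) :
    ∑ i : Fin (d + 3), col j (ph (j / 2 + 1) i) * col k (ph (k / 2 + 1) i) =
      if j = k then ((d : ℝ) + 3) / 2 else 0 := by
  obtain ⟨m, hm⟩ := hd
  set a := j / 2 + 1 with ha
  set b := k / 2 + 1 with hb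
  have hprod : ∑ i : Fin (d + 3), ph a i * ph b i = 0 := by
    simp_rw [ph_mul]
    exact sum_ph _ (by omega) (by omega)
  have hp1 : ∑ i : Fin (d + 3), (ph a i * ph b i).re = 0 := by
    rw [← Complex.re_sum, hprod, Complex.zero_re]
  have hp2 : ∑ i : Fin (d + 3), (ph a i * ph b i).im = 0 := by
    rw [← Complex.im_sum, hprod, Complex.zero_im]
  by_cases hab : a = b
  · have hs1 : ∑ i : Fin (d + 3), (ph a i * star (ph b i)).re = (d : ℝ) + 3 := by
      rw [← Complex.re_sum, ← hab, sum_ph_star_self]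
      simp
    have hs2 : ∑ i : Fin (d + 3), (ph a i * star (ph b i)).im = 0 := by
      rw [← Complex.im_sum, ← hab, sum_ph_star_self]
      simp
    unfold col
    rcases Nat.mod_two_eq_zero_or_one j with h1 | h1 <;> rcases Nat.mod_two_eq_zero_or_one k with h2 | h2
    · rw [if_pos (show j = k by omega)]
      simp only [h1, h2, if_true]
      simp_rw [re_re_id]
      rw [← Finset.sum_div, Finset.sum_add_distrib, hs1, hp1]; ring
    · rw [if_neg (show j ≠ k by omega)]
      simp only [h1, h2, if_true, one_ne_zero, if_false]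
      simp_rw [re_im_id]
      rw [← Finset.sum_div, Finset.sum_sub_distrib, hs2, hp2]; ring
    · rw [if_neg (show j ≠ k by omega)]
      simp only [h1, h2, if_true, one_ne_zero, if_false]
      have : ∀ i : Fin (d + 3), (ph a i).im * (ph b i).re = ((ph a i * ph b i).im + (ph a i * star (ph b i)).im) / 2 := by
        intro i
        simp only [Complex.mul_im, Complex.star_def, Complex.conj_re, Complex.conj_im]; ring
      simp_rw [this]
      rw [← Finset.sum_div, Finset.sum_add_distrib, hs2, hp2]; ring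
    · rw [if_pos (show j = k by omega)]
      simp only [h1, h2, one_ne_zero, if_false]
      simp_rw [im_im_id]
      rw [← Finset.sum_div, Finset.sum_sub_distrib, hs1, hp1]; ring
  · have hs := sum_ph_star (d := d) a b (by omega) (by omega) hab
    have hs1 : ∑ i : Fin (d + 3), (ph a i * star (ph b i)).re = 0 := by
      rw [← Complex.re_sum, hs, Complex.zero_re]
    have hs2 : ∑ i : Fin (d + 3), (ph a i * star (ph b i)).im = 0 := by
      rw [← Complex.im_sum, hs, Complex.zero_im]
    rw [if_neg (show j ≠ k by intro h; exact hab (by rw [ha, hb, h]))]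
    unfold col
    rcases Nat.mod_two_eq_zero_or_one j with h1 | h1 <;> rcases Nat.mod_two_eq_zero_or_one k with h2 | h2
    · simp only [h1, h2, if_true]
      simp_rw [re_re_id]
      rw [← Finset.sum_div, Finset.sum_add_distrib, hs1, hp1]; ring
    · simp only [h1, h2, if_true, one_ne_zero, if_false]
      simp_rw [re_im_id]
      rw [← Finset.sum_div, Finset.sum_sub_distrib, hs2, hp2]; ring
    · simp only [h1, h2, if_true, one_ne_zero, if_false]
      have : ∀ i : Fin (d + 3), (ph a i).im * (ph b i).re = ((ph a i * ph b i).im + (ph a i * star (ph b i)).im) / 2 := by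
        intro i
        simp only [Complex.mul_im, Complex.star_def, Complex.conj_re, Complex.conj_im]; ring
      simp_rw [this]
      rw [← Finset.sum_div, Finset.sum_add_distrib, hs2, hp2]; ring
    · simp only [h1, h2, one_ne_zero, if_false]
      simp_rw [im_im_id]
      rw [← Finset.sum_div, Finset.sum_sub_distrib, hs1, hp1]; ring

lemma sum_col (j : ℕ) (hj : j < d) : ∑ i : Fin (d + 3), col j (ph (j / 2 + 1) i) = 0 := by
  unfold col
  rcases Nat.mod_two_eq_zero_or_one j with h1 | h1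
  · simp only [h1, if_true]
    exact sum_re _ (by omega) (by omega)
  · simp only [h1, one_ne_zero, if_false]
    exact sum_im _ (by omega) (by omega)

/-- the Gram matrix of the regular configuration -/
lemma gram_cyc (hd : Even d) (hd0 : 0 < d) : gram (cyc d) = diagonal (tgt d) := by
  have hd' : (0 : ℝ) < d := by exact_mod_cast hd0
  have hsq : Real.sqrt (2 / (d : ℝ)) * Real.sqrt (2 / (d : ℝ)) = 2 / (d : ℝ) :=
    Real.mul_self_sqrt (by positivity)
  ext j k
  unfold gram
  rw [Matrix.mul_apply]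
  simp only [Matrix.transpose_apply]
  refine Fin.cases ?_ (fun j => ?_) j
  · refine Fin.cases ?_ (fun k => ?_) k
    · simp [tgt]
    · rw [Matrix.diagonal_apply_ne _ (Fin.succ_ne_zero k).symm]
      simp only [aug_zero, aug_succ, one_mul, cyc_apply]
      rw [← Finset.mul_sum, sum_col k.val k.isLt, mul_zero]
  · refine Fin.cases ?_ (fun k => ?_) k
    · rw [Matrix.diagonal_apply_ne _ (Fin.succ_ne_zero j)]
      simp only [aug_zero, aug_succ, mul_one, cyc_apply]
      rw [← Finset.mul_sum, sum_col j.val j.isLt, mul_zero]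
    · simp only [aug_succ, cyc_apply]
      have e : ∀ i : Fin (d + 3), Real.sqrt (2 / (d : ℝ)) * col j.val (ph (j.val / 2 + 1) i) *
          (Real.sqrt (2 / (d : ℝ)) * col k.val (ph (k.val / 2 + 1) i))
          = (2 / (d : ℝ)) * (col j.val (ph (j.val / 2 + 1) i) * col k.val (ph (k.val / 2 + 1) i)) := by
        intro i
        linear_combination (col j.val (ph (j.val / 2 + 1) i) * col k.val (ph (k.val / 2 + 1) i)) * hsq
      simp_rw [e]
      rw [← Finset.mul_sum, sum_col_col j.val k.val j.isLt k.isLt hd]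
      by_cases hjk : j = k
      · subst hjk
        rw [if_pos rfl, Matrix.diagonal_apply_eq]
        simp only [tgt, Fin.cons_succ]
        field_simp
      · rw [if_neg (fun h => hjk (Fin.ext h)), mul_zero,
          Matrix.diagonal_apply_ne _ (fun h => hjk (Fin.succ_injective _ h))]

lemma norm_cyc (hd : Even d) (hd0 : 0 < d) (i : Fin (d + 3)) : ‖cyc d i‖ = 1 := by
  have hd' : (0 : ℝ) < d := by exact_mod_cast hd0
  obtain ⟨m, hm⟩ := hd
  have h1 := EuclideanSpace.norm_sq_eq (cyc d i)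
  set F : ℕ → ℝ := fun j => (2 / (d : ℝ)) * col j (ph (j / 2 + 1) i) ^ 2 with hF
  have h2 : ∑ j : Fin d, ‖cyc d i j‖ ^ 2 = ∑ j ∈ Finset.range d, F j := by
    rw [Finset.sum_range]
    refine Finset.sum_congr rfl fun j _ => ?_
    rw [cyc_apply, Real.norm_eq_abs, sq_abs, mul_pow, Real.sq_sqrt (by positivity)]
  have h3 : ∀ r : ℕ, ∑ j ∈ Finset.range (2 * r), F j = r * (2 / (d : ℝ)) := by
    intro r
    induction r with
    | zero => simp
    | succ r ih =>
      rw [show 2 * (r + 1) = 2 * r + 1 + 1 by ring, Finset.sum_range_succ, Finset.sum_range_succ, ih]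
      have hF1 : F (2 * r) = (2 / (d : ℝ)) * (ph (r + 1) i).re ^ 2 := by
        simp only [hF, col]
        rw [if_pos (by omega), show 2 * r / 2 = r by omega]
      have hF2 : F (2 * r + 1) = (2 / (d : ℝ)) * (ph (r + 1) i).im ^ 2 := by
        simp only [hF, col]
        rw [if_neg (by omega), show (2 * r + 1) / 2 = r by omega]
      have hn : (ph (r + 1) i).re ^ 2 + (ph (r + 1) i).im ^ 2 = 1 := by
        rw [ph_re, ph_im, Real.cos_sq_add_sin_sq]
      rw [hF1, hF2]
      push_cast
      linear_combination (2 / (d : ℝ)) * hn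
  have h4 : d = 2 * m := by omega
  rw [h2] at h1
  have h5 : ∑ j ∈ Finset.range d, F j = 1 := by
    conv_lhs => rw [h4]
    rw [h3]
    have : (d : ℝ) = 2 * m := by exact_mod_cast h4
    have hm0 : (m : ℝ) ≠ 0 := by
      intro h0; rw [h0] at this; linarith
    rw [this]
    field_simp
  rw [h5] at h1
  have h6 : 0 ≤ ‖cyc d i‖ := norm_nonneg _
  nlinarith

/-- the scale of the dual -/
noncomputable def sc (d : ℕ) : ℂ := ((Real.sqrt (2 / ((d : ℝ) + 3)) : ℝ) : ℂ)

lemma reg_eq_ph (c : ℂ) (i : Fin (d + 3)) : (reg c : ZMod (d + 3) → ℂ) i = c * ph (hh d) i := by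
  unfold reg ph
  congr 2
  push_cast
  congr 1
  exact (ZMod.natCast_zmod_val (n := d + 3) i).symm

lemma gale_cyc (hd : Even d) (hd0 : 0 < d) :
    Gale (cyc d) (fun i => (reg (sc d) : ZMod (d + 3) → ℂ) i) := by
  have hpar := hd
  obtain ⟨m, hm⟩ := hd
  have hh1 : hh d = m + 2 := by unfold hh; omega
  have h3 : (0 : ℝ) < (d : ℝ) + 3 := by positivity
  have hsq : Real.sqrt (2 / ((d : ℝ) + 3)) * Real.sqrt (2 / ((d : ℝ) + 3)) = 2 / ((d : ℝ) + 3) :=
    Real.mul_self_sqrt (by positivity)
  have hcol : ∀ j : ℕ, j < d → ∑ i : Fin (d + 3), ((col j (ph (j / 2 + 1) i) : ℝ) : ℂ) * ph (hh d) i = 0 := by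
    intro j hj
    set a := j / 2 + 1 with ha
    have s1 : ∑ i : Fin (d + 3), ph (hh d) i * ph a i = 0 := by
      simp_rw [ph_mul]
      exact sum_ph _ (by omega) (by omega)
    have s2 : ∑ i : Fin (d + 3), ph (hh d) i * star (ph a i) = 0 :=
      sum_ph_star _ _ (by omega) (by omega) (by omega)
    unfold col
    rcases Nat.mod_two_eq_zero_or_one j with h1 | h1
    · simp only [h1, if_true]
      have : ∀ i : Fin (d + 3), (((ph a i).re : ℝ) : ℂ) * ph (hh d) i
          = (1 / 2) * (ph (hh d) i * ph a i) + (1 / 2) * (ph (hh d) i * star (ph a i)) := by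
        intro i
        rw [Complex.re_eq_add_conj, Complex.star_def]
        ring
      simp_rw [this]
      rw [Finset.sum_add_distrib, ← Finset.mul_sum, ← Finset.mul_sum, s1, s2]; ring
    · simp only [h1, one_ne_zero, if_false]
      have : ∀ i : Fin (d + 3), (((ph a i).im : ℝ) : ℂ) * ph (hh d) i
          = (1 / (2 * Complex.I)) * (ph (hh d) i * ph a i)
            - (1 / (2 * Complex.I)) * (ph (hh d) i * star (ph a i)) := by
        intro i
        rw [Complex.im_eq_sub_conj, Complex.star_def]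
        ring
      simp_rw [this]
      rw [Finset.sum_sub_distrib, ← Finset.mul_sum, ← Finset.mul_sum, s1, s2]; ring
  have hsum2 : ∑ i : Fin (d + 3), (sc d * ph (hh d) i) * (sc d * ph (hh d) i) = 0 := by
    have : ∀ i : Fin (d + 3), (sc d * ph (hh d) i) * (sc d * ph (hh d) i)
        = (sc d * sc d) * (ph (hh d) i * ph (hh d) i) := by intro i; ring
    simp_rw [this]
    rw [← Finset.mul_sum]
    have e : ∑ i : Fin (d + 3), ph (hh d) i * ph (hh d) i = 0 := by
      have h := sum_ch_nat (d := d) (1 : ZMod (d + 3))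
      have hne : (1 : ZMod (d + 3)) ≠ 0 := by
        have : Fact (1 < d + 3) := ⟨by omega⟩
        exact one_ne_zero
      rw [if_neg hne] at h
      rw [← h]
      refine Finset.sum_congr rfl fun i _ => ?_
      rw [ph_mul]
      unfold ph
      congr 1
      have h2 := hh_two hpar
      push_cast
      linear_combination ((i.val : ℕ) : ZMod (d + 3)) * h2
    rw [e, mul_zero]
  have hsumn : ∑ i : Fin (d + 3), (sc d * ph (hh d) i) * star (sc d * ph (hh d) i) = 2 := by
    have : ∀ i : Fin (d + 3), (sc d * ph (hh d) i) * star (sc d * ph (hh d) i)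
        = ((2 / ((d : ℝ) + 3) : ℝ) : ℂ) * (ph (hh d) i * star (ph (hh d) i)) := by
      intro i
      rw [star_mul', ← hsq]
      unfold sc
      rw [Complex.star_def, Complex.conj_ofReal]
      push_cast
      ring
    simp_rw [this]
    rw [← Finset.mul_sum, sum_ph_star_self]
    have h3c : ((d : ℂ) + 3) ≠ 0 := by exact_mod_cast h3.ne'
    push_cast
    field_simp
  simp_rw [reg_eq_ph]
  refine ⟨fun j => ?_, ?_, ?_, ?_⟩
  · refine Fin.cases ?_ (fun j => ?_) j
    · simp only [aug_zero, Complex.ofReal_one, one_mul]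
      rw [← Finset.mul_sum, sum_ph _ (by omega) (by omega), mul_zero]
    · simp only [aug_succ, cyc_apply]
      have : ∀ i : Fin (d + 3), ((Real.sqrt (2 / (d : ℝ)) * col j.val (ph (j.val / 2 + 1) i) : ℝ) : ℂ)
          * (sc d * ph (hh d) i) = ((Real.sqrt (2 / (d : ℝ)) : ℝ) : ℂ) * sc d *
            (((col j.val (ph (j.val / 2 + 1) i) : ℝ) : ℂ) * ph (hh d) i) := by
        intro i; push_cast; ring
      simp_rw [this]
      rw [← Finset.mul_sum, hcol j.val j.isLt, mul_zero]
  · have e1 := congrArg Complex.re hsum2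
    have e2 := congrArg Complex.re hsumn
    rw [Complex.re_sum] at e1 e2
    simp_rw [re_re_id]
    rw [← Finset.sum_div, Finset.sum_add_distrib, e1, e2]
    norm_num
  · have e1 := congrArg Complex.re hsum2
    have e2 := congrArg Complex.re hsumn
    rw [Complex.re_sum] at e1 e2
    simp_rw [im_im_id]
    rw [← Finset.sum_div, Finset.sum_sub_distrib, e1, e2]
    norm_num
  · have e1 := congrArg Complex.im hsum2
    have e2 := congrArg Complex.im hsumn
    rw [Complex.im_sum] at e1 e2
    simp_rw [re_im_id]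
    rw [← Finset.sum_div, Finset.sum_sub_distrib, e1, e2]
    norm_num

lemma pos_cyc (hd : Even d) (hd0 : 0 < d) :
    Pos (fun i : Fin (d + 3) => (reg (sc d) : ZMod (d + 3) → ℂ) i) := by
  obtain ⟨m, hm⟩ := hd
  have h3 : (0 : ℝ) < (d : ℝ) + 3 := by positivity
  have he : ∀ i : Fin (d + 3), ee (fun i : Fin (d + 3) => (reg (sc d) : ZMod (d + 3) → ℂ) i) i
      = ((Real.sqrt (2 / ((d : ℝ) + 3)) : ℝ) : ℂ) *
        Complex.exp (((Real.pi * i.val / ((d : ℝ) + 3) : ℝ) : ℂ) * Complex.I) := by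
    intro i
    unfold ee
    show (((-1 : ℝ) ^ i.val : ℝ) : ℂ) * ((reg (sc d) : ZMod (d + 3) → ℂ) i) = _
    rw [reg_eq_ph]
    unfold ph sc
    rw [ch_nat]
    have h2 : (2 : ℝ) * (hh d : ℝ) = (d : ℝ) + 3 + 1 := by
      have : 2 * hh d = d + 3 + 1 := by unfold hh; omega
      exact_mod_cast this
    have e1 : (2 * Real.pi * ((hh d * i.val : ℕ) : ℝ) / ((d : ℝ) + 3))
        = Real.pi * i.val / ((d : ℝ) + 3) + i.val * Real.pi := by
      push_cast
      field_simp
      linear_combination (i.val : ℝ) * h2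
    rw [e1]
    have e2 : Complex.exp (((Real.pi * i.val / ((d : ℝ) + 3) + i.val * Real.pi : ℝ) : ℂ) * Complex.I)
        = Complex.exp (((Real.pi * i.val / ((d : ℝ) + 3) : ℝ) : ℂ) * Complex.I) * (-1) ^ i.val := by
      rw [Complex.ofReal_add, add_mul, Complex.exp_add]
      congr 1
      rw [← Complex.exp_pi_mul_I, ← Complex.exp_nat_mul]
      congr 1
      push_cast
      ring
    rw [e2]
    have e3 : (((-1 : ℝ) ^ i.val : ℝ) : ℂ) * (-1 : ℂ) ^ i.val = 1 := by
      push_cast
      rw [← mul_pow]; norm_num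
    linear_combination (((Real.sqrt (2 / ((d : ℝ) + 3)) : ℝ) : ℂ) *
        Complex.exp (((Real.pi * i.val / ((d : ℝ) + 3) : ℝ) : ℂ) * Complex.I)) * e3
  intro i j hij
  rw [he i, he j, wdg_real_mul_left, wdg_real_mul_right]
  have hs : 0 < Real.sqrt (2 / ((d : ℝ) + 3)) := Real.sqrt_pos.2 (by positivity)
  have hw : wdg (Complex.exp (((Real.pi * i.val / ((d : ℝ) + 3) : ℝ) : ℂ) * Complex.I))
      (Complex.exp (((Real.pi * j.val / ((d : ℝ) + 3) : ℝ) : ℂ) * Complex.I))
      = Real.sin (Real.pi * j.val / ((d : ℝ) + 3) - Real.pi * i.val / ((d : ℝ) + 3)) := by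
    unfold wdg
    rw [Complex.exp_ofReal_mul_I_re, Complex.exp_ofReal_mul_I_im, Complex.exp_ofReal_mul_I_re,
      Complex.exp_ofReal_mul_I_im, Real.sin_sub]
    ring
  rw [hw]
  have hij' : (i.val : ℝ) < j.val := by exact_mod_cast hij
  have hj3 : (j.val : ℝ) < (d : ℝ) + 3 := by exact_mod_cast j.isLt
  have hi0 : (0 : ℝ) ≤ i.val := Nat.cast_nonneg _
  have hpi := Real.pi_pos
  have : 0 < Real.sin (Real.pi * j.val / ((d : ℝ) + 3) - Real.pi * i.val / ((d : ℝ) + 3)) := by
    apply Real.sin_pos_of_pos_of_lt_pi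
    · rw [← sub_div]
      apply div_pos _ h3
      nlinarith
    · rw [← sub_div, div_lt_iff₀ h3]
      nlinarith
  positivity

lemma gram_cyc_det (hd : Even d) (hd0 : 0 < d) : (gram (cyc d)).det = dstar d := by
  rw [gram_cyc hd hd0, Matrix.det_diagonal]
  rfl

lemma sum_norm_gale {p : Fin (d + 3) → EE d} {g : Fin (d + 3) → ℂ} (h : Gale p g) :
    ∑ i, ‖g i‖ ^ 2 = 2 := by
  have : ∀ i, ‖g i‖ ^ 2 = (g i).re * (g i).re + (g i).im * (g i).im := by
    intro i
    rw [Complex.sq_norm, Complex.normSq_apply]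
  simp_rw [this]
  rw [Finset.sum_add_distrib, h.re_re, h.im_im]
  norm_num

/-- the extremal volume -/
theorem vol_cyc (hd : Even d) (hd0 : 0 < d) :
    volume.real (convexHull ℝ (Set.range (cyc d))) =
      cv d * Real.sqrt (dstar d) * (1 / (2 * sn d)) := by
  have hD : (gram (cyc d)).det ≠ 0 := by
    rw [gram_cyc_det hd hd0]; exact (dstar_pos hd0).ne'
  rw [vol_eq hd hd0 (gale_cyc hd hd0) hD (pos_cyc hd hd0), gram_cyc_det hd hd0]
  congr 1
  have h1 := SS_reg hd (sc d)
  have h2 := sum_norm_gale (gale_cyc hd hd0)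
  have h3 : ∑ j : ZMod (d + 3), ‖(reg (sc d) j : ℂ)‖ ^ 2 = 2 := h2
  rw [h3] at h1
  have hs := sn_pos (d := d)
  show SS (reg (sc d) : ZMod (d + 3) → ℂ) = _
  field_simp
  linarith

lemma cyc_injective (hd : Even d) (hd0 : 0 < d) : Function.Injective (cyc d) := by
  obtain ⟨m, hm⟩ := hd
  intro i j hij
  have h0 : 0 < d := hd0
  have h1 : 1 < d := by omega
  have hd' : (0 : ℝ) < d := by exact_mod_cast hd0
  have hs : Real.sqrt (2 / (d : ℝ)) ≠ 0 := (Real.sqrt_pos.2 (by positivity)).ne'
  have e0 := congrArg (fun v : EE d => v ⟨0, h0⟩) hij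
  have e1 := congrArg (fun v : EE d => v ⟨1, h1⟩) hij
  simp only [cyc_apply, col] at e0 e1
  have f0 := mul_left_cancel₀ hs e0
  have f1 := mul_left_cancel₀ hs e1
  norm_num at f0 f1
  have hph : ph 1 i = ph 1 j := Complex.ext f0 f1
  unfold ph ch at hph
  have := ZMod.injective_stdAddChar hph
  rw [one_mul, one_mul] at this
  have h2 := congrArg ZMod.val this
  rw [ZMod.val_natCast_of_lt i.isLt, ZMod.val_natCast_of_lt j.isLt] at h2
  exact Fin.ext h2

lemma cyc_span (hd : Even d) (hd0 : 0 < d) : affineSpan ℝ (Set.range (cyc d)) = ⊤ := by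
  by_contra hne
  have h1 : volume (convexHull ℝ (Set.range (cyc d))) = 0 :=
    measure_mono_null (convexHull_subset_affineSpan _) (Measure.addHaar_affineSubspace volume _ hne)
  have h2 := vol_cyc hd hd0
  rw [measureReal_def, h1, ENNReal.toReal_zero] at h2
  have hs := sn_pos (d := d)
  have h3 : 0 < cv d * Real.sqrt (dstar d) * (1 / (2 * sn d)) := by
    have := vol_ev_pos d
    have h4 : 0 < cv d := this
    have h5 : 0 < Real.sqrt (dstar d) := Real.sqrt_pos.2 (dstar_pos hd0)
    positivity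
  linarith

/-- combinatorial type of a cyclic polytope -/
def IsCyc (p : Fin (d + 3) → EE d) : Prop :=
  ∃ t : Fin (d + 3) → ℝ, Function.Injective t ∧
    ∀ S : Set (Fin (d + 3)), IsFace p S ↔ IsFace (fun i => mom d (t i)) S

lemma cyc_isCyc (hd : Even d) (hd0 : 0 < d) : IsCyc (cyc d) := by
  have hmono : StrictMono fun i : Fin (d + 3) => (i.val : ℝ) := by
    intro i j hij
    exact Nat.cast_lt.2 hij
  refine ⟨fun i => (i.val : ℝ), hmono.injective, fun S => ?_⟩
  have hD : (gram (cyc d)).det ≠ 0 := by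
    rw [gram_cyc_det hd hd0]; exact (dstar_pos hd0).ne'
  rw [face_iff (gale_cyc hd hd0) hD (pos_cyc hd hd0) S]
  have hAlt : AltFaces (fun i : Fin (d + 3) => mom d ((i.val : ℝ))) := fun a b c hab hbc h1 h2 =>
    mom_face hd _ hmono hab hbc h1 h2
  obtain ⟨g, hg, hpos⟩ := exists_pos hd hAlt
  rw [face_iff hg (gram_mom_ne _ hmono.injective) hpos S]

end Pool.Agent.K3h40.Cyc
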