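import Pool.Agent.K3h40.Cyc.Vol

/-! Faces, the moment curve, and sign patterns. -/

namespace Pool.Agent.K3h40.Cyc

open Finset Matrix

variable {d : ℕ}

/-- `S` is the index set of the vertices of a face of the convex hull of the points `p i` -/
def IsFace {d n : ℕ} (p : Fin n → EE d) (S : Set (Fin n)) : Prop :=
  ∃ (f : EE d →ₗ[ℝ] ℝ) (c : ℝ), (∀ i ∈ S, f (p i) = c) ∧ ∀ i, i ∉ S → f (p i) < c

/-- the moment curve -/
noncomputable def mom (d : ℕ) (t : ℝ) : EE d := WithLp.toLp 2 fun j : Fin d => t ^ (j.val + 1)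

lemma mom_apply (t : ℝ) (j : Fin d) : mom d t j = t ^ (j.val + 1) := rfl

/-- linear functional with given coefficients -/
noncomputable def lf (w : Fin d → ℝ) : EE d →ₗ[ℝ] ℝ :=
  (Fintype.linearCombination ℝ w) ∘ₗ (WithLp.linearEquiv 2 ℝ (Fin d → ℝ)).toLinearMap

lemma lf_apply (w : Fin d → ℝ) (v : EE d) : lf w v = ∑ j, v j * w j := by
  simp [lf, Fintype.linearCombination_apply]

lemma apply_eq_sum (f : EE d →ₗ[ℝ] ℝ) (v : EE d) :
    f v = ∑ j, v j * f (EuclideanSpace.single j 1) := by
  have h : v = ∑ j, v j • EuclideanSpace.single j (1 : ℝ) := by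
    ext i
    simp [WithLp.ofLp_sum, Finset.sum_apply, Pi.single_apply]
  conv_lhs => rw [h]
  rw [map_sum]
  simp

lemma face_rel {p : Fin (d + 3) → EE d} {g : Fin (d + 3) → ℂ} (h : Gale p g)
    {S : Set (Fin (d + 3))} (hS : IsFace p S) :
    ∃ y : Fin (d + 3) → ℝ, (∀ i ∈ S, y i = 0) ∧ (∀ i, i ∉ S → 0 < y i) ∧
      ∑ i, (y i : ℂ) * g i = 0 := by
  obtain ⟨f, c, h1, h2⟩ := hS
  refine ⟨fun i => c - f (p i), fun i hi => by simp [h1 i hi], fun i hi => by
    have := h2 i hi; linarith, ?_⟩
  have h3 : ∑ i, ((f (p i) : ℝ) : ℂ) * g i = 0 := by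
    have e : ∀ i, ((f (p i) : ℝ) : ℂ) * g i
        = ∑ j : Fin d, (f (EuclideanSpace.single j 1) : ℂ) * ((aug p i j.succ : ℂ) * g i) := by
      intro i
      rw [apply_eq_sum f (p i)]
      push_cast
      rw [Finset.sum_mul]
      refine Finset.sum_congr rfl fun j _ => ?_
      rw [aug_succ]; ring
    simp_rw [e]
    rw [Finset.sum_comm]
    refine Finset.sum_eq_zero fun j _ => ?_
    rw [← Finset.mul_sum, h.sum_g, mul_zero]
  push_cast
  simp_rw [sub_mul]
  rw [Finset.sum_sub_distrib, ← Finset.mul_sum, h.sum, mul_zero, h3, sub_zero]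

lemma face_of_rel {p : Fin (d + 3) → EE d} {g : Fin (d + 3) → ℂ} (h : Gale p g)
    (hD : (gram p).det ≠ 0) {S : Set (Fin (d + 3))} (y : Fin (d + 3) → ℝ)
    (h0 : ∀ i ∈ S, y i = 0) (h1 : ∀ i, i ∉ S → 0 < y i) (h2 : ∑ i, (y i : ℂ) * g i = 0) :
    IsFace p S := by
  obtain ⟨w, hw⟩ := range_eq h hD y h2
  have e : ∀ i, lf (fun j : Fin d => -w j.succ) (p i) = w 0 - y i := by
    intro i
    rw [lf_apply, hw i, Fin.sum_univ_succ]
    simp
  refine ⟨lf (fun j : Fin d => -w j.succ), w 0, fun i hi => ?_, fun i hi => ?_⟩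
  · rw [e, h0 i hi, sub_zero]
  · rw [e]; linarith [h1 i hi]

/-! ### the moment curve satisfies the evenness condition -/

lemma mom_face (hd : Even d) (t : Fin (d + 3) → ℝ) (ht : StrictMono t) {a b c : Fin (d + 3)}
    (hab : a < b) (hbc : b < c) (hpab : (a.val + b.val) % 2 = 1) (hpbc : (b.val + c.val) % 2 = 1) :
    IsFace (fun i => mom d (t i)) ({a, b, c}ᶜ : Set (Fin (d + 3))) := by
  classical
  set T : Finset (Fin (d + 3)) := {a, b, c}ᶜ with hT
  have hmemT : ∀ i, i ∈ T ↔ i ≠ a ∧ i ≠ b ∧ i ≠ c := by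
    intro i
    rw [hT, Finset.mem_compl]
    simp [not_or]
  have hcardT : T.card = d := by
    rw [hT, Finset.card_compl, Fintype.card_fin,
      Finset.card_eq_three.2 ⟨a, b, c, hab.ne, (hab.trans hbc).ne, hbc.ne, rfl⟩]
    omega
  set P : Polynomial ℝ := ∏ i ∈ T, (Polynomial.X - Polynomial.C (t i)) with hP
  have hdeg : P.natDegree = d := by
    rw [hP, Polynomial.natDegree_finsetProd_X_sub_C_eq_card, hcardT]
  have heval : ∀ x, P.eval x = ∏ i ∈ T, (x - t i) := by
    intro x
    rw [hP, Polynomial.eval_prod]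
    simp
  -- sign
  have hsign : ∀ x : Fin (d + 3), x ∉ T →
      0 < (-1 : ℝ) ^ (T.filter fun i => x < i).card * P.eval (t x) := by
    intro x hx
    have h1 : (-1 : ℝ) ^ (T.filter fun i => x < i).card = ∏ i ∈ T, (if x < i then (-1 : ℝ) else 1) := by
      rw [Finset.prod_ite, Finset.prod_const, Finset.prod_const_one, mul_one]
    rw [h1, heval, ← Finset.prod_mul_distrib]
    refine Finset.prod_pos fun i hi => ?_
    have hne : i ≠ x := fun h => hx (h ▸ hi)
    rcases lt_or_gt_of_ne hne with h | h
    · rw [if_neg (not_lt.2 h.le), one_mul]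
      linarith [ht h]
    · rw [if_pos h]
      linarith [ht h]
  have hcount : ∀ x : Fin (d + 3), (T.filter fun i => x < i).card
      + (({a, b, c} : Finset (Fin (d + 3))).filter fun i => x < i).card = d + 2 - x.val := by
    intro x
    have h1 : (Finset.univ.filter fun i => x < i).card = d + 2 - x.val := by
      have : (Finset.univ.filter fun i => x < i) = Finset.Ioi x := by ext; simp
      rw [this, Fin.card_Ioi]
      omega
    rw [← h1, ← Finset.card_union_of_disjoint]
    · congr 1
      ext i
      simp only [Finset.mem_union, Finset.mem_filter, Finset.mem_univ, true_and, hmemT]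
      simp only [Finset.mem_insert, Finset.mem_singleton]
      tauto
    · rw [Finset.disjoint_left]
      intro i hi hi'
      rw [Finset.mem_filter, hT, Finset.mem_compl] at hi
      rw [Finset.mem_filter] at hi'
      exact hi.1 hi'.1
  have hac := hab.trans hbc
  have ca : (({a, b, c} : Finset (Fin (d + 3))).filter fun i => a < i).card = 2 := by
    have : (({a, b, c} : Finset (Fin (d + 3))).filter fun i => a < i) = {b, c} := by
      ext i
      simp only [Finset.mem_filter, Finset.mem_insert, Finset.mem_singleton]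
      constructor
      · rintro ⟨rfl | rfl | rfl, h⟩
        · exact absurd h (lt_irrefl _)
        · exact Or.inl rfl
        · exact Or.inr rfl
      · rintro (rfl | rfl)
        · exact ⟨Or.inr (Or.inl rfl), hab⟩
        · exact ⟨Or.inr (Or.inr rfl), hac⟩
    rw [this, Finset.card_pair hbc.ne]
  have cb : (({a, b, c} : Finset (Fin (d + 3))).filter fun i => b < i).card = 1 := by
    have : (({a, b, c} : Finset (Fin (d + 3))).filter fun i => b < i) = {c} := by
      ext i
      simp only [Finset.mem_filter, Finset.mem_insert, Finset.mem_singleton]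
      constructor
      · rintro ⟨rfl | rfl | rfl, h⟩
        · exact absurd h (not_lt.2 hab.le)
        · exact absurd h (lt_irrefl _)
        · rfl
      · rintro rfl
        exact ⟨Or.inr (Or.inr rfl), hbc⟩
    rw [this, Finset.card_singleton]
  have cc : (({a, b, c} : Finset (Fin (d + 3))).filter fun i => c < i).card = 0 := by
    rw [Finset.card_eq_zero, Finset.filter_eq_empty_iff]
    intro i hi
    simp only [Finset.mem_insert, Finset.mem_singleton] at hi
    rcases hi with rfl | rfl | rfl
    · exact not_lt.2 hac.le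
    · exact not_lt.2 hbc.le
    · exact lt_irrefl _
  have ha3 := a.isLt
  have hb3 := b.isLt
  have hc3 := c.isLt
  have hab' : a.val < b.val := hab
  have hbc' : b.val < c.val := hbc
  obtain ⟨r, hr⟩ := hd
  have key : ∀ x, x = a ∨ x = b ∨ x = c → 0 < (-1 : ℝ) ^ c.val * P.eval (t x) := by
    intro x hx
    have hxT : x ∉ T := by
      rw [hmemT]; rintro ⟨h1, h2, h3⟩
      rcases hx with h | h | h
      · exact h1 h
      · exact h2 h
      · exact h3 h
    have h1 := hsign x hxT
    have h2 : (-1 : ℝ) ^ (T.filter fun i => x < i).card = (-1 : ℝ) ^ c.val := by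
      have h3 := hcount x
      rcases hx with rfl | rfl | rfl
      · rw [ca] at h3
        rcases Nat.even_or_odd c.val with hc | hc
        · rw [Even.neg_one_pow hc, Even.neg_one_pow]
          rw [Nat.even_iff] at hc ⊢; omega
        · rw [Odd.neg_one_pow hc, Odd.neg_one_pow]
          rw [Nat.odd_iff] at hc ⊢; omega
      · rw [cb] at h3
        rcases Nat.even_or_odd c.val with hc | hc
        · rw [Even.neg_one_pow hc, Even.neg_one_pow]
          rw [Nat.even_iff] at hc ⊢; omega
        · rw [Odd.neg_one_pow hc, Odd.neg_one_pow]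
          rw [Nat.odd_iff] at hc ⊢; omega
      · rw [cc] at h3
        rcases Nat.even_or_odd x.val with hc | hc
        · rw [Even.neg_one_pow hc, Even.neg_one_pow]
          rw [Nat.even_iff] at hc ⊢; omega
        · rw [Odd.neg_one_pow hc, Odd.neg_one_pow]
          rw [Nat.odd_iff] at hc ⊢; omega
    rw [h2] at h1
    exact h1
  have hsumP : ∀ x : ℝ, P.eval x = P.coeff 0 + ∑ j : Fin d, x ^ (j.val + 1) * P.coeff (j.val + 1) := by
    intro x
    rw [Polynomial.eval_eq_sum_range' (n := d + 1) (by omega), Finset.sum_range,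
      Fin.sum_univ_succ]
    simp only [Fin.val_zero, pow_zero, mul_one, Fin.val_succ]
    congr 1
    refine Finset.sum_congr rfl fun j _ => by ring
  have e : ∀ x : ℝ, lf (fun j : Fin d => -((-1 : ℝ) ^ c.val * P.coeff (j.val + 1))) (mom d x)
      = (-1 : ℝ) ^ c.val * P.coeff 0 - (-1 : ℝ) ^ c.val * P.eval x := by
    intro x
    rw [lf_apply, hsumP x]
    simp only [mom_apply]
    rw [mul_add, Finset.mul_sum]
    have : ∀ j : Fin d, x ^ (j.val + 1) * -((-1 : ℝ) ^ c.val * P.coeff (j.val + 1))
        = -((-1 : ℝ) ^ c.val * (x ^ (j.val + 1) * P.coeff (j.val + 1))) := by intro j; ring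
    simp_rw [this]
    rw [Finset.sum_neg_distrib]
    ring
  refine ⟨lf (fun j : Fin d => -((-1 : ℝ) ^ c.val * P.coeff (j.val + 1))),
    (-1 : ℝ) ^ c.val * P.coeff 0, fun i hi => ?_, fun i hi => ?_⟩
  · rw [e, heval]
    have hiT : i ∈ T := by
      rw [hmemT]
      simpa [not_or] using hi
    rw [Finset.prod_eq_zero hiT (sub_self _), mul_zero, sub_zero]
  · rw [e]
    have hi' : i = a ∨ i = b ∨ i = c := by
      rw [Set.mem_compl_iff, not_not] at hi
      simpa using hi
    linarith [key i hi']

/-! ### from faces to signs -/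

/-- the alternating triples are complements of faces -/
def AltFaces (p : Fin (d + 3) → EE d) : Prop :=
  ∀ a b c : Fin (d + 3), a < b → b < c → (a.val + b.val) % 2 = 1 → (b.val + c.val) % 2 = 1 →
    IsFace p ({a, b, c}ᶜ : Set (Fin (d + 3)))

lemma triple_sum {a b c : Fin (d + 3)} (hab : a < b) (hbc : b < c) (y : Fin (d + 3) → ℝ)
    (g : Fin (d + 3) → ℂ) (h0 : ∀ i ∈ ({a, b, c}ᶜ : Set (Fin (d + 3))), y i = 0) :
    ∑ i, (y i : ℂ) * g i = y a * g a + (y b * g b + y c * g c) := by
  classical
  rw [← Finset.sum_subset (Finset.subset_univ ({a, b, c} : Finset (Fin (d + 3))))]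
  · rw [Finset.sum_insert, Finset.sum_pair hbc.ne]
    simp only [Finset.mem_insert, Finset.mem_singleton, not_or]
    exact ⟨hab.ne, (hab.trans hbc).ne⟩
  · intro i _ hi
    rw [h0 i, Complex.ofReal_zero, zero_mul]
    simpa using hi

lemma triple_rel {p : Fin (d + 3) → EE d} {g : Fin (d + 3) → ℂ} (h : Gale p g)
    {a b c : Fin (d + 3)} (hab : a < b) (hbc : b < c) (hpab : (a.val + b.val) % 2 = 1)
    (hpbc : (b.val + c.val) % 2 = 1) (hf : IsFace p ({a, b, c}ᶜ : Set (Fin (d + 3)))) :
    (∃ κ : ℝ, 0 < κ ∧ wdg (ee g a) (ee g c) = κ * wdg (ee g a) (ee g b)) ∧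
    (∃ κ : ℝ, 0 < κ ∧ wdg (ee g b) (ee g c) = κ * wdg (ee g a) (ee g b)) := by
  obtain ⟨y, h0, h1, h2⟩ := face_rel h hf
  have ya : 0 < y a := h1 a (by simp)
  have yb : 0 < y b := h1 b (by simp)
  have yc : 0 < y c := h1 c (by simp)
  rw [triple_sum hab hbc y g h0] at h2
  have hrel : (y a : ℂ) * ee g a - (y b : ℂ) * ee g b + (y c : ℂ) * ee g c = 0 := by
    rcases Nat.mod_two_eq_zero_or_one a.val with ha | ha
    · have hb : b.val % 2 = 1 := by omega
      have hc : c.val % 2 = 0 := by omega
      rw [g_even (g := g) ha, g_odd (g := g) hb, g_even (g := g) hc] at h2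
      linear_combination h2
    · have hb : b.val % 2 = 0 := by omega
      have hc : c.val % 2 = 1 := by omega
      rw [g_odd (g := g) ha, g_even (g := g) hb, g_odd (g := g) hc] at h2
      linear_combination -h2
  have e1 : y c * wdg (ee g a) (ee g c) = y b * wdg (ee g a) (ee g b) := by
    have := congrArg (fun v => wdg (ee g a) v) hrel
    rw [wdg_add_right, wdg_sub_right, wdg_real_mul_right, wdg_real_mul_right, wdg_real_mul_right,
      wdg_self, wdg_zero_right] at this
    linarith
  have e2 : y c * wdg (ee g b) (ee g c) = y a * wdg (ee g a) (ee g b) := by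
    have := congrArg (fun v => wdg (ee g b) v) hrel
    rw [wdg_add_right, wdg_sub_right, wdg_real_mul_right, wdg_real_mul_right, wdg_real_mul_right,
      wdg_self, wdg_zero_right, wdg_comm (ee g b) (ee g a)] at this
    linarith
  refine ⟨⟨y b / y c, div_pos yb yc, ?_⟩, ⟨y a / y c, div_pos ya yc, ?_⟩⟩
  · field_simp; linarith
  · field_simp; linarith

/-- all signed areas have the sign of the first one -/
lemma all_same {p : Fin (d + 3) → EE d} {g : Fin (d + 3) → ℂ} (hd : Even d) (h : Gale p g)
    (hf : AltFaces p) : ∀ i j : Fin (d + 3), i < j →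
      ∃ κ : ℝ, 0 < κ ∧ wdg (ee g i) (ee g j) = κ * wdg (ee g 0) (ee g 1) := by
  obtain ⟨r, hr⟩ := hd
  -- adjacent
  have hadj : ∀ n : ℕ, ∀ hn : n + 1 < d + 3, ∃ κ : ℝ, 0 < κ ∧
      wdg (ee g ⟨n, by omega⟩) (ee g ⟨n + 1, hn⟩) = κ * wdg (ee g 0) (ee g 1) := by
    intro n
    induction n with
    | zero =>
      intro hn
      refine ⟨1, one_pos, ?_⟩
      rw [one_mul]
      rfl
    | succ n ih =>
      intro hn
      obtain ⟨κ, hκ, h1⟩ := ih (by omega)
      have hab : (⟨n, by omega⟩ : Fin (d + 3)) < ⟨n + 1, by omega⟩ := by simp [Fin.lt_def]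
      have hbc : (⟨n + 1, by omega⟩ : Fin (d + 3)) < ⟨n + 1 + 1, hn⟩ := by simp [Fin.lt_def]
      obtain ⟨-, κ', hκ', h2⟩ := triple_rel h hab hbc (by simp only; omega) (by simp only; omega)
        (hf _ _ _ hab hbc (by simp only; omega) (by simp only; omega))
      refine ⟨κ' * κ, by positivity, ?_⟩
      rw [h2, h1, mul_assoc]
  intro i j hij
  have hi := i.isLt
  have hj := j.isLt
  have hij' : i.val < j.val := hij
  rcases Nat.mod_two_eq_zero_or_one (i.val + j.val) with hpar | hpar
  · -- even difference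
    have hk : i.val + 1 < d + 3 := by omega
    have hab : i < (⟨i.val + 1, hk⟩ : Fin (d + 3)) := by simp [Fin.lt_def]
    have hbc : (⟨i.val + 1, hk⟩ : Fin (d + 3)) < j := by rw [Fin.lt_def]; simp only; omega
    obtain ⟨κ, hκ, h1⟩ := hadj i.val hk
    obtain ⟨⟨κ', hκ', h2⟩, -⟩ := triple_rel h hab hbc (by simp only; omega) (by simp only; omega)
      (hf _ _ _ hab hbc (by simp only; omega) (by simp only; omega))
    refine ⟨κ' * κ, by positivity, ?_⟩
    rw [h2]
    have e : (⟨i.val, by omega⟩ : Fin (d + 3)) = i := rfl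
    rw [e] at h1
    rw [h1, mul_assoc]
  · -- odd difference
    by_cases hi0 : 0 < i.val
    · have hk : i.val - 1 + 1 < d + 3 := by omega
      obtain ⟨κ, hκ, h1⟩ := hadj (i.val - 1) hk
      have e : (⟨i.val - 1 + 1, hk⟩ : Fin (d + 3)) = i := by
        apply Fin.ext; simp only; omega
      rw [e] at h1
      have hab : (⟨i.val - 1, by omega⟩ : Fin (d + 3)) < i := by rw [Fin.lt_def]; simp only; omega
      obtain ⟨-, κ', hκ', h2⟩ := triple_rel h hab hij (by simp only; omega) (by omega)
        (hf _ _ _ hab hij (by simp only; omega) (by omega))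
      refine ⟨κ' * κ, by positivity, ?_⟩
      rw [h2, h1, mul_assoc]
    · have hj1 : j.val + 1 < d + 3 := by omega
      obtain ⟨κ, hκ, h1⟩ := hadj j.val hj1
      have e : (⟨j.val, by omega⟩ : Fin (d + 3)) = j := rfl
      rw [e] at h1
      have hbc : j < (⟨j.val + 1, hj1⟩ : Fin (d + 3)) := by rw [Fin.lt_def]; simp only; omega
      obtain ⟨-, κ', hκ', h2⟩ := triple_rel h hij hbc (by omega) (by simp only; omega)
        (hf _ _ _ hij hbc (by omega) (by simp only; omega))
      refine ⟨κ'⁻¹ * κ, by positivity, ?_⟩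
      rw [h1] at h2
      rw [mul_assoc, h2]
      field_simp

/-- complex conjugation of the Gale dual -/
lemma Gale.conj {p : Fin (d + 3) → EE d} {g : Fin (d + 3) → ℂ} (h : Gale p g) :
    Gale p (fun i => star (g i)) := by
  refine ⟨fun j => ?_, ?_, ?_, ?_⟩
  · have := congrArg star (h.sum_g j)
    rw [star_sum, star_zero] at this
    rw [← this]
    refine Finset.sum_congr rfl fun i _ => ?_
    rw [star_mul', Complex.star_def, Complex.conj_ofReal]
  · simpa using h.re_re
  · simpa using h.im_im
  · have := h.re_im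
    simp only [Complex.star_def, Complex.conj_re, Complex.conj_im, mul_neg, Finset.sum_neg_distrib]
    rw [this, neg_zero]

lemma wdg_star (u v : ℂ) : wdg (star u) (star v) = -wdg u v := by
  unfold wdg
  simp only [Complex.star_def, Complex.conj_re, Complex.conj_im]
  ring

lemma ee_star (g : Fin (d + 3) → ℂ) (i : Fin (d + 3)) :
    ee (fun i => star (g i)) i = star (ee g i) := by
  unfold ee
  rw [star_mul', Complex.star_def, Complex.conj_ofReal]

/-- the points with alternating faces have a Gale dual with positive signs -/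
theorem exists_pos {p : Fin (d + 3) → EE d} (hd : Even d) (hf : AltFaces p) :
    ∃ g, Gale p g ∧ Pos g := by
  obtain ⟨g, h⟩ := exists_gale p
  have hall := all_same hd h hf
  rcases lt_trichotomy (wdg (ee g 0) (ee g 1)) 0 with hneg | hz | hpos
  · refine ⟨fun i => star (g i), h.conj, fun i j hij => ?_⟩
    obtain ⟨κ, hκ, h1⟩ := hall i j hij
    rw [ee_star, ee_star, wdg_star, h1]
    nlinarith
  · exfalso
    have hw0 : ∀ i j : Fin (d + 3), wdg (ee g i) (ee g j) = 0 := by
      intro i j
      rcases lt_trichotomy i j with hij | rfl | hij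
      · obtain ⟨κ, hκ, h1⟩ := hall i j hij
        rw [h1, hz, mul_zero]
      · exact wdg_self _
      · obtain ⟨κ, hκ, h1⟩ := hall j i hij
        rw [wdg_comm, h1, hz, mul_zero, neg_zero]
    have hw : ∀ i j : Fin (d + 3), wdg (g i) (g j) = 0 := by
      intro i j
      rw [g_eq_ee g i, g_eq_ee g j, wdg_real_mul_left, wdg_real_mul_right, hw0, mul_zero, mul_zero]
    have hsum : ∑ i : Fin (d + 3), ∑ j : Fin (d + 3), wdg (g i) (g j) ^ 2 = 2 := by
      have e : ∀ i j : Fin (d + 3), wdg (g i) (g j) ^ 2
          = ((g i).re * (g i).re) * ((g j).im * (g j).im)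
            + ((g i).im * (g i).im) * ((g j).re * (g j).re)
            - 2 * (((g i).re * (g i).im) * ((g j).re * (g j).im)) := by
        intro i j; unfold wdg; ring
      simp_rw [e, Finset.sum_sub_distrib, Finset.sum_add_distrib, ← Finset.mul_sum]
      rw [h.im_im, h.re_re, h.re_im]
      simp only [mul_one, mul_zero, Finset.sum_const_zero]
      rw [h.im_im, h.re_re]
      norm_num
    simp_rw [hw] at hsum
    simp at hsum
  · refine ⟨g, h, fun i j hij => ?_⟩
    obtain ⟨κ, hκ, h1⟩ := hall i j hij
    rw [h1]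
    positivity

/-! ### faces are determined by the signs -/

/-- combinatorial sign -/
def PP (i j : Fin (d + 3)) : Prop :=
  (i < j ∧ (i.val + j.val) % 2 = 0) ∨ (j < i ∧ (i.val + j.val) % 2 = 1)

lemma wdg_sign {g : Fin (d + 3) → ℂ} (hpos : Pos g) (i j : Fin (d + 3)) :
    0 < wdg (g i) (g j) ↔ PP i j := by
  have e : wdg (g i) (g j) = ((-1 : ℝ) ^ (i.val + j.val)) * wdg (ee g i) (ee g j) := by
    rw [g_eq_ee g i, g_eq_ee g j, wdg_real_mul_left, wdg_real_mul_right, pow_add, mul_assoc]
  rw [e]
  unfold PP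
  rcases Nat.mod_two_eq_zero_or_one (i.val + j.val) with h0 | h1
  · rw [Even.neg_one_pow (Nat.even_iff.2 h0), one_mul]
    rcases lt_trichotomy i j with h | rfl | h
    · simp [hpos i j h, h, h0]
    · rw [wdg_self]; simp
    · have := hpos j i h
      rw [wdg_comm]
      constructor
      · intro h'; linarith
      · rintro (⟨h', _⟩ | ⟨_, h'⟩)
        · exact absurd h' (not_lt.2 h.le)
        · omega
  · rw [Odd.neg_one_pow (Nat.odd_iff.2 h1)]
    rcases lt_trichotomy i j with h | rfl | h
    · have := hpos i j h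
      constructor
      · intro h'; linarith
      · rintro (⟨_, h'⟩ | ⟨h', _⟩)
        · omega
        · exact absurd h' (not_lt.2 h.le)
    · rw [wdg_self]; simp
    · have := hpos j i h
      rw [wdg_comm]
      constructor
      · intro _; exact Or.inr ⟨h, h1⟩
      · intro _; linarith

lemma wdg_ne {g : Fin (d + 3) → ℂ} (hpos : Pos g) {i j : Fin (d + 3)} (hij : i ≠ j) :
    wdg (g i) (g j) ≠ 0 := by
  have e : wdg (g i) (g j) = ((-1 : ℝ) ^ i.val * (-1 : ℝ) ^ j.val) * wdg (ee g i) (ee g j) := by
    rw [g_eq_ee g i, g_eq_ee g j, wdg_real_mul_left, wdg_real_mul_right, mul_assoc]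
  rw [e]
  refine mul_ne_zero (mul_ne_zero (pow_ne_zero _ (by norm_num)) (pow_ne_zero _ (by norm_num))) ?_
  rcases lt_or_gt_of_ne hij with h | h
  · exact (hpos i j h).ne'
  · rw [wdg_comm]; exact (neg_lt_zero.2 (hpos j i h)).ne

theorem face_iff {p : Fin (d + 3) → EE d} {g : Fin (d + 3) → ℂ} (h : Gale p g)
    (hD : (gram p).det ≠ 0) (hpos : Pos g) (S : Set (Fin (d + 3))) :
    IsFace p S ↔ ∀ i, i ∉ S → ∃ j, j ∉ S ∧ ∃ k, k ∉ S ∧ PP j i ∧ PP i k ∧ PP k j := by
  classical
  constructor
  · intro hS i hi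
    obtain ⟨y, h0, h1, h2⟩ := face_rel h hS
    set A : Finset (Fin (d + 3)) := Finset.univ.filter fun j => j ∉ S ∧ 0 < wdg (g j) (g i) with hA
    set B : Finset (Fin (d + 3)) := Finset.univ.filter fun k => k ∉ S ∧ wdg (g k) (g i) < 0 with hB
    by_contra hcon
    have hno : ∀ j ∈ A, ∀ k ∈ B, wdg (g k) (g j) ≤ 0 := by
      intro j hj k hk
      rw [hA, Finset.mem_filter] at hj
      rw [hB, Finset.mem_filter] at hk
      by_contra hlt
      rw [not_le] at hlt
      apply hcon
      refine ⟨j, hj.2.1, k, hk.2.1, (wdg_sign hpos j i).1 hj.2.2, (wdg_sign hpos i k).1 ?_,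
        (wdg_sign hpos k j).1 hlt⟩
      rw [wdg_comm]; linarith [hk.2.2]
    set u : ℂ := ∑ j ∈ A, (y j : ℂ) * g j with hu
    set v : ℂ := ∑ k ∈ B, (y k : ℂ) * g k with hv
    have hdec : (y i : ℂ) * g i + (u + v) = 0 := by
      rw [← h2]
      have hdisj : Disjoint A B := by
        rw [Finset.disjoint_left]
        intro j hj hk
        rw [hA, Finset.mem_filter] at hj
        rw [hB, Finset.mem_filter] at hk
        linarith [hj.2.2, hk.2.2]
      have hi' : i ∉ A ∪ B := by
        rw [Finset.mem_union, hA, hB, Finset.mem_filter, Finset.mem_filter, wdg_self]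
        simp
      rw [hu, hv, ← Finset.sum_union hdisj, ← Finset.sum_insert (f := fun l => (y l : ℂ) * g l) hi']
      refine Finset.sum_subset (Finset.subset_univ _) fun j _ hj => ?_
      rw [Finset.mem_insert, Finset.mem_union, not_or, not_or, hA, hB, Finset.mem_filter,
        Finset.mem_filter] at hj
      have hjS : j ∈ S := by
        by_contra hjS
        have hne := wdg_ne hpos hj.1
        rcases lt_or_gt_of_ne hne with hlt | hgt
        · exact hj.2.2 ⟨Finset.mem_univ _, hjS, hlt⟩
        · exact hj.2.1 ⟨Finset.mem_univ _, hjS, hgt⟩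
      rw [h0 j hjS, Complex.ofReal_zero, zero_mul]
    have hyi := h1 i hi
    have hvu : wdg v u ≤ 0 := by
      rw [hv, wdg_sum_left]
      refine Finset.sum_nonpos fun k hk => ?_
      rw [hu, wdg_sum_right]
      refine Finset.sum_nonpos fun j hj => ?_
      rw [wdg_real_mul_left, wdg_real_mul_right]
      have hyk : 0 < y k := h1 k (by rw [hB, Finset.mem_filter] at hk; exact hk.2.1)
      have hyj : 0 < y j := h1 j (by rw [hA, Finset.mem_filter] at hj; exact hj.2.1)
      have := hno j hj k hk
      have h3 : 0 ≤ y k * y j := by positivity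
      nlinarith
    have hvu2 : wdg v u = y i * wdg u (g i) := by
      have : v = -((y i : ℂ) * g i) - u := by linear_combination hdec
      rw [this, wdg_sub_left, wdg_neg_left, wdg_real_mul_left, wdg_self, wdg_comm (g i) u]
      ring
    have hui : wdg u (g i) = ∑ j ∈ A, y j * wdg (g j) (g i) := by
      rw [hu, wdg_sum_left]
      exact Finset.sum_congr rfl fun j _ => wdg_real_mul_left _ _ _
    by_cases hAne : A.Nonempty
    · have : 0 < wdg u (g i) := by
        rw [hui]
        refine Finset.sum_pos (fun j hj => ?_) hAne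
        rw [hA, Finset.mem_filter] at hj
        exact mul_pos (h1 j hj.2.1) hj.2.2
      have : 0 < wdg v u := by rw [hvu2]; positivity
      linarith
    · rw [Finset.not_nonempty_iff_eq_empty] at hAne
      have hu0 : u = 0 := by rw [hu, hAne, Finset.sum_empty]
      have hvi : wdg v (g i) = 0 := by
        have : v = -((y i : ℂ) * g i) := by rw [hu0] at hdec; linear_combination hdec
        rw [this, wdg_neg_left, wdg_real_mul_left, wdg_self]; ring
      have hBe : B = ∅ := by
        by_contra hBne
        have hBn : B.Nonempty := Finset.nonempty_iff_ne_empty.2 hBne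
        have : wdg v (g i) < 0 := by
          rw [hv, wdg_sum_left]
          refine Finset.sum_neg (fun k hk => ?_) hBn
          rw [wdg_real_mul_left]
          rw [hB, Finset.mem_filter] at hk
          exact mul_neg_of_pos_of_neg (h1 k hk.2.1) hk.2.2
        linarith
      have hv0 : v = 0 := by rw [hv, hBe, Finset.sum_empty]
      have hgi : g i = 0 := by
        rw [hu0, hv0, add_zero, add_zero] at hdec
        have : (y i : ℂ) ≠ 0 := by exact_mod_cast hyi.ne'
        exact (mul_eq_zero.1 hdec).resolve_left this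
      -- contradiction with nonvanishing wedge
      obtain ⟨j, hj⟩ : ∃ j : Fin (d + 3), j ≠ i := by
        by_cases hi0 : i = 0
        · exact ⟨1, by rw [hi0]; simp [Fin.ext_iff]⟩
        · exact ⟨0, fun h' => hi0 h'.symm⟩
      have := wdg_ne hpos hj
      rw [hgi, wdg_zero_right] at this
      exact this rfl
  · intro hcomb
    choose! J hJ K hK h1 h2 h3 using hcomb
    -- the relation attached to i
    set R : Fin (d + 3) → Fin (d + 3) → ℝ := fun i =>
      Pi.single i (wdg (g (K i)) (g (J i))) + Pi.single (J i) (wdg (g i) (g (K i)))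
        + Pi.single (K i) (wdg (g (J i)) (g i)) with hR
    have hRnn : ∀ i, i ∉ S → ∀ l, 0 ≤ R i l := by
      intro i hi l
      have a1 := (wdg_sign hpos (K i) (J i)).2 (h3 i hi)
      have a2 := (wdg_sign hpos i (K i)).2 (h2 i hi)
      have a3 := (wdg_sign hpos (J i) i).2 (h1 i hi)
      simp only [hR, Pi.add_apply, Pi.single_apply]
      have b1 : (0 : ℝ) ≤ if l = i then wdg (g (K i)) (g (J i)) else 0 := by
        split_ifs <;> linarith
      have b2 : (0 : ℝ) ≤ if l = J i then wdg (g i) (g (K i)) else 0 := by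
        split_ifs <;> linarith
      have b3 : (0 : ℝ) ≤ if l = K i then wdg (g (J i)) (g i) else 0 := by
        split_ifs <;> linarith
      linarith
    have hRself : ∀ i, i ∉ S → 0 < R i i := by
      intro i hi
      have a1 := (wdg_sign hpos (K i) (J i)).2 (h3 i hi)
      have a2 := (wdg_sign hpos i (K i)).2 (h2 i hi)
      have a3 := (wdg_sign hpos (J i) i).2 (h1 i hi)
      simp only [hR, Pi.add_apply, Pi.single_apply, if_true]
      have b2 : (0 : ℝ) ≤ if i = J i then wdg (g i) (g (K i)) else 0 := by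
        split_ifs <;> linarith
      have b3 : (0 : ℝ) ≤ if i = K i then wdg (g (J i)) (g i) else 0 := by
        split_ifs <;> linarith
      linarith
    have hR0 : ∀ i, i ∉ S → ∀ l ∈ S, R i l = 0 := by
      intro i hi l hl
      simp only [hR, Pi.add_apply, Pi.single_apply]
      rw [if_neg (fun h' : l = i => hi (by rw [← h']; exact hl)),
        if_neg (fun h' : l = J i => hJ i hi (by rw [← h']; exact hl)),
        if_neg (fun h' : l = K i => hK i hi (by rw [← h']; exact hl))]
      ring
    have hRg : ∀ i, ∑ l, (R i l : ℂ) * g l = 0 := by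
      intro i
      have e : ∀ l, (R i l : ℂ) * g l
          = (if l = i then ((wdg (g (K i)) (g (J i)) : ℝ) : ℂ) * g l else 0)
            + (if l = J i then ((wdg (g i) (g (K i)) : ℝ) : ℂ) * g l else 0)
            + (if l = K i then ((wdg (g (J i)) (g i) : ℝ) : ℂ) * g l else 0) := by
        intro l
        simp only [hR, Pi.add_apply, Pi.single_apply]
        split_ifs <;> push_cast <;> ring
      simp_rw [e]
      rw [Finset.sum_add_distrib, Finset.sum_add_distrib, Finset.sum_ite_eq' Finset.univ i,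
        Finset.sum_ite_eq' Finset.univ (J i), Finset.sum_ite_eq' Finset.univ (K i)]
      simp only [Finset.mem_univ, if_true]
      apply Complex.ext
      · simp only [Complex.add_re, Complex.re_ofReal_mul, Complex.zero_re]
        unfold wdg; ring
      · simp only [Complex.add_im, Complex.im_ofReal_mul, Complex.zero_im]
        unfold wdg; ring
    set U : Finset (Fin (d + 3)) := Finset.univ.filter fun i => i ∉ S with hU
    refine face_of_rel h hD (fun l => ∑ i ∈ U, R i l) ?_ ?_ ?_
    · intro l hl
      refine Finset.sum_eq_zero fun i hi => ?_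
      rw [hU, Finset.mem_filter] at hi
      exact hR0 i hi.2 l hl
    · intro l hl
      have hlU : l ∈ U := by rw [hU, Finset.mem_filter]; exact ⟨Finset.mem_univ _, hl⟩
      refine lt_of_lt_of_le (hRself l hl) (Finset.single_le_sum (f := fun i => R i l) ?_ hlU)
      intro i hi
      rw [hU, Finset.mem_filter] at hi
      exact hRnn i hi.2 l
    · push_cast
      simp_rw [Finset.sum_mul]
      rw [Finset.sum_comm]
      exact Finset.sum_eq_zero fun i _ => hRg i

/-! ### nonvanishing Gram determinants -/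

lemma gram_det_ne_zero {p : Fin (d + 3) → EE d}
    (hp : ∀ w : Fin (d + 1) → ℝ, (∀ i, ∑ j, aug p i j * w j = 0) → w = 0) :
    (gram p).det ≠ 0 := by
  intro h0
  obtain ⟨w, hw, hgw⟩ := Matrix.exists_mulVec_eq_zero_iff.2 h0
  apply hw
  apply hp
  have h1 : ∑ i, (∑ j, aug p i j * w j) * (∑ j, aug p i j * w j) = 0 := by
    have h2 : w ⬝ᵥ (Matrix.mulVec (gram p) w) = 0 := by rw [hgw]; simp
    have h3 : w ⬝ᵥ (Matrix.mulVec (gram p) w)
        = (Matrix.mulVec (aug p) w) ⬝ᵥ (Matrix.mulVec (aug p) w) := by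
      unfold gram
      rw [← Matrix.mulVec_mulVec, Matrix.dotProduct_mulVec, Matrix.vecMul_transpose]
    rw [h3] at h2
    exact h2
  intro i
  have h4 := (Finset.sum_eq_zero_iff_of_nonneg (fun i _ => mul_self_nonneg _)).1 h1 i
    (Finset.mem_univ i)
  exact mul_self_eq_zero.1 h4

lemma gram_ne_of_span {p : Fin (d + 3) → EE d} (hp : affineSpan ℝ (Set.range p) = ⊤) :
    (gram p).det ≠ 0 := by
  apply gram_det_ne_zero
  intro w hw
  have h1 : ∀ i, w 0 + lf (fun j : Fin d => w j.succ) (p i) = 0 := by
    intro i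
    rw [lf_apply]
    have := hw i
    rw [Fin.sum_univ_succ] at this
    simpa using this
  let F : EE d →ᵃ[ℝ] ℝ := (lf (fun j : Fin d => w j.succ)).toAffineMap + AffineMap.const ℝ (EE d) (w 0)
  have h2 : ∀ x : EE d, F x = 0 := by
    intro x
    have hx : x ∈ affineSpan ℝ (Set.range p) := by rw [hp]; trivial
    have hsub : affineSpan ℝ (Set.range p) ≤ (AffineSubspace.mk' (0 : ℝ) (⊥ : Submodule ℝ ℝ)).comap F := by
      rw [affineSpan_le]
      rintro _ ⟨i, rfl⟩
      simp only [AffineSubspace.coe_comap, Set.mem_preimage, SetLike.mem_coe,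
        AffineSubspace.mem_mk', Submodule.mem_bot, vsub_eq_sub, sub_zero]
      have := h1 i
      simp only [F, LinearMap.coe_toAffineMap, Pi.add_apply,
        AffineMap.coe_add, AffineMap.coe_const, Function.const_apply]
      linarith
    have h3 := hsub hx
    simp only [AffineSubspace.mem_comap, AffineSubspace.mem_mk', Submodule.mem_bot, vsub_eq_sub,
      sub_zero] at h3
    exact h3
  have hF : ∀ x : EE d, F x = (∑ j, x j * w j.succ) + w 0 := by
    intro x
    simp only [F, AffineMap.coe_add, Pi.add_apply, LinearMap.coe_toAffineMap, AffineMap.coe_const,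
      Function.const_apply]
    rw [lf_apply]
  have hw0 : w 0 = 0 := by
    have := h2 0
    rw [hF] at this
    simpa using this
  funext j
  refine Fin.cases hw0 (fun j => ?_) j
  have := h2 (EuclideanSpace.single j 1)
  rw [hF, hw0, add_zero] at this
  simpa [Pi.single_apply] using this

lemma gram_mom_ne (t : Fin (d + 3) → ℝ) (ht : Function.Injective t) :
    (gram fun i => mom d (t i)).det ≠ 0 := by
  apply gram_det_ne_zero
  intro w hw
  have hinj : Function.Injective fun i : Fin (d + 1) => t (Fin.castLE (by omega) i) :=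
    ht.comp (Fin.castLE_injective _)
  have hdet := Matrix.det_vandermonde_ne_zero_iff.2 hinj
  refine Matrix.eq_zero_of_mulVec_eq_zero hdet ?_
  funext i
  have h1 := hw (Fin.castLE (by omega) i)
  simp only [Matrix.mulVec, dotProduct, Matrix.vandermonde_apply, Pi.zero_apply]
  rw [← h1]
  refine Finset.sum_congr rfl fun j _ => ?_
  congr 1
  refine Fin.cases ?_ (fun j => ?_) j
  · simp
  · rw [aug_succ, mom_apply, Fin.val_succ]

end Pool.Agent.K3h40.Cyc
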