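import Mathlib

/-! Volume of a simplex in terms of the augmented determinant. -/

namespace Pool.Agent.K3h40.Cyc

open MeasureTheory
open scoped Pointwise

/-- Euclidean space -/
abbrev EE (d : ℕ) : Type := EuclideanSpace ℝ (Fin d)

/-- rows `(1, p i)` -/
def aug {d : ℕ} {α : Type*} (p : α → EE d) : Matrix α (Fin (d + 1)) ℝ :=
  fun i j => (Fin.cons 1 (p i).ofLp : Fin (d + 1) → ℝ) j

@[simp] lemma aug_zero {d : ℕ} {α : Type*} (p : α → EE d) (i : α) : aug p i 0 = 1 := rfl

@[simp] lemma aug_succ {d : ℕ} {α : Type*} (p : α → EE d) (i : α) (j : Fin d) :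
    aug p i j.succ = p i j := rfl

lemma det_aug {d : ℕ} (p : Fin (d + 1) → EE d) :
    (aug p).det = (Matrix.of (fun i j : Fin d => p i.succ j - p 0 j)).det := by
  set M' : Matrix (Fin (d + 1)) (Fin (d + 1)) ℝ :=
    Matrix.of (fun i => if i = 0 then aug p 0 else aug p i - aug p 0) with hM'
  have h1 : (aug p).det = M'.det := by
    apply Matrix.det_eq_of_forall_row_eq_smul_add_const (c := fun i => if i = 0 then 0 else 1)
      (k := 0) (by simp)
    intro i j
    simp only [hM', Matrix.of_apply]
    by_cases hi : i = 0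
    · subst hi; simp
    · simp [hi]
  rw [h1, Matrix.det_succ_column_zero, Fin.sum_univ_succ]
  rw [Finset.sum_eq_zero]
  · simp only [Fin.val_zero, pow_zero, one_mul, add_zero]
    have h2 : M' 0 0 = 1 := by simp [hM', aug]
    rw [h2, one_mul]
    congr 1
  · intro i _
    have h3 : M' i.succ 0 = 0 := by
      simp [hM', Fin.succ_ne_zero]
    rw [h3]; ring

/-- the standard basis -/
noncomputable def bs (m : ℕ) : Module.Basis (Fin m) ℝ (EE m) :=
  (EuclideanSpace.basisFun (Fin m) ℝ).toBasis

/-- the vertices of the standard simplex -/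
noncomputable def ev (m : ℕ) : Fin (m + 1) → EE m := Fin.cons 0 (fun i => bs m i)

theorem vol_ev_pos (m : ℕ) : 0 < volume.real (convexHull ℝ (Set.range (ev m))) := by
  have hspan : affineSpan ℝ (Set.range (ev m)) = ⊤ := by
    rw [AffineSubspace.affineSpan_eq_top_iff_vectorSpan_eq_top_of_nonempty ℝ _ _
      (Set.range_nonempty _), vectorSpan_range_eq_span_range_vsub_right ℝ (ev m) 0, eq_top_iff,
      ← (bs m).span_eq]
    refine Submodule.span_mono ?_
    rintro _ ⟨i, rfl⟩
    refine ⟨i.succ, ?_⟩
    simp [ev]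
  have hint : (interior (convexHull ℝ (Set.range (ev m)))).Nonempty :=
    interior_convexHull_nonempty_iff_affineSpan_eq_top.2 hspan
  have hfin : volume (convexHull ℝ (Set.range (ev m))) ≠ ⊤ :=
    ((Set.finite_range (ev m)).isCompact_convexHull ℝ).measure_lt_top.ne
  rw [measureReal_def]
  refine ENNReal.toReal_pos ?_ hfin
  exact (MeasureTheory.Measure.measure_pos_of_nonempty_interior _ hint).ne'

theorem image_ev (m : ℕ) (p : Fin (m + 1) → EE m) (L : EE m →ₗ[ℝ] EE m)
    (hL : ∀ i, L (bs m i) = p i.succ - p 0) :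
    convexHull ℝ (Set.range p) = p 0 +ᵥ (L '' convexHull ℝ (Set.range (ev m))) := by
  rw [LinearMap.image_convexHull, ← convexHull_vadd]
  congr 1
  rw [← Set.range_comp, ← Set.image_vadd, ← Set.range_comp]
  congr 1
  funext i
  refine Fin.cases ?_ (fun j => ?_) i
  · simp [ev]
  · simp [ev, hL]

/-- the volume of the standard simplex -/
noncomputable def cv (m : ℕ) : ℝ := volume.real (convexHull ℝ (Set.range (ev m)))

theorem vol_simplex {m : ℕ} (p : Fin (m + 1) → EE m) :
    volume.real (convexHull ℝ (Set.range p)) = cv m * |(aug p).det| := by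
  let L : EE m →ₗ[ℝ] EE m := (bs m).constr ℝ (fun i => p i.succ - p 0)
  have hL : ∀ i, L (bs m i) = p i.succ - p 0 := fun i => (bs m).constr_basis ℝ _ i
  have hdet : LinearMap.det L = (aug p).det := by
    rw [det_aug, ← LinearMap.det_toMatrix (bs m) L, ← Matrix.det_transpose]
    congr 1
    ext i j
    rw [Matrix.transpose_apply, LinearMap.toMatrix_apply, hL]
    simp [bs]
  unfold cv
  rw [image_ev m p L hL, measureReal_def, measure_vadd, Measure.addHaar_image_linearMap, hdet,
    ENNReal.toReal_mul, ENNReal.toReal_ofReal (abs_nonneg _), mul_comm, measureReal_def]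

end Pool.Agent.K3h40.Cyc
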