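import Pool.Agent.K3h40.Cyc.Cover

/-! Volume formula. -/

namespace Pool.Agent.K3h40.Cyc

open Finset MeasureTheory Filter Topology Matrix

variable {d : ℕ}

/-- a cell is a simplex -/
lemma cell_eq (p : Fin (d + 3) → EE d) (ε : Fin (d + 1) ⊕ Fin 2 ≃ Fin (d + 3)) :
    cell p (ε (Sum.inr 0), ε (Sum.inr 1)) =
      convexHull ℝ (Set.range fun i : Fin (d + 1) => p (ε (Sum.inl i))) := by
  ext x
  rw [mem_hull_iff]
  constructor
  · rintro ⟨w, hw, h0, h1, hx⟩
    simp only at h0 h1
    refine ⟨fun i => w (ε (Sum.inl i)), ⟨fun i => hw.1 _, ?_⟩, ?_⟩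
    · have := hw.2
      rw [← Equiv.sum_comp ε, Fintype.sum_sum_type, Fin.sum_univ_two, h0, h1] at this
      simpa using this
    · rw [← Equiv.sum_comp ε, Fintype.sum_sum_type, Fin.sum_univ_two, h0, h1] at hx
      simpa using hx
  · rintro ⟨w, hw, hx⟩
    refine ⟨fun i => Sum.elim w (fun _ => 0) (ε.symm i), ⟨fun i => ?_, ?_⟩, ?_, ?_, ?_⟩
    · show 0 ≤ Sum.elim w (fun _ => 0) (ε.symm i)
      rcases ε.symm i with j | j
      · exact hw.1 j
      · exact le_rfl
    · rw [← Equiv.sum_comp ε, Fintype.sum_sum_type]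
      simp only [Equiv.symm_apply_apply, Sum.elim_inl, Sum.elim_inr, Finset.sum_const_zero,
        add_zero]
      exact hw.2
    · simp
    · simp
    · rw [← Equiv.sum_comp ε, Fintype.sum_sum_type]
      simp only [Equiv.symm_apply_apply, Sum.elim_inl, Sum.elim_inr, zero_smul,
        Finset.sum_const_zero, add_zero]
      exact hx

lemma cell_vol {p : Fin (d + 3) → EE d} {g : Fin (d + 3) → ℂ} (h : Gale p g)
    (hD : (gram p).det ≠ 0) {a b : Fin (d + 3)} (hab : a ≠ b) :
    volume.real (cell p (a, b)) = cv d * (Real.sqrt (gram p).det * |wdg (g a) (g b)|) := by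
  obtain ⟨ε, ha, hb⟩ := exists_enum a b hab
  rw [← ha, ← hb, cell_eq, vol_simplex, abs_det_eq h hD]

lemma cell_compact (p : Fin (d + 3) → EE d) {a b : Fin (d + 3)} (hab : a ≠ b) :
    IsCompact (cell p (a, b)) := by
  obtain ⟨ε, ha, hb⟩ := exists_enum a b hab
  rw [← ha, ← hb, cell_eq]
  exact (Set.finite_range _).isCompact_convexHull ℝ

/-- points whose weights vanish at three indices form a null set -/
lemma null_three (hd : 0 < d) (p : Fin (d + 3) → EE d) (a b c : Fin (d + 3)) (hab : a ≠ b)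
    (hac : a ≠ c) (hbc : b ≠ c) :
    volume {x : EE d | ∃ w ∈ stdSimplex ℝ (Fin (d + 3)), w a = 0 ∧ w b = 0 ∧ w c = 0 ∧
      ∑ i, w i • p i = x} = 0 := by
  classical
  set T : Finset (Fin (d + 3)) := {a, b, c}ᶜ with hT
  have hcard : T.card = d := by
    rw [hT, Finset.card_compl, Fintype.card_fin, Finset.card_eq_three.2 ⟨a, b, c, hab, hac, hbc, rfl⟩]
    omega
  obtain ⟨n, rfl⟩ : ∃ n, d = n + 1 := ⟨d - 1, by omega⟩
  have hfr : Module.finrank ℝ (vectorSpan ℝ ((T.image p : Finset (EE (n + 1))) : Set (EE (n + 1)))) ≤ n :=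
    finrank_vectorSpan_image_finset_le ℝ p T hcard
  have hne : (affineSpan ℝ ((T.image p : Finset (EE (n + 1))) : Set (EE (n + 1)))) ≠ ⊤ := by
    intro htop
    have h1 := congrArg AffineSubspace.direction htop
    rw [direction_affineSpan, AffineSubspace.direction_top] at h1
    rw [h1, finrank_top, finrank_euclideanSpace_fin] at hfr
    omega
  refine measure_mono_null ?_ (Measure.addHaar_affineSubspace volume _ hne)
  rintro x ⟨w, hw, h1, h2, h3, hx⟩
  have hsub : convexHull ℝ ((T.image p : Finset (EE (n + 1))) : Set (EE (n + 1))) ⊆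
      (affineSpan ℝ ((T.image p : Finset (EE (n + 1))) : Set (EE (n + 1))) : Set (EE (n + 1))) :=
    convexHull_subset_affineSpan _
  apply hsub
  have hz : ∀ i, i ∉ T → w i = 0 := by
    intro i hi
    rw [hT, Finset.mem_compl, not_not] at hi
    simp only [Finset.mem_insert, Finset.mem_singleton] at hi
    rcases hi with rfl | rfl | rfl
    · exact h1
    · exact h2
    · exact h3
  have hsum1 : ∑ i ∈ T, w i = 1 := by
    rw [← hw.2]
    exact Finset.sum_subset (Finset.subset_univ _) fun i _ hi => hz i hi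
  have hsum2 : ∑ i ∈ T, w i • p i = x := by
    rw [← hx]
    exact Finset.sum_subset (Finset.subset_univ _) fun i _ hi => by rw [hz i hi, zero_smul]
  rw [← hsum2]
  exact (convex_convexHull ℝ _).sum_mem (fun i _ => hw.1 i) hsum1 fun i hi =>
    subset_convexHull ℝ _ (by simpa using ⟨i, hi, rfl⟩)

/-- Cramer's rule for wedge products -/
lemma cramer (u v r z : ℂ) : wdg u v * wdg r z = wdg r v * wdg u z + wdg u r * wdg v z := by
  unfold wdg; ring

/-- `r` lies in the open cones of the pairs of the triangulation -/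
lemma cone_pair (hd : Even d) {g : Fin (d + 3) → ℂ} (hpos : Pos g) {a b : Fin (d + 3)}
    (hab : a < b) (ha : a.val % 2 = 1) (hb : b.val % 2 = 0) :
    ∃ α β : ℝ, 0 < α ∧ 0 < β ∧ ∀ z, wdg (rr g) z = α * wdg (g a) z + β * wdg (g b) z := by
  have h1 : wdg (g a) (g b) < 0 := by
    rw [g_odd (g := g) ha, g_even (g := g) hb, wdg_neg_left]
    linarith [hpos a b hab]
  have h2 : wdg (rr g) (g b) < 0 := by
    rw [g_even (g := g) hb]; exact wdg_rr_neg hd hpos b
  have h3 : wdg (g a) (rr g) < 0 := by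
    rw [g_odd (g := g) ha, wdg_neg_left, wdg_comm, neg_neg]; exact wdg_rr_neg hd hpos a
  refine ⟨wdg (rr g) (g b) / wdg (g a) (g b), wdg (g a) (rr g) / wdg (g a) (g b),
    div_pos_of_neg_of_neg h2 h1, div_pos_of_neg_of_neg h3 h1, fun z => ?_⟩
  have h4 := cramer (g a) (g b) (rr g) z
  have h5 := h1.ne
  field_simp
  linarith

lemma eq_zero_of_wdg {u v z : ℂ} (huv : wdg u v ≠ 0) (h1 : wdg u z = 0) (h2 : wdg v z = 0) :
    z = 0 := by
  unfold wdg at *
  have e1 : (u.re * v.im - u.im * v.re) * z.im = 0 := by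
    linear_combination v.im * h1 - u.im * h2
  have e2 : (u.re * v.im - u.im * v.re) * z.re = 0 := by
    linear_combination v.re * h1 - u.re * h2
  have i1 : z.im = 0 := by
    rcases mul_eq_zero.1 e1 with h | h
    · exact absurd h huv
    · exact h
  have i2 : z.re = 0 := by
    rcases mul_eq_zero.1 e2 with h | h
    · exact absurd h huv
    · exact h
  exact Complex.ext i2 i1

/-- weights in two cells agree -/
lemma weights_eq (hd : Even d) {p : Fin (d + 3) → EE d} {g : Fin (d + 3) → ℂ} (h : Gale p g)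
    (hD : (gram p).det ≠ 0) (hpos : Pos g) {a b a' b' : Fin (d + 3)}
    (hab : a < b) (ha : a.val % 2 = 1) (hb : b.val % 2 = 0)
    (hab' : a' < b') (ha' : a'.val % 2 = 1) (hb' : b'.val % 2 = 0)
    {w w' : Fin (d + 3) → ℝ} (hw : w ∈ stdSimplex ℝ (Fin (d + 3)))
    (hw' : w' ∈ stdSimplex ℝ (Fin (d + 3))) (hwa : w a = 0) (hwb : w b = 0)
    (hwa' : w' a' = 0) (hwb' : w' b' = 0) (hx : ∑ i, w i • p i = ∑ i, w' i • p i) : w = w' := by
  have hker : ∀ j, ∑ i, aug p i j * (w i - w' i) = 0 := by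
    intro j
    refine Fin.cases ?_ (fun j => ?_) j
    · simp only [aug_zero, one_mul]
      rw [Finset.sum_sub_distrib, hw.2, hw'.2, sub_self]
    · have h1 := congrArg (fun v : EE d => v j) hx
      simp only [WithLp.ofLp_sum, WithLp.ofLp_smul, Finset.sum_apply, Pi.smul_apply,
        smul_eq_mul] at h1
      simp only [aug_succ]
      have : ∀ i, p i j * (w i - w' i) = w i * p i j - w' i * p i j := by intro i; ring
      simp_rw [this]
      rw [Finset.sum_sub_distrib, h1, sub_self]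
  obtain ⟨z, hz⟩ := ker_eq h hD _ hker
  obtain ⟨α, β, hα, hβ, hr⟩ := cone_pair hd hpos hab ha hb
  obtain ⟨α', β', hα', hβ', hr'⟩ := cone_pair hd hpos hab' ha' hb'
  have e1 := hr z
  have e2 := hr' z
  rw [← hz a, ← hz b, hwa, hwb] at e1
  rw [← hz a', ← hz b', hwa', hwb'] at e2
  have n1 := hw'.1 a
  have n2 := hw'.1 b
  have n3 := hw.1 a'
  have n4 := hw.1 b'
  have m1 : 0 ≤ α * w' a := mul_nonneg hα.le n1
  have m2 : 0 ≤ β * w' b := mul_nonneg hβ.le n2
  have m3 : 0 ≤ α' * w a' := mul_nonneg hα'.le n3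
  have m4 : 0 ≤ β' * w b' := mul_nonneg hβ'.le n4
  have z1 : α * w' a = 0 := by nlinarith
  have z2 : β * w' b = 0 := by nlinarith
  have y1 : w' a = 0 := (mul_eq_zero.1 z1).resolve_left hα.ne'
  have y2 : w' b = 0 := (mul_eq_zero.1 z2).resolve_left hβ.ne'
  have h1 : wdg (g a) (g b) ≠ 0 := by
    rw [g_odd (g := g) ha, g_even (g := g) hb, wdg_neg_left]
    exact (neg_lt_zero.2 (hpos a b hab)).ne
  have hz0 : z = 0 := by
    apply eq_zero_of_wdg h1
    · rw [← hz a, hwa, y1, sub_zero]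
    · rw [← hz b, hwb, y2, sub_zero]
  funext i
  have := hz i
  rw [hz0, wdg_zero_right] at this
  linarith

/-- the cells are almost disjoint -/
lemma cells_aedisjoint (hd : Even d) (hd0 : 0 < d) {p : Fin (d + 3) → EE d}
    {g : Fin (d + 3) → ℂ} (h : Gale p g) (hD : (gram p).det ≠ 0) (hpos : Pos g) :
    Set.Pairwise (prs d : Set (Fin (d + 3) × Fin (d + 3))) (Function.onFun (AEDisjoint volume) (cell p)) := by
  rintro ⟨a, b⟩ hab ⟨a', b'⟩ hab' hne
  simp only [prs, Finset.coe_filter, Finset.mem_univ, true_and, Set.mem_setOf_eq] at hab hab'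
  obtain ⟨hlt, ha, hb⟩ := hab
  obtain ⟨hlt', ha', hb'⟩ := hab'
  show volume (cell p (a, b) ∩ cell p (a', b')) = 0
  have hcase : a' ≠ a ∨ b' ≠ b := by
    by_contra hcon
    rw [not_or, not_not, not_not] at hcon
    exact hne (by rw [hcon.1, hcon.2])
  have hsub : ∀ c : Fin (d + 3), (c = a' ∨ c = b') → c ≠ a → c ≠ b →
      volume (cell p (a, b) ∩ cell p (a', b')) = 0 := by
    intro c hc hca hcb
    refine measure_mono_null ?_ (null_three hd0 p a b c hlt.ne hca.symm hcb.symm)
    rintro x ⟨⟨w, hw, h1, h2, hx⟩, ⟨w', hw', h1', h2', hx'⟩⟩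
    simp only at h1 h2 h1' h2'
    have heq := weights_eq hd h hD hpos hlt ha hb hlt' ha' hb' hw hw' h1 h2 h1' h2'
      (by rw [hx, hx'])
    refine ⟨w, hw, h1, h2, ?_, hx⟩
    rcases hc with rfl | rfl
    · rw [heq]; exact h1'
    · rw [heq]; exact h2'
  rcases hcase with h1 | h1
  · refine hsub a' (Or.inl rfl) h1 ?_
    intro h2
    rw [h2] at ha'
    omega
  · refine hsub b' (Or.inr rfl) ?_ h1
    intro h2
    rw [h2] at hb'
    omega

/-- the volume formula -/
theorem vol_eq (hd : Even d) (hd0 : 0 < d) {p : Fin (d + 3) → EE d} {g : Fin (d + 3) → ℂ}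
    (h : Gale p g) (hD : (gram p).det ≠ 0) (hpos : Pos g) :
    volume.real (convexHull ℝ (Set.range p)) =
      cv d * Real.sqrt (gram p).det * SS (d := d) g := by
  classical
  have hunion : convexHull ℝ (Set.range p) = ⋃ ab ∈ prs d, cell p ab := by
    apply Set.Subset.antisymm (cover hd h hpos)
    intro x hx
    simp only [Set.mem_iUnion] at hx
    obtain ⟨ab, _, w, hw, _, _, hx⟩ := hx
    rw [mem_hull_iff]
    exact ⟨w, hw, hx⟩
  have hne : ∀ ab ∈ prs d, ab.1 ≠ ab.2 := by
    intro ab hab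
    simp only [prs, Finset.mem_filter, Finset.mem_univ, true_and] at hab
    exact hab.1.ne
  have hmeas : ∀ ab ∈ prs d, MeasurableSet (cell p ab) := by
    intro ab hab
    exact (cell_compact p (hne ab hab)).isClosed.measurableSet
  have hfin : ∀ ab ∈ prs d, volume (cell p ab) ≠ ⊤ := by
    intro ab hab
    exact (cell_compact p (hne ab hab)).measure_lt_top.ne
  rw [hunion, measureReal_biUnion_finset₀ (cells_aedisjoint hd hd0 h hD hpos)
    (fun ab hab => (hmeas ab hab).nullMeasurableSet) hfin]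
  have h1 : ∀ ab ∈ prs d, volume.real (cell p ab)
      = cv d * Real.sqrt (gram p).det * (-wdg (g ab.1) (g ab.2)) := by
    intro ab hab
    have hab' := hab
    simp only [prs, Finset.mem_filter, Finset.mem_univ, true_and] at hab'
    rw [cell_vol h hD (hne ab hab)]
    have h2 : wdg (g ab.1) (g ab.2) < 0 := by
      rw [g_odd (g := g) hab'.2.1, g_even (g := g) hab'.2.2, wdg_neg_left]
      linarith [hpos _ _ hab'.1]
    rw [abs_of_neg h2]
    ring
  rw [Finset.sum_congr rfl h1, ← Finset.mul_sum]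
  congr 1
  rw [Finset.sum_neg_distrib]
  unfold SS
  congr 1
  rw [prs, Finset.sum_filter, ← Finset.univ_product_univ, Finset.sum_product]
  rfl

end Pool.Agent.K3h40.Cyc
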